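import Pool.Agent.Lib.MP_d7e141_nt.Defs

/-!
# MP_d7e141_nt : digit sums, the criterion `u ∈ Out ↔ 0 ∈ uH`
-/

namespace Pool.Agent.MPd7e141

open Multiset

/-! ### digit sums -/

lemma digitSum_add_mul {b : ℕ} (hb : 2 ≤ b) {r : ℕ} (hr : r < b) (M : ℕ) :
    digitSum b (r + b * M) = r + digitSum b M := by
  unfold digitSum
  by_cases h : r ≠ 0 ∨ M ≠ 0
  · rw [Nat.digits_add b (by omega) r M hr h]; simp
  · have h1 : r = 0 := by by_contra h1; exact h (Or.inl h1)
    have h2 : M = 0 := by by_contra h2; exact h (Or.inr h2)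
    subst h1; subst h2
    simp

lemma digitSum_zero (b : ℕ) : digitSum b 0 = 0 := by simp [digitSum]

lemma digitSum_mul {b : ℕ} (hb : 2 ≤ b) (M : ℕ) : digitSum b (b * M) = digitSum b M := by
  have := digitSum_add_mul hb (r := 0) (by omega) M
  simpa using this

lemma digitSum_pow_mul {b : ℕ} (hb : 2 ≤ b) (k M : ℕ) : digitSum b (b ^ k * M) = digitSum b M := by
  induction k with
  | zero => simp
  | succ k ih => rw [pow_succ', mul_assoc, digitSum_mul hb, ih]

lemma digitSum_lt {b : ℕ} (hb : 2 ≤ b) {r : ℕ} (hr : r < b) : digitSum b r = r := by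
  have := digitSum_add_mul hb hr 0
  simpa [digitSum_zero] using this

lemma digitSum_pos {b : ℕ} (hb : 2 ≤ b) : ∀ {N : ℕ}, 0 < N → 0 < digitSum b N := by
  intro N
  induction N using Nat.strong_induction_on with
  | _ N ih =>
    intro hN
    have h := digitSum_add_mul hb (r := N % b) (Nat.mod_lt _ (by omega)) (N / b)
    rw [Nat.mod_add_div] at h
    rw [h]
    by_cases h0 : N % b = 0
    · have h1 : 0 < N / b := by
        rcases Nat.eq_zero_or_pos (N / b) with h2 | h2
        · have := Nat.mod_add_div N b
          rw [h0, h2] at this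
          omega
        · exact h2
      have := ih (N / b) (Nat.div_lt_self hN (by omega)) h1
      omega
    · omega

lemma digitSum_modEq {b : ℕ} (hb : 2 ≤ b) (N : ℕ) : N ≡ digitSum b N [MOD (b - 1)] := by
  rcases Nat.lt_or_ge 2 b with h | h
  · exact Nat.modEq_digits_sum (b - 1) b (by
      have e : b % (b - 1) = (1 + (b - 1)) % (b - 1) := by congr 1; omega
      rw [e, Nat.add_mod_right]
      exact Nat.mod_eq_of_lt (by omega)) N
  · have : b - 1 = 1 := by omega
    rw [this]; exact Nat.modEq_one

lemma digitSum_succ_le {b : ℕ} (hb : 2 ≤ b) : ∀ x : ℕ,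
    digitSum b (x + 1) ≤ digitSum b x + 1 := by
  intro x
  induction x using Nat.strong_induction_on with
  | _ x ih =>
    rcases Nat.eq_zero_or_pos x with rfl | hx
    · rw [digitSum_zero, zero_add, digitSum_lt hb (by omega)]
    have e1 := digitSum_add_mul hb (r := x % b) (Nat.mod_lt _ (by omega)) (x / b)
    rw [Nat.mod_add_div] at e1
    have hlt : x / b < x := Nat.div_lt_self hx (by omega)
    have i1 := ih _ hlt
    have hx2 : x % b < b := Nat.mod_lt _ (by omega)
    have hx3 := Nat.mod_add_div x b
    by_cases hc : x % b + 1 < b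
    · have e3 := digitSum_add_mul hb (r := x % b + 1) hc (x / b)
      have e4 : x % b + 1 + b * (x / b) = x + 1 := by omega
      rw [e4] at e3
      omega
    · have e3 := digitSum_mul hb (x / b + 1)
      have e4 : b * (x / b + 1) = x + 1 := by
        rw [mul_add, mul_one]; omega
      rw [e4] at e3
      omega

/-- subadditivity of the digit sum -/
lemma digitSum_add_le {b : ℕ} (hb : 2 ≤ b) (x y : ℕ) :
    digitSum b (x + y) ≤ digitSum b x + digitSum b y := by
  induction x using Nat.strong_induction_on generalizing y with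
  | _ x ih =>
    rcases Nat.eq_zero_or_pos x with rfl | hx
    · simp [digitSum_zero]
    have e1 := digitSum_add_mul hb (r := x % b) (Nat.mod_lt _ (by omega)) (x / b)
    have e2 := digitSum_add_mul hb (r := y % b) (Nat.mod_lt _ (by omega)) (y / b)
    rw [Nat.mod_add_div] at e1 e2
    have hlt : x / b < x := Nat.div_lt_self hx (by omega)
    have i1 := ih _ hlt (y / b)
    by_cases hc : x % b + y % b < b
    · have e3 := digitSum_add_mul hb (r := x % b + y % b) hc (x / b + y / b)
      have e4 : x % b + y % b + b * (x / b + y / b) = x + y := by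
        have := Nat.mod_add_div x b; have := Nat.mod_add_div y b
        rw [mul_add]; omega
      rw [e4] at e3
      omega
    · have hx2 : x % b < b := Nat.mod_lt _ (by omega)
      have hy2 : y % b < b := Nat.mod_lt _ (by omega)
      have e3 := digitSum_add_mul hb (r := x % b + y % b - b) (by omega) (x / b + y / b + 1)
      have e4 : x % b + y % b - b + b * (x / b + y / b + 1) = x + y := by
        have := Nat.mod_add_div x b; have := Nat.mod_add_div y b
        rw [mul_add, mul_add, mul_one]; omega
      rw [e4] at e3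
      have i2 := digitSum_succ_le hb (x / b + y / b)
      omega

/-- splitting off the top digits -/
lemma digitSum_add_pow_mul {b : ℕ} (hb : 2 ≤ b) (k : ℕ) : ∀ r M : ℕ, r < b ^ k →
    digitSum b (r + b ^ k * M) = digitSum b r + digitSum b M := by
  induction k with
  | zero => intro r M hr; simp at hr; subst hr; simp [digitSum_zero]
  | succ k ih =>
    intro r M hr
    have hm := Nat.mod_lt r (by omega : 0 < b)
    have e0 := Nat.mod_add_div r b
    have e1 := digitSum_add_mul hb (r := r % b) hm (r / b)
    rw [e0] at e1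
    have h2 : r / b < b ^ k := by
      rw [Nat.div_lt_iff_lt_mul (by omega)]; rw [pow_succ] at hr; exact hr
    have e2 := ih (r / b) M h2
    have e3 := digitSum_add_mul hb (r := r % b) hm (r / b + b ^ k * M)
    have e4 : r % b + b * (r / b + b ^ k * M) = r + b ^ (k + 1) * M := by
      rw [mul_add, ← mul_assoc, ← pow_succ', ← add_assoc, e0]
    rw [e4] at e3
    omega

/-! ### representations of `0` as a sum of `u` powers of `b` modulo `m` -/

/-- `0` is a sum of `u` powers of `b` modulo `m` -/
def Rep (b m u : ℕ) : Prop :=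
  ∃ s : Multiset ℕ, s.card = u ∧ m ∣ (s.map (fun e => b ^ e)).sum

lemma Rep.zero (b m : ℕ) : Rep b m 0 := ⟨0, rfl, by simp⟩

lemma Rep.add {b m u v : ℕ} (h1 : Rep b m u) (h2 : Rep b m v) : Rep b m (u + v) := by
  obtain ⟨s, hs, hs'⟩ := h1
  obtain ⟨t, ht, ht'⟩ := h2
  refine ⟨s + t, by simp [hs, ht], ?_⟩
  rw [Multiset.map_add, Multiset.sum_add]
  exact dvd_add hs' ht'

lemma Rep.mono {b m m' u : ℕ} (hm : m' ∣ m) (h : Rep b m u) : Rep b m' u := by
  obtain ⟨s, hs, hs'⟩ := h
  exact ⟨s, hs, hm.trans hs'⟩

/-- the digits of `N` as a multiset of exponents -/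
lemma exists_multiset_digits {b : ℕ} (hb : 2 ≤ b) (N : ℕ) :
    ∃ s : Multiset ℕ, s.card = digitSum b N ∧ (s.map (fun e => b ^ e)).sum = N := by
  induction N using Nat.strong_induction_on with
  | _ N ih =>
    rcases Nat.eq_zero_or_pos N with rfl | hN
    · exact ⟨0, by simp [digitSum_zero], by simp⟩
    obtain ⟨s, hs, hs'⟩ := ih (N / b) (Nat.div_lt_self hN (by omega))
    have e1 := digitSum_add_mul hb (r := N % b) (Nat.mod_lt _ (by omega)) (N / b)
    rw [Nat.mod_add_div] at e1
    refine ⟨Multiset.replicate (N % b) 0 + s.map (fun e => e + 1), ?_, ?_⟩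
    · rw [Multiset.card_add, Multiset.card_replicate, Multiset.card_map, hs, e1]
    · rw [Multiset.map_add, Multiset.sum_add, Multiset.map_replicate, Multiset.sum_replicate,
        Multiset.map_map]
      have : (s.map ((fun e => b ^ e) ∘ fun e => e + 1)).sum = b * N.div b := by
        have h1 : (s.map ((fun e => b ^ e) ∘ fun e => e + 1)) = s.map (fun e => b * b ^ e) := by
          apply Multiset.map_congr rfl
          intro e _
          simp [pow_succ']
        rw [h1, Multiset.sum_map_mul_left, hs']
        rfl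
      rw [this]
      simp only [pow_zero, smul_eq_mul, mul_one]
      exact Nat.mod_add_div N b

/-- from exponents to a number with many trailing zeros -/
lemma exists_number {b m : ℕ} (hb : 2 ≤ b) (hm : Nat.Coprime b m) (s : Multiset ℕ) :
    ∀ B : ℕ, ∃ N : ℕ, digitSum b N = s.card ∧ N ≡ (s.map (fun e => b ^ e)).sum [MOD m] ∧
      b ^ B ∣ N := by
  induction s using Multiset.induction_on with
  | empty => intro B; exact ⟨0, by simp [digitSum_zero], by simp; rfl, by simp⟩
  | cons e s ih =>
    intro B
    obtain ⟨N, h1, h2, h3⟩ := ih (e + Nat.totient m * B + 1)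
    obtain ⟨M, rfl⟩ := h3
    refine ⟨b ^ (e + Nat.totient m * B) * (1 + b * M), ?_, ?_, ?_⟩
    · rw [digitSum_pow_mul hb, digitSum_add_mul hb (by omega), Multiset.card_cons, ← h1,
        digitSum_pow_mul hb]
      ring
    · rw [Multiset.map_cons, Multiset.sum_cons]
      have e1 : b ^ (e + Nat.totient m * B) * (1 + b * M) =
          b ^ e * (b ^ Nat.totient m) ^ B + b ^ (e + Nat.totient m * B + 1) * M := by
        rw [← pow_mul]; ring
      rw [e1]
      apply Nat.ModEq.add _ h2
      have e2 : b ^ Nat.totient m ≡ 1 [MOD m] := Nat.ModEq.pow_totient hm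
      have e3 := (e2.pow B).mul_left (b ^ e)
      simpa using e3
    · rcases Nat.eq_zero_or_pos m with rfl | hm0
      · -- `m = 0`: then `b = 1`, impossible
        simp at hm
        omega
      · have : 1 ≤ Nat.totient m := Nat.totient_pos.mpr hm0
        have h4 : B ≤ e + Nat.totient m * B := by nlinarith
        exact Dvd.dvd.mul_right (pow_dvd_pow _ h4) _

/-- the criterion -/
theorem mem_Out_iff {b m k K u : ℕ} (hb : 2 ≤ b) (hm : Nat.Coprime b m) (hk : k ∣ b ^ K) :
    u ∈ Out b (m * k) ↔ 0 < u ∧ Rep b m u := by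
  constructor
  · rintro ⟨hu, N, hN, hdvd, rfl⟩
    refine ⟨hu, ?_⟩
    obtain ⟨s, hs, hs'⟩ := exists_multiset_digits hb N
    exact ⟨s, hs, by rw [hs']; exact (Dvd.intro k rfl).trans hdvd⟩
  · rintro ⟨hu, s, hs, hs'⟩
    obtain ⟨N, h1, h2, h3⟩ := exists_number hb hm s K
    refine ⟨hu, N, ?_, ?_, by rw [h1, hs]⟩
    · rcases Nat.eq_zero_or_pos N with rfl | h
      · rw [digitSum_zero] at h1; omega
      · exact h
    · have hmN : m ∣ N := (Nat.ModEq.dvd_iff h2 dvd_rfl).mpr hs'
      have hkN : k ∣ N := hk.trans h3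
      have hmk : Nat.Coprime m k :=
        Nat.Coprime.coprime_dvd_right hk (Nat.Coprime.pow_right K hm.symm)
      exact hmk.mul_dvd_of_dvd_of_dvd hmN hkN

end Pool.Agent.MPd7e141
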