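import Pool.Agent.Lib.MP_d7e141_nt.Conj

/-!
FD-Classes (MP_d7e141_nt). Relations between roots of unity of order m = m' p, split by ω = z^{m'}.
PROOF. μ_p = {ω : ω^p = 1} = {ξ^j : j < p}, ξ = exp(2πi/p). For z in α: (z^{m'})^p = 1. D j := (cls m' α (ξ^j)).sum -
(cls m' β (ξ^j)).sum. For t with gcd(1 + m' t, m' p) = 1, `sum_pow_eq_of_sum_eq` with a = 1 + m' t and
z^{1+m't} = z (z^{m'})^t give, grouping by ω = z^{m'}:   ∑_{j<p} ξ^{jt} D j = 0   (1).
(i) p ∣ m': gcd(1+m't, m'p) = 1 for every t (a prime q ∣ m'p divides m'), so (1) for t = 0..p-1, hence p D i =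
∑_t ξ^{-it} ∑_j ξ^{jt} D j = 0 for every i (∑_{t<p} ξ^{(j-i)t} = p if i = j, 0 else).
(ii) p ∤ m': gcd(1+m't, m'p) = 1 iff p ∤ 1+m't; this fails for exactly one t0 < p.  So with C := ∑_j ξ^{j t0} D j,
p D i = ξ^{-i t0} C, i.e. D i = γ ξ^{-i t0}, γ = D 0.  For y = ξ^k: y^{m'} = ξ^{k m'}; (D as a function of ω):
D(y^{m'}) = γ (y^{m'})^{-t0} = γ y^{-m' t0} = γ y, because m' t0 ≡ -1 mod p.
-/

namespace Pool.Agent.MPd7e141

open Classical in
/-- the members `z` of `α` with `z ^ m' = ω` -/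
noncomputable def cls (m' : ℕ) (α : Multiset ℂ) (ω : ℂ) : Multiset ℂ :=
  α.filter (fun z => z ^ m' = ω)

theorem Classes_cls_cons {m' : ℕ} (α : Multiset ℂ) (z ω : ℂ) :
    cls m' (z ::ₘ α) ω = if z ^ m' = ω then z ::ₘ cls m' α ω else cls m' α ω := by
  unfold cls
  by_cases h : z ^ m' = ω
  · rw [if_pos h]
    exact Multiset.filter_cons_of_pos (p := fun z => z ^ m' = ω) α h
  · rw [if_neg h]
    exact Multiset.filter_cons_of_neg (p := fun z => z ^ m' = ω) α h

theorem Classes_group {m' p : ℕ} (hp : 0 < p) (t : ℕ) (α : Multiset ℂ) :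
    (∀ z ∈ α, z ^ (m' * p) = 1) →
    (α.map (fun z => z ^ (1 + m' * t))).sum =
      ∑ ω ∈ Polynomial.nthRootsFinset p (1 : ℂ), ω ^ t * (cls m' α ω).sum := by
  induction α using Multiset.induction_on with
  | empty =>
    intro _
    simp [cls]
  | cons z α ih =>
    intro h
    have hz : z ^ (m' * p) = 1 := h z (Multiset.mem_cons_self z α)
    have hα : ∀ w ∈ α, w ^ (m' * p) = 1 := fun w hw => h w (Multiset.mem_cons_of_mem hw)
    have hmem : z ^ m' ∈ Polynomial.nthRootsFinset p (1 : ℂ) := by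
      rw [Polynomial.mem_nthRootsFinset hp, ← pow_mul, hz]
    rw [Multiset.map_cons, Multiset.sum_cons, ih hα]
    have h1 : ∀ ω ∈ Polynomial.nthRootsFinset p (1 : ℂ),
        ω ^ t * (cls m' (z ::ₘ α) ω).sum =
          (if z ^ m' = ω then ω ^ t * z else 0) + ω ^ t * (cls m' α ω).sum := by
      intro ω _
      rw [Classes_cls_cons]
      split_ifs with h2
      · rw [Multiset.sum_cons]
        ring
      · ring
    rw [Finset.sum_congr rfl h1, Finset.sum_add_distrib, Finset.sum_ite_eq, if_pos hmem]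
    ring

theorem Classes_card {m' p : ℕ} (hp : 0 < p) (α : Multiset ℂ) :
    (∀ z ∈ α, z ^ (m' * p) = 1) →
    ∑ ω ∈ Polynomial.nthRootsFinset p (1 : ℂ), (cls m' α ω).card = α.card := by
  induction α using Multiset.induction_on with
  | empty =>
    intro _
    simp [cls]
  | cons z α ih =>
    intro h
    have hz : z ^ (m' * p) = 1 := h z (Multiset.mem_cons_self z α)
    have hα : ∀ w ∈ α, w ^ (m' * p) = 1 := fun w hw => h w (Multiset.mem_cons_of_mem hw)
    have hmem : z ^ m' ∈ Polynomial.nthRootsFinset p (1 : ℂ) := by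
      rw [Polynomial.mem_nthRootsFinset hp, ← pow_mul, hz]
    rw [Multiset.card_cons, ← ih hα]
    have h1 : ∀ ω ∈ Polynomial.nthRootsFinset p (1 : ℂ),
        (cls m' (z ::ₘ α) ω).card =
          (if z ^ m' = ω then 1 else 0) + (cls m' α ω).card := by
      intro ω _
      rw [Classes_cls_cons]
      split_ifs with h2
      · rw [Multiset.card_cons]
        ring
      · ring
    rw [Finset.sum_congr rfl h1, Finset.sum_add_distrib, Finset.sum_ite_eq, if_pos hmem]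
    ring

theorem Classes_geom {p : ℕ} {x : ℂ} (hx : x ^ p = 1) (h1 : x ≠ 1) :
    ∑ t ∈ Finset.range p, x ^ t = 0 := by
  rw [geom_sum_eq h1, hx, sub_self, zero_div]

/-- inversion on the `p`-th roots of unity -/
theorem Classes_inv {p : ℕ} (hp : 0 < p) (D : ℂ → ℂ) {ω₀ : ℂ} (h0 : ω₀ ^ p = 1) :
    ∑ t ∈ Finset.range p, ω₀⁻¹ ^ t * ∑ ω ∈ Polynomial.nthRootsFinset p (1 : ℂ), ω ^ t * D ω =
      p * D ω₀ := by
  have hne : ω₀ ≠ 0 := by
    intro h
    rw [h, zero_pow hp.ne'] at h0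
    exact zero_ne_one h0
  have hmem : ω₀ ∈ Polynomial.nthRootsFinset p (1 : ℂ) := by
    rw [Polynomial.mem_nthRootsFinset hp, h0]
  have h1 : ∑ t ∈ Finset.range p, ω₀⁻¹ ^ t *
      ∑ ω ∈ Polynomial.nthRootsFinset p (1 : ℂ), ω ^ t * D ω =
      ∑ ω ∈ Polynomial.nthRootsFinset p (1 : ℂ), (if ω₀ = ω then (p : ℂ) * D ω else 0) := by
    simp_rw [Finset.mul_sum]
    rw [Finset.sum_comm]
    refine Finset.sum_congr rfl fun ω hω => ?_
    rw [Polynomial.mem_nthRootsFinset hp] at hω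
    have e : ∀ t ∈ Finset.range p, ω₀⁻¹ ^ t * (ω ^ t * D ω) = (ω₀⁻¹ * ω) ^ t * D ω := by
      intro t _
      rw [mul_pow]
      ring
    rw [Finset.sum_congr rfl e, ← Finset.sum_mul]
    split_ifs with h
    · rw [← h, inv_mul_cancel₀ hne]
      simp
    · rw [Classes_geom (p := p) (x := ω₀⁻¹ * ω), zero_mul]
      · rw [mul_pow, inv_pow, h0, hω]
        simp
      · intro h2
        apply h
        field_simp at h2
        exact h2.symm
  rw [h1, Finset.sum_ite_eq, if_pos hmem]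

/-- the relation for one exponent -/
theorem Classes_rel {m' p : ℕ} (hm : 0 < m') (hp : 0 < p)
    {α β : Multiset ℂ} (hα : ∀ z ∈ α, z ^ (m' * p) = 1) (hβ : ∀ z ∈ β, z ^ (m' * p) = 1)
    (h : α.sum = β.sum) {t : ℕ} (ht : Nat.Coprime (1 + m' * t) (m' * p)) :
    ∑ ω ∈ Polynomial.nthRootsFinset p (1 : ℂ),
      ω ^ t * ((cls m' α ω).sum - (cls m' β ω).sum) = 0 := by
  have h1 := sum_pow_eq_of_sum_eq (Nat.mul_pos hm hp) hα hβ h ht
  rw [Classes_group hp t α hα, Classes_group hp t β hβ] at h1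
  simp_rw [mul_sub]
  rw [Finset.sum_sub_distrib, h1, sub_self]

theorem Classes_coprime {m' t : ℕ} : Nat.Coprime (1 + m' * t) m' := by
  rw [Nat.coprime_comm]
  simp

theorem cls_sum_eq_of_dvd {m' p : ℕ} (hm : 0 < m') (hp : p.Prime) (hpm : p ∣ m')
    {α β : Multiset ℂ} (hα : ∀ z ∈ α, z ^ (m' * p) = 1) (hβ : ∀ z ∈ β, z ^ (m' * p) = 1)
    (h : α.sum = β.sum) (ω : ℂ) : (cls m' α ω).sum = (cls m' β ω).sum := by
  by_cases hω : ω ^ p = 1
  · have h1 := Classes_inv hp.pos (fun ω => (cls m' α ω).sum - (cls m' β ω).sum) hω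
    have h2 : ∀ t ∈ Finset.range p, ω⁻¹ ^ t * ∑ ω ∈ Polynomial.nthRootsFinset p (1 : ℂ),
        ω ^ t * ((cls m' α ω).sum - (cls m' β ω).sum) = 0 := by
      intro t _
      rw [Classes_rel hm hp.pos hα hβ h, mul_zero]
      refine Nat.Coprime.mul_right Classes_coprime ?_
      exact Nat.Coprime.coprime_dvd_right hpm Classes_coprime
    rw [Finset.sum_eq_zero h2] at h1
    have h3 : (p : ℂ) ≠ 0 := by exact_mod_cast hp.ne_zero
    have h4 : (cls m' α ω).sum - (cls m' β ω).sum = 0 := by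
      rcases mul_eq_zero.1 h1.symm with h5 | h5
      · exact absurd h5 h3
      · exact h5
    exact sub_eq_zero.1 h4
  · have h1 : ∀ γ : Multiset ℂ, (∀ z ∈ γ, z ^ (m' * p) = 1) → cls m' γ ω = 0 := by
      intro γ hγ
      unfold cls
      rw [Multiset.filter_eq_nil]
      intro z hz h2
      apply hω
      rw [← h2, ← pow_mul]
      exact hγ z hz
    rw [h1 α hα, h1 β hβ]

theorem cls_sum_eq_of_not_dvd {m' p : ℕ} (hm : 0 < m') (hp : p.Prime) (hpm : ¬ p ∣ m')
    {α β : Multiset ℂ} (hα : ∀ z ∈ α, z ^ (m' * p) = 1) (hβ : ∀ z ∈ β, z ^ (m' * p) = 1)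
    (h : α.sum = β.sum) :
    ∃ γ : ℂ, ∀ y : ℂ, y ^ p = 1 → (cls m' α (y ^ m')).sum = (cls m' β (y ^ m')).sum + γ * y := by
  have : Fact p.Prime := ⟨hp⟩
  have hmz : (m' : ZMod p) ≠ 0 := by
    intro h0
    exact hpm ((ZMod.natCast_eq_zero_iff _ _).1 h0)
  set t₀ : ℕ := (-(m' : ZMod p)⁻¹).val with ht₀
  have ht0lt : t₀ < p := ZMod.val_lt _
  have ht0 : p ∣ 1 + m' * t₀ := by
    rw [← ZMod.natCast_eq_zero_iff]
    push_cast
    rw [ht₀, ZMod.natCast_zmod_val]
    field_simp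
    ring
  have huniq : ∀ t, t < p → p ∣ 1 + m' * t → t = t₀ := by
    intro t ht hd
    rw [← ZMod.natCast_eq_zero_iff] at hd
    push_cast at hd
    have h1 : (t : ZMod p) = -(m' : ZMod p)⁻¹ := by
      have h2 : (m' : ZMod p) * t = -1 := by linear_combination hd
      calc (t : ZMod p) = (m' : ZMod p)⁻¹ * ((m' : ZMod p) * t) := by
            rw [← mul_assoc, inv_mul_cancel₀ hmz, one_mul]
        _ = -(m' : ZMod p)⁻¹ := by rw [h2]; ring
    rw [ht₀, ← h1, ZMod.val_natCast, Nat.mod_eq_of_lt ht]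
  have hp0 : (p : ℂ) ≠ 0 := by exact_mod_cast hp.ne_zero
  set S : ℂ := ∑ ω ∈ Polynomial.nthRootsFinset p (1 : ℂ),
    ω ^ t₀ * ((cls m' α ω).sum - (cls m' β ω).sum) with hS
  refine ⟨S / p, fun y hy => ?_⟩
  have hω : (y ^ m') ^ p = 1 := by
    rw [← pow_mul, mul_comm, pow_mul, hy, one_pow]
  have h1 := Classes_inv hp.pos (fun ω => (cls m' α ω).sum - (cls m' β ω).sum) hω
  rw [Finset.sum_eq_single t₀] at h1
  · have hy0 : y ≠ 0 := by
      intro h0
      rw [h0, zero_pow hp.ne_zero] at hy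
      exact zero_ne_one hy
    have h2 : (y ^ m')⁻¹ ^ t₀ = y := by
      obtain ⟨c, hc⟩ := ht0
      have h3 : y * (y ^ m') ^ t₀ = 1 := by
        rw [← pow_mul, ← pow_succ', add_comm, hc, pow_mul, hy, one_pow]
      have h4 : (y ^ m') ^ t₀ ≠ 0 := pow_ne_zero _ (pow_ne_zero _ hy0)
      rw [inv_pow]
      exact (eq_inv_of_mul_eq_one_left h3).symm
    rw [h2, ← hS] at h1
    have h5 : (cls m' α (y ^ m')).sum - (cls m' β (y ^ m')).sum = S / p * y := by
      field_simp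
      linear_combination -h1
    linear_combination h5
  · intro t ht hne
    rw [Classes_rel hm hp.pos hα hβ h, mul_zero]
    refine Nat.Coprime.mul_right Classes_coprime ?_
    rw [Nat.coprime_comm, hp.coprime_iff_not_dvd]
    intro hd
    exact hne (huniq t (Finset.mem_range.1 ht) hd)
  · intro hn
    exact absurd (Finset.mem_range.2 ht0lt) hn

/-- the classes over the `p`-th roots of unity exhaust `α` -/
theorem sum_card_cls {m' p : ℕ} (hm : 0 < m') (hp : p.Prime)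
    {α : Multiset ℂ} (hα : ∀ z ∈ α, z ^ (m' * p) = 1) :
    ∑ ω ∈ Polynomial.nthRootsFinset p (1 : ℂ), (cls m' α ω).card = α.card :=
  Classes_card hp.pos α hα

end Pool.Agent.MPd7e141
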