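import Mathlib

/-!
FD-Conj (MP_d7e141_nt). Galois conjugation of sums of roots of unity.
PROOF. ζ = exp(2πi/d) is a primitive d-th root (`Complex.isPrimitiveRoot_exp`). Every z in α or β is ζ^{k z}
(`IsPrimitiveRoot.eq_pow_of_pow_eq_one`, choose k). Put f = ∑_{z∈α} X^{k z} - ∑_{z∈β} X^{k z} in ℤ[X] (Multiset.map … sum);
aeval ζ f = α.sum - β.sum = 0, so minpoly ℤ ζ = cyclotomic d ℤ divides f (`Polynomial.cyclotomic_eq_minpoly`,
`minpoly.isIntegrallyClosed_dvd`).  ζ^a is again a primitive d-th root (`IsPrimitiveRoot.pow_of_coprime`), hence a root of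
cyclotomic d (`IsPrimitiveRoot.isRoot_cyclotomic`), hence aeval (ζ^a) f = 0, and aeval (ζ^a) f = ∑_{z∈α} z^a - ∑_{z∈β} z^a.
-/

namespace Pool.Agent.MPd7e141

open Polynomial in
private theorem Conj_aeval (k : ℂ → ℕ) (w : ℂ) (s : Multiset ℂ) :
    aeval w ((s.map (fun z => (X : ℤ[X]) ^ k z)).sum) = (s.map (fun z => w ^ k z)).sum := by
  induction s using Multiset.induction_on with
  | empty => simp
  | cons a s ih =>
    rw [Multiset.map_cons, Multiset.sum_cons, Multiset.map_cons, Multiset.sum_cons, map_add, ih]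
    simp

open Polynomial in
theorem sum_pow_eq_of_sum_eq {d : ℕ} (hd : 0 < d) {α β : Multiset ℂ}
    (hα : ∀ z ∈ α, z ^ d = 1) (hβ : ∀ z ∈ β, z ^ d = 1) (h : α.sum = β.sum)
    {a : ℕ} (ha : Nat.Coprime a d) :
    (α.map (fun z => z ^ a)).sum = (β.map (fun z => z ^ a)).sum := by
  classical
  have : NeZero d := ⟨hd.ne'⟩
  obtain ⟨ζ, hζ⟩ : ∃ ζ : ℂ, IsPrimitiveRoot ζ d := ⟨_, Complex.isPrimitiveRoot_exp d hd.ne'⟩
  have hk : ∀ z : ℂ, ∃ k : ℕ, z ^ d = 1 → ζ ^ k = z := by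
    intro z
    by_cases hz : z ^ d = 1
    · obtain ⟨i, -, hi⟩ := hζ.eq_pow_of_pow_eq_one hz
      exact ⟨i, fun _ => hi⟩
    · exact ⟨0, fun h => absurd h hz⟩
  choose k hk using hk
  obtain ⟨f, hf⟩ : ∃ f : ℤ[X], f = (α.map (fun z => (X : ℤ[X]) ^ k z)).sum
      - (β.map (fun z => (X : ℤ[X]) ^ k z)).sum := ⟨_, rfl⟩
  have key : ∀ w : ℂ, aeval w f = (α.map (fun z => w ^ k z)).sum - (β.map (fun z => w ^ k z)).sum := by
    intro w
    rw [hf, map_sub, Conj_aeval, Conj_aeval]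
  have hself : ∀ s : Multiset ℂ, (∀ z ∈ s, z ^ d = 1) → s.map (fun z => ζ ^ k z) = s := by
    intro s hs
    conv_rhs => rw [← Multiset.map_id s]
    exact Multiset.map_congr rfl (fun z hz => hk z (hs z hz))
  have hpow : ∀ s : Multiset ℂ, (∀ z ∈ s, z ^ d = 1) →
      s.map (fun z => (ζ ^ a) ^ k z) = s.map (fun z => z ^ a) := by
    intro s hs
    refine Multiset.map_congr rfl (fun z hz => ?_)
    rw [← pow_mul, mul_comm, pow_mul, hk z (hs z hz)]
  have h0 : aeval ζ f = 0 := by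
    rw [key, hself α hα, hself β hβ, h, sub_self]
  have hint : IsIntegral ℤ ζ := hζ.isIntegral hd
  have hdvd : minpoly ℤ ζ ∣ f := minpoly.isIntegrallyClosed_dvd hint h0
  rw [← Polynomial.cyclotomic_eq_minpoly hζ hd] at hdvd
  have hζa : IsPrimitiveRoot (ζ ^ a) d := hζ.pow_of_coprime a ha
  have h1 : aeval (ζ ^ a) f = 0 := by
    obtain ⟨g, hg⟩ := hdvd
    have hroot : (cyclotomic d ℂ).IsRoot (ζ ^ a) := hζa.isRoot_cyclotomic hd
    rw [hg, map_mul]
    have : aeval (ζ ^ a) (cyclotomic d ℤ) = 0 := by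
      rw [aeval_def, eval₂_eq_eval_map, Polynomial.map_cyclotomic]
      exact hroot
    rw [this, zero_mul]
  rw [key, hpow α hα, hpow β hβ] at h1
  exact sub_eq_zero.mp h1

end Pool.Agent.MPd7e141
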