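import Pool.Agent.Lib.MP_d7e141_nt.Basic

/-!
# MP_d7e141_nt : the core `n'`, closure properties, the sharp upper bound
-/

namespace Pool.Agent.MPd7e141

open Multiset

/-! ### the core -/

lemma gcd_pow_self_dvd (b n : ℕ) : Nat.gcd n (b ^ n) ∣ n := Nat.gcd_dvd_left _ _

lemma core_mul (b n : ℕ) : core b n * Nat.gcd n (b ^ n) = n :=
  Nat.div_mul_cancel (gcd_pow_self_dvd b n)

lemma core_dvd (b n : ℕ) : core b n ∣ n := ⟨_, (core_mul b n).symm⟩

lemma core_pos {b n : ℕ} (hn : 0 < n) : 0 < core b n := by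
  have := core_mul b n
  rcases Nat.eq_zero_or_pos (core b n) with h | h
  · rw [h] at this; omega
  · exact h

lemma coprime_core {b n : ℕ} (hn : 0 < n) : Nat.Coprime b (core b n) := by
  rw [Nat.coprime_iff_gcd_eq_one]
  by_contra h
  obtain ⟨p, hp, hpd⟩ := Nat.exists_prime_and_dvd h
  have hpb : p ∣ b := hpd.trans (Nat.gcd_dvd_left _ _)
  have hpc : p ∣ core b n := hpd.trans (Nat.gcd_dvd_right _ _)
  -- the p-part of n divides b^n, so of gcd
  have h1 : p ^ (n.factorization p) ∣ b ^ n := by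
    have h2 : n.factorization p ≤ n := (Nat.factorization_lt p (by omega)).le
    exact (pow_dvd_pow p h2).trans (pow_dvd_pow_of_dvd hpb n)
  have h2 : p ^ (n.factorization p) ∣ Nat.gcd n (b ^ n) :=
    Nat.dvd_gcd (Nat.ordProj_dvd n p) h1
  have h3 : p ^ (n.factorization p + 1) ∣ n := by
    have h4 := mul_dvd_mul hpc h2
    rw [core_mul, ← pow_succ'] at h4
    exact h4
  exact Nat.pow_succ_factorization_not_dvd (by omega) hp h3

/-- `core b n` is the largest divisor of `n` coprime to `b` -/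
theorem isGreatest_core {b n : ℕ} (hn : 0 < n) :
    IsGreatest {m : ℕ | m ∣ n ∧ Nat.Coprime b m} (core b n) := by
  refine ⟨⟨core_dvd b n, coprime_core hn⟩, ?_⟩
  rintro m ⟨hm, hc⟩
  apply Nat.le_of_dvd (core_pos hn)
  have h1 : m ∣ core b n * Nat.gcd n (b ^ n) := by rw [core_mul]; exact hm
  apply Nat.Coprime.dvd_of_dvd_mul_right _ h1
  apply Nat.Coprime.coprime_dvd_right (Nat.gcd_dvd_right n (b ^ n))
  exact Nat.Coprime.pow_right n hc.symm

/-- every divisor of `n` coprime to `b` divides the core -/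
theorem dvd_core {b n m : ℕ} (hm : m ∣ n) (hc : Nat.Coprime b m) : m ∣ core b n := by
  have h1 : m ∣ core b n * Nat.gcd n (b ^ n) := by rw [core_mul]; exact hm
  apply Nat.Coprime.dvd_of_dvd_mul_right _ h1
  apply Nat.Coprime.coprime_dvd_right (Nat.gcd_dvd_right n (b ^ n))
  exact Nat.Coprime.pow_right n hc.symm

lemma core_eq_self {b n : ℕ} (hc : Nat.Coprime b n) : core b n = n :=
  Nat.dvd_antisymm (core_dvd b n) (dvd_core dvd_rfl hc)

/-- the criterion for `n` -/
theorem mem_Out {b n u : ℕ} (hb : 2 ≤ b) (hn : 0 < n) :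
    u ∈ Out b n ↔ 0 < u ∧ Rep b (core b n) u := by
  have h := mem_Out_iff (u := u) hb (coprime_core (b := b) hn) (Nat.gcd_dvd_right n (b ^ n))
  rw [core_mul] at h
  exact h

lemma Admissible.core_gt_one {b n : ℕ} (h : Admissible b n) : 1 < core b n := by
  obtain ⟨p, hp, hpn, hpb⟩ := h.prime
  have h1 : p ∣ core b n := dvd_core hpn ((Nat.Prime.coprime_iff_not_dvd hp).mpr hpb).symm
  have := Nat.le_of_dvd (core_pos h.pos) h1
  have := hp.two_le
  omega

lemma Admissible.coprime_pred {b n : ℕ} (h : Admissible b n) : Nat.Coprime (b - 1) (core b n) :=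
  Nat.Coprime.coprime_dvd_right (core_dvd b n) h.cop

lemma odd_of_coprime {b m : ℕ} (hb : 2 ≤ b) (h1 : Nat.Coprime b m) (h2 : Nat.Coprime (b - 1) m) :
    Odd m := by
  rw [← Nat.not_even_iff_odd]
  intro he
  have h2m : 2 ∣ m := he.two_dvd
  rcases Nat.even_or_odd b with hb' | hb'
  · have := Nat.dvd_gcd hb'.two_dvd h2m
    rw [h1] at this
    omega
  · have h3 : 2 ∣ b - 1 := by
      obtain ⟨c, hc⟩ := hb'
      exact ⟨c, by omega⟩
    have := Nat.dvd_gcd h3 h2m
    rw [h2] at this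
    omega

/-! ### closure -/

/-- splitting one power of `b` into `b` smaller ones -/
lemma Rep.split {b m u : ℕ} (hb : 2 ≤ b) (hm : 0 < m) (hc : Nat.Coprime b m) (hu : 0 < u)
    (h : Rep b m u) : Rep b m (u + (b - 1)) := by
  obtain ⟨s, hs, hs'⟩ := h
  have hne : s ≠ 0 := by rintro rfl; simp at hs; omega
  obtain ⟨e, he⟩ := Multiset.exists_mem_of_ne_zero hne
  obtain ⟨t, rfl⟩ := Multiset.exists_cons_of_mem he
  refine ⟨Multiset.replicate b (e + Nat.totient m - 1) + t, ?_, ?_⟩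
  · rw [Multiset.card_cons] at hs
    rw [Multiset.card_add, Multiset.card_replicate]
    omega
  · rw [Multiset.map_add, Multiset.sum_add, Multiset.map_replicate, Multiset.sum_replicate,
      smul_eq_mul]
    rw [Multiset.map_cons, Multiset.sum_cons] at hs'
    have ht : 0 < Nat.totient m := Nat.totient_pos.mpr hm
    have e1 : b * b ^ (e + Nat.totient m - 1) = b ^ e * b ^ Nat.totient m := by
      rw [← pow_succ', ← pow_add]
      congr 1
      omega
    rw [e1]
    have e2 : b ^ Nat.totient m ≡ 1 [MOD m] := Nat.ModEq.pow_totient hc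
    have e3 : b ^ e * b ^ Nat.totient m + (t.map fun e => b ^ e).sum ≡
        b ^ e * 1 + (t.map fun e => b ^ e).sum [MOD m] :=
      (e2.mul_left _).add_right _
    rw [mul_one] at e3
    exact (Nat.ModEq.dvd_iff e3 dvd_rfl).mpr hs'

lemma Rep.split_many {b m u : ℕ} (hb : 2 ≤ b) (hm : 0 < m) (hc : Nat.Coprime b m) (hu : 0 < u)
    (h : Rep b m u) (k : ℕ) : Rep b m (u + (b - 1) * k) := by
  induction k with
  | zero => simpa using h
  | succ k ih =>
    have := ih.split hb hm hc (by omega)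
    rw [mul_add, mul_one, ← add_assoc]
    exact this

/-- using only `1` and `b` -/
lemma rep_of_mod {b m u x : ℕ} (hb : 2 ≤ b) (hx : x ≤ u) (h : m ∣ u + x * (b - 1)) :
    Rep b m u := by
  refine ⟨Multiset.replicate x 1 + Multiset.replicate (u - x) 0, ?_, ?_⟩
  · simp; omega
  · rw [Multiset.map_add, Multiset.sum_add, Multiset.map_replicate, Multiset.map_replicate,
      Multiset.sum_replicate, Multiset.sum_replicate]
    simp only [pow_one, smul_eq_mul, pow_zero, mul_one]
    have : x * b + (u - x) = u + x * (b - 1) := by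
      obtain ⟨c, rfl⟩ : ∃ c, b = c + 2 := ⟨b - 2, by omega⟩
      obtain ⟨v, rfl⟩ : ∃ v, u = x + v := ⟨u - x, by omega⟩
      simp
      ring
    rw [this]
    exact h

/-- solving `u + x (b-1) ≡ 0` with `0 ≤ x < m` -/
lemma exists_x {b m : ℕ} (hm : 0 < m) (hc : Nat.Coprime (b - 1) m) (u : ℕ) :
    ∃ x, x < m ∧ m ∣ u + x * (b - 1) := by
  have : NeZero m := ⟨by omega⟩
  refine ⟨((-(u : ZMod m)) * (((b - 1 : ℕ) : ZMod m))⁻¹).val, ZMod.val_lt _, ?_⟩
  rw [← ZMod.natCast_eq_zero_iff, Nat.cast_add, Nat.cast_mul, ZMod.natCast_val, ZMod.cast_id]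
  have h := ZMod.coe_mul_inv_eq_one (b - 1) hc
  rw [mul_assoc, mul_comm _ (((b - 1 : ℕ) : ZMod m)), h]
  ring

lemma rep_of_ge {b m u : ℕ} (hb : 2 ≤ b) (hm : 0 < m) (hc : Nat.Coprime (b - 1) m)
    (hu : m ≤ u + 1) : Rep b m u := by
  obtain ⟨x, hx, hx'⟩ := exists_x hm hc u
  exact rep_of_mod hb (by omega) hx'

lemma not_rep_one {b m : ℕ} (hm : 1 < m) (hc : Nat.Coprime b m) : ¬ Rep b m 1 := by
  rintro ⟨s, hs, hs'⟩
  obtain ⟨e, rfl⟩ := Multiset.card_eq_one.mp hs
  simp only [Multiset.map_singleton, Multiset.sum_singleton] at hs'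
  have h1 : Nat.Coprime (b ^ e) m := Nat.Coprime.pow_left e hc
  have h2 := Nat.dvd_gcd hs' (dvd_refl m)
  rw [h1] at h2
  have := Nat.le_of_dvd one_pos h2
  omega

lemma sum_of_dvd_succ {b m : ℕ} (hd : m ∣ b + 1) (s : Multiset ℕ) :
    ∃ A B : ℕ, A + B = s.card ∧ (((s.map (fun e => b ^ e)).sum : ℕ) : ZMod m) = A - B := by
  have hb : (b : ZMod m) = -1 := by
    have : ((b + 1 : ℕ) : ZMod m) = 0 := (ZMod.natCast_eq_zero_iff _ _).mpr hd
    push_cast at this
    linear_combination this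
  induction s using Multiset.induction_on with
  | empty => exact ⟨0, 0, by simp, by simp⟩
  | cons e s ih =>
    obtain ⟨A, B, h1, h2⟩ := ih
    rw [Multiset.map_cons, Multiset.sum_cons]
    rcases Nat.even_or_odd e with he | he
    · refine ⟨A + 1, B, by simp; omega, ?_⟩
      push_cast
      push_cast at h2
      rw [h2, hb, he.neg_one_pow]
      ring
    · refine ⟨A, B + 1, by simp; omega, ?_⟩
      push_cast
      push_cast at h2
      rw [h2, hb, he.neg_one_pow]
      ring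

lemma rep_pred_two_iff {b m : ℕ} (hb : 2 ≤ b) (hm : 1 < m) (hodd : Odd m)
    (hc : Nat.Coprime (b - 1) m) : Rep b m (m - 2) ↔ ¬ m ∣ b + 1 := by
  constructor
  · rintro ⟨s, hs, hs'⟩ hd
    obtain ⟨A, B, h1, h2⟩ := sum_of_dvd_succ hd s
    rw [(ZMod.natCast_eq_zero_iff _ _).mpr hs'] at h2
    have h3 : (((A : ℤ) - (B : ℤ) : ℤ) : ZMod m) = 0 := by push_cast; exact h2.symm
    rw [ZMod.intCast_zmod_eq_zero_iff_dvd] at h3
    have h4 : (A : ℤ) - B = 0 := by
      apply Int.eq_zero_of_abs_lt_dvd h3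
      rw [abs_lt]
      constructor <;> omega
    obtain ⟨c, hc'⟩ := hodd
    omega
  · intro hd
    obtain ⟨x, hx, hx'⟩ := exists_x (by omega) hc (m - 2)
    by_cases h : x ≤ m - 2
    · exact rep_of_mod hb h hx'
    · exfalso
      apply hd
      have hx2 : x = m - 1 := by omega
      subst hx2
      obtain ⟨c, rfl⟩ : ∃ c, b = c + 1 := ⟨b - 1, by omega⟩
      obtain ⟨k, rfl⟩ : ∃ k, m = k + 2 := ⟨m - 2, by omega⟩
      have e : k + 2 - 2 + (k + 2 - 1) * (c + 1 - 1) + (c + 1 + 1) = (k + 2) * (c + 1) := by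
        simp
        ring
      have h5 : (k + 2) ∣ k + 2 - 2 + (k + 2 - 1) * (c + 1 - 1) + (c + 1 + 1) := by
        rw [e]; exact Dvd.intro _ rfl
      exact (Nat.dvd_add_right hx').mp h5

/-! ### the Frobenius number -/

lemma bddAbove_gaps {b n : ℕ} (h : Admissible b n) :
    BddAbove {u : ℕ | 0 < u ∧ u ∉ Out b n} := by
  refine ⟨core b n, ?_⟩
  rintro u ⟨hu, hu'⟩
  by_contra hc
  apply hu'
  rw [mem_Out h.two_le h.pos]
  exact ⟨hu, rep_of_ge h.two_le (core_pos h.pos) h.coprime_pred (by omega)⟩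

lemma one_mem_gaps {b n : ℕ} (h : Admissible b n) : (1 : ℕ) ∈ {u : ℕ | 0 < u ∧ u ∉ Out b n} := by
  refine ⟨one_pos, ?_⟩
  rw [mem_Out h.two_le h.pos]
  rintro ⟨-, h1⟩
  exact not_rep_one h.core_gt_one (coprime_core h.pos) h1

/-- `F b n` is the maximum of the complement of `Out(s_b,n)` -/
theorem isGreatest_F {b n : ℕ} (h : Admissible b n) :
    IsGreatest {u : ℕ | 0 < u ∧ u ∉ Out b n} (F b n) := by
  have hne : {u : ℕ | 0 < u ∧ u ∉ Out b n}.Nonempty := ⟨1, one_mem_gaps h⟩
  exact ⟨Nat.sSup_mem hne (bddAbove_gaps h), fun u hu => le_csSup (bddAbove_gaps h) hu⟩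

lemma one_le_F {b n : ℕ} (h : Admissible b n) : 1 ≤ F b n :=
  (isGreatest_F h).2 (one_mem_gaps h)

lemma F_le {b n g : ℕ} (h : Admissible b n) (h2 : ∀ u, g < u → Rep b (core b n) u) :
    F b n ≤ g := by
  by_contra hc
  have h3 := (isGreatest_F h).1
  apply h3.2
  rw [mem_Out h.two_le h.pos]
  exact ⟨h3.1, h2 _ (by omega)⟩

lemma le_F {b n g : ℕ} (h : Admissible b n) (hg : ¬ Rep b (core b n) g) : g ≤ F b n := by
  rcases Nat.eq_zero_or_pos g with rfl | h0
  · omega
  · apply (isGreatest_F h).2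
    refine ⟨h0, ?_⟩
    rw [mem_Out h.two_le h.pos]
    rintro ⟨-, h1⟩
    exact hg h1

lemma F_eq {b n g : ℕ} (h : Admissible b n) (hg : ¬ Rep b (core b n) g)
    (h2 : ∀ u, g < u → Rep b (core b n) u) : F b n = g :=
  le_antisymm (F_le h h2) (le_F h hg)

lemma rep_of_F_lt {b n u : ℕ} (h : Admissible b n) (hu : F b n < u) : Rep b (core b n) u := by
  by_contra hc
  have := le_F h hc
  omega

lemma not_rep_F {b n : ℕ} (h : Admissible b n) : ¬ Rep b (core b n) (F b n) := by
  intro h1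
  have h3 := (isGreatest_F h).1
  apply h3.2
  rw [mem_Out h.two_le h.pos]
  exact ⟨h3.1, h1⟩

/-- the sharp general upper bound with its equality case -/
theorem F_le_core_sub_two {b n : ℕ} (h : Admissible b n) :
    F b n ≤ core b n - 2 ∧ (F b n = core b n - 2 ↔ core b n ∣ b + 1) := by
  have h1 := h.core_gt_one
  have hodd := odd_of_coprime h.two_le (coprime_core h.pos) h.coprime_pred
  have h2 := rep_pred_two_iff h.two_le h1 hodd h.coprime_pred
  have hle : F b n ≤ core b n - 2 :=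
    F_le h (fun u hu => rep_of_ge h.two_le (by omega) h.coprime_pred (by omega))
  refine ⟨hle, ?_, ?_⟩
  · intro he
    by_contra hd
    have := h2.mpr hd
    rw [← he] at this
    exact not_rep_F h this
  · intro hd
    apply le_antisymm hle
    apply le_F h
    intro hr
    exact h2.mp hr hd

end Pool.Agent.MPd7e141
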