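import Pool.Agent.Lib.MP_d7e141_nt.LamLeung
import Pool.Agent.Lib.MP_d7e141_nt.Core

/-!
FD-CycLow (MP_d7e141_nt). PROOF. Suppose s : Multiset ℕ, card s = g, m ∣ ∑_{e∈s} b^e. f := ∑_{e∈s} X^e ∈ ℤ[X], Φ = cyclotomic d ℤ (monic, natDegree
φ(d) ≥ 1 as d ≥ 1). R := Φ.resultant f. `Polynomial.exists_mul_add_mul_eq_C_resultant`: Φ p + f q = C R; evaluate at b:
m ∣ R.  Over ℂ (`Polynomial.resultant_map_map`, `Polynomial.resultant_eq_prod_eval`): R = ∏_{ζ primitive d-th root} f(ζ)
(Φ monic, splits, roots = primitiveRoots d ℂ). Each f(ζ) is the sum of the multiset (s.map (ζ^·)) of d-th roots of unity, card g; it is ≠ 0,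
otherwise g ∈ closure by `lam_leung`.  So R ≠ 0 and |R| ≤ g^{φ(d)} < m (`Polynomial.card_roots`/`IsPrimitiveRoot.card_primitiveRoots`,
norm of a multiset sum ≤ card). With m ∣ R: contradiction.
-/

namespace Pool.Agent.MPd7e141

/-- norm of a product of a multiset of complex numbers of norm at most `g` -/
private theorem cycLow_norm_prod {g : ℝ} (hg : 0 ≤ g) (t : Multiset ℂ) (h : ∀ z ∈ t, ‖z‖ ≤ g) :
    ‖t.prod‖ ≤ g ^ Multiset.card t := by
  induction t using Multiset.induction_on with
  | empty => simp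
  | cons a t ih =>
    rw [Multiset.prod_cons, norm_mul, Multiset.card_cons, pow_succ, mul_comm]
    exact mul_le_mul (ih fun z hz => h z (Multiset.mem_cons_of_mem hz))
      (h a (Multiset.mem_cons_self a t)) (norm_nonneg _) (pow_nonneg hg _)

/-- norm of a sum of numbers of norm one -/
private theorem cycLow_norm_sum (s : Multiset ℕ) {z : ℂ} (h : ‖z‖ = 1) :
    ‖(s.map fun e => z ^ e).sum‖ ≤ Multiset.card s := by
  induction s using Multiset.induction_on with
  | empty => simp
  | cons a s ih =>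
    rw [Multiset.map_cons, Multiset.sum_cons, Multiset.card_cons]
    refine (norm_add_le _ _).trans ?_
    rw [norm_pow, h, one_pow]
    push_cast
    linarith

theorem not_rep_of_cyclotomic {b d m g : ℕ} (hd : 0 < d)
    (h : (m : ℤ) ∣ (Polynomial.cyclotomic d ℤ).eval (b : ℤ))
    (hg : g ∉ AddSubmonoid.closure (d.primeFactors : Set ℕ))
    (hlt : g ^ Nat.totient d < m) : ¬ Rep b m g := by
  rintro ⟨s, hs, hm⟩
  set f : Polynomial ℤ := (s.map fun e => (Polynomial.X : Polynomial ℤ) ^ e).sum with hf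
  set Φ : Polynomial ℤ := Polynomial.cyclotomic d ℤ with hΦ
  have hdeg : Φ.natDegree = Nat.totient d := Polynomial.natDegree_cyclotomic d ℤ
  have hpos : 0 < Nat.totient d := Nat.totient_pos.2 hd
  set R : ℤ := Φ.resultant f Φ.natDegree f.natDegree with hR
  have hfb : f.eval (b : ℤ) = (((s.map fun e => b ^ e).sum : ℕ) : ℤ) := by
    have e1 : f.eval (b : ℤ) = (s.map fun e => (b : ℤ) ^ e).sum := by
      rw [hf, ← Polynomial.coe_evalRingHom, map_multiset_sum, Multiset.map_map]
      congr 1
      refine Multiset.map_congr rfl fun e _ => ?_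
      simp
    rw [e1, Nat.cast_multiset_sum, Multiset.map_map]
    exact congrArg Multiset.sum (Multiset.map_congr rfl fun e _ => by simp)
  have hmR : (m : ℤ) ∣ R := by
    obtain ⟨p, q, _, _, hpq⟩ := Polynomial.exists_mul_add_mul_eq_C_resultant
      (m := Φ.natDegree) (n := f.natDegree) Φ f le_rfl le_rfl (Or.inl (by rw [hdeg]; exact hpos.ne'))
    have h2 := congrArg (Polynomial.eval (b : ℤ)) hpq
    rw [Polynomial.eval_add, Polynomial.eval_mul, Polynomial.eval_mul, Polynomial.eval_C] at h2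
    rw [hR, ← h2]
    refine dvd_add (h.mul_right _) (Dvd.dvd.mul_right ?_ _)
    rw [hfb]
    exact_mod_cast hm
  -- over the complex numbers
  set φ : ℤ →+* ℂ := Int.castRingHom ℂ with hφ
  have hΦC : Φ.map φ = Polynomial.cyclotomic d ℂ := Polynomial.map_cyclotomic d φ
  have hRC : (R : ℂ) = (((Polynomial.cyclotomic d ℂ).roots.map (f.map φ).eval).prod) := by
    have e1 : φ R = (Φ.map φ).resultant (f.map φ) Φ.natDegree f.natDegree := by
      rw [Polynomial.resultant_map_map]
    have e2 : Φ.natDegree = (Φ.map φ).natDegree := by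
      rw [hΦC, hdeg, Polynomial.natDegree_cyclotomic]
    rw [e2, Polynomial.resultant_eq_prod_eval (Φ.map φ) (f.map φ) f.natDegree
      Polynomial.natDegree_map_le (IsAlgClosed.splits _), hΦC,
      (Polynomial.cyclotomic.monic d ℂ).leadingCoeff, one_pow, one_mul] at e1
    exact e1
  have hroots : (Polynomial.cyclotomic d ℂ).roots = (primitiveRoots d ℂ).val := by
    have : NeZero (d : ℂ) := ⟨by exact_mod_cast hd.ne'⟩
    exact Polynomial.cyclotomic.roots_eq_primitiveRoots_val
  have hfz : ∀ z : ℂ, (f.map φ).eval z = (s.map fun e => z ^ e).sum := by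
    intro z
    rw [Polynomial.eval_map, ← Polynomial.coe_eval₂RingHom, hf, map_multiset_sum, Multiset.map_map]
    congr 1
    refine Multiset.map_congr rfl fun e _ => ?_
    simp
  have hz : ∀ z ∈ (primitiveRoots d ℂ).val, z ^ d = 1 := fun z hz =>
    (isPrimitiveRoot_of_mem_primitiveRoots hz).pow_eq_one
  have hne : R ≠ 0 := by
    intro h0
    rw [h0, hroots, Int.cast_zero] at hRC
    have h1 := Multiset.prod_eq_zero_iff.1 hRC.symm
    obtain ⟨z, hz1, hz2⟩ := Multiset.mem_map.1 h1
    rw [hfz] at hz2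
    have h3 := lam_leung hd (α := s.map fun e => z ^ e) (by
      intro w hw
      obtain ⟨e, _, rfl⟩ := Multiset.mem_map.1 hw
      rw [← pow_mul, mul_comm, pow_mul, hz z hz1, one_pow]) hz2
    rw [Multiset.card_map, hs] at h3
    exact hg h3
  have hle : |R| ≤ (g : ℤ) ^ Nat.totient d := by
    have h1 : ‖(R : ℂ)‖ ≤ (g : ℝ) ^ Nat.totient d := by
      rw [hRC, hroots]
      have h2 := cycLow_norm_prod (g := (g : ℝ)) (Nat.cast_nonneg g)
        ((primitiveRoots d ℂ).val.map (f.map φ).eval) (by
          intro w hw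
          obtain ⟨z, hz1, rfl⟩ := Multiset.mem_map.1 hw
          rw [hfz]
          have h3 : ‖z‖ = 1 := Complex.norm_eq_one_of_pow_eq_one (hz z hz1) hd.ne'
          have h4 := cycLow_norm_sum s h3
          rwa [hs] at h4)
      rw [Multiset.card_map] at h2
      have h5 : Multiset.card (primitiveRoots d ℂ).val = Nat.totient d :=
        Complex.card_primitiveRoots d
      rwa [h5] at h2
    rw [Complex.norm_intCast] at h1
    exact_mod_cast h1
  have h1 : (m : ℤ) ≤ |R| := by
    refine Int.le_of_dvd (abs_pos.2 hne) ?_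
    rwa [dvd_abs]
  have h2 : (m : ℤ) ≤ (g : ℤ) ^ Nat.totient d := h1.trans hle
  have h3 : m ≤ g ^ Nat.totient d := by exact_mod_cast h2
  omega

end Pool.Agent.MPd7e141
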