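import Pool.Agent.Lib.MP_d7e141_nt.Core

/-!
FD-Family (MP_d7e141_nt). n = (b^{cm} - 1)/(b^c - 1) = ∑_{t<m} B^t, B = b^c (`Nat.geomSum_eq`).
PROOF. `block`: for j < B: digitSum b (j ∑_{t<m} B^t) = m digitSum b j, by induction on m with `digitSum_add_pow_mul`.
`reduce`: for N > 0 there is N' with 0 < N' < b^k, N' ≡ N mod (b^k - 1), digitSum N' ≤ digitSum N: strong induction, N = r + b^k q with
q > 0 ↦ r + q < N (`digitSum_add_le`, `digitSum_add_pow_mul`).
`family`: k = cm, n ∣ b^k - 1, n coprime to b (n = 1 + B(...)) and gcd(b-1,n) = gcd(b-1,m) = 1 (n ≡ m mod b-1), n > 1, so admissible (any prime p ∣ n) and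
core b n = n (`core_eq_self`). `F_eq` with g = (m-1)(b-1):
 * not Rep: by `mem_Out` (g > 0) there would be N > 0, n ∣ N, digitSum N = g.  N' from `reduce`: n ∣ N' (N' ≡ N mod n), N' = j n, 0 < j < B (N' < b^k,
   and (b^c - 1) n = b^k - 1; j = B gives B n > b^k - 1.. so j ≤ B - 1: j n ≤ b^k - 1 = (B-1) n). digitSum N' = m s, s = digitSum b j > 0 (`digitSum_pos`).
   m s ≤ g and m s ≡ N' ≡ N ≡ g ≡ 0 mod (b-1) (`digitSum_modEq`; b-1 ∣ b^k-1). gcd(m,b-1) = 1 → b-1 ∣ s → s ≥ b-1 → m(b-1) ≤ (m-1)(b-1), contradiction.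
 * u > g: u - m > m(b-1) - m - (b-1), so u - m = m x + (b-1) y (x,y ≥ 0: `frobeniusNumber_pair` needs both > 1; if b = 2 then b-1 = 1 trivially
   (x=0); m ≥ 2); hence u = m(x+1) + (b-1)y; Rep b n m (exponents 0,c,2c,..,(m-1)c), so Rep b n (m(x+1)) by `Rep.add`, and `Rep.split_many`.
-/

namespace Pool.Agent.MPd7e141

open Finset in
private lemma fam_block {b c : ℕ} (hb : 2 ≤ b) {j : ℕ} (hj : j < b ^ c) (m : ℕ) :
    digitSum b (j * ∑ t ∈ Finset.range m, (b ^ c) ^ t) = m * digitSum b j := by
  induction m with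
  | zero => simp [digitSum_zero]
  | succ m ih =>
    rw [Finset.sum_range_succ', pow_zero]
    have e : j * (∑ t ∈ Finset.range m, (b ^ c) ^ (t + 1) + 1)
        = j + b ^ c * (j * ∑ t ∈ Finset.range m, (b ^ c) ^ t) := by
      have : ∑ t ∈ Finset.range m, (b ^ c) ^ (t + 1) = b ^ c * ∑ t ∈ Finset.range m, (b ^ c) ^ t := by
        rw [Finset.mul_sum]
        exact Finset.sum_congr rfl fun t _ => pow_succ' _ _
      rw [this]
      ring
    rw [e, digitSum_add_pow_mul hb c j _ hj, ih]
    ring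

private lemma fam_reduce {b k : ℕ} (hb : 2 ≤ b) (hk : 1 ≤ k) : ∀ N : ℕ, 0 < N →
    ∃ N', 0 < N' ∧ N' < b ^ k ∧ N' ≡ N [MOD (b ^ k - 1)] ∧ digitSum b N' ≤ digitSum b N := by
  intro N
  induction N using Nat.strong_induction_on with
  | _ N ih =>
    intro hN
    have hbk : 2 ≤ b ^ k := le_trans hb (Nat.le_self_pow (by omega) b)
    have hr : N % b ^ k < b ^ k := Nat.mod_lt _ (by omega)
    have e0 := Nat.mod_add_div N (b ^ k)
    rcases Nat.eq_zero_or_pos (N / b ^ k) with hq | hq
    · rw [hq, mul_zero, add_zero] at e0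
      refine ⟨N, hN, by rw [← e0]; exact hr, Nat.ModEq.refl _, le_refl _⟩
    · generalize N % b ^ k = r at hr e0
      generalize N / b ^ k = q at hq e0
      have hlt : r + q < N := by
        have : 2 * q ≤ b ^ k * q := Nat.mul_le_mul_right q hbk
        omega
      obtain ⟨N', h1, h2, h3, h4⟩ := ih (r + q) hlt (by omega)
      refine ⟨N', h1, h2, ?_, ?_⟩
      · refine h3.trans ?_
        have e1 : b ^ k ≡ 1 [MOD (b ^ k - 1)] := by
          exact ((Nat.modEq_iff_dvd' (by omega)).mpr dvd_rfl).symm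
        have e2 : r + b ^ k * q ≡ r + 1 * q [MOD (b ^ k - 1)] := (e1.mul_right q).add_left r
        rw [one_mul, e0] at e2
        exact e2.symm
      · have e3 := digitSum_add_pow_mul hb k r q hr
        rw [e0] at e3
        have := digitSum_add_le hb r q
        omega


theorem family {b c m : ℕ} (hb : 2 ≤ b) (hc : 1 ≤ c) (hm : 2 ≤ m) (hcop : Nat.Coprime m (b - 1)) :
    Admissible b ((b ^ (c * m) - 1) / (b ^ c - 1)) ∧
      F b ((b ^ (c * m) - 1) / (b ^ c - 1)) = (m - 1) * (b - 1) := by
  have hB : 2 ≤ b ^ c := le_trans hb (Nat.le_self_pow (by omega) b)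
  have hn : (b ^ (c * m) - 1) / (b ^ c - 1) = ∑ t ∈ Finset.range m, (b ^ c) ^ t := by
    rw [Nat.geomSum_eq hB, ← pow_mul]
  rw [hn]
  set n := ∑ t ∈ Finset.range m, (b ^ c) ^ t with hndef
  set S := ∑ t ∈ Finset.range (m - 1), (b ^ c) ^ t with hSdef
  have hnS : n = b ^ c * S + 1 := by
    rw [hndef, hSdef, Finset.mul_sum]
    obtain ⟨m', rfl⟩ : ∃ m', m = m' + 1 := ⟨m - 1, by omega⟩
    rw [Finset.sum_range_succ', pow_zero]
    simp only [Nat.add_sub_cancel]
    congr 1
    exact Finset.sum_congr rfl fun t _ => pow_succ' _ _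
  have hSpos : 0 < S := by
    apply Finset.sum_pos
    · intro t _; positivity
    · exact ⟨0, Finset.mem_range.mpr (by omega)⟩
  have hn1 : 1 < n := by
    rw [hnS]
    have : 0 < b ^ c * S := by positivity
    omega
  have hbn : Nat.Coprime b n := by
    rw [hnS]
    have h1 : b ∣ b ^ c * S := Dvd.dvd.mul_right (dvd_pow_self b (by omega)) S
    obtain ⟨w, hw⟩ := h1
    rw [hw]
    simp
  have hBone : b ^ c ≡ 1 [MOD (b - 1)] := by
    have h1 : b ≡ 1 [MOD (b - 1)] := ((Nat.modEq_iff_dvd' (by omega)).mpr dvd_rfl).symm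
    simpa using h1.pow c
  have hnm : n ≡ m [MOD (b - 1)] := by
    have : n ≡ ∑ t ∈ Finset.range m, 1 [MOD (b - 1)] := by
      rw [hndef]
      clear_value n S
      clear hndef hSdef hnS hSpos hn1 hbn hn hcop hm
      induction m with
      | zero => exact Nat.ModEq.refl _
      | succ m ih =>
        rw [Finset.sum_range_succ, Finset.sum_range_succ]
        have h2 := hBone.pow m
        rw [one_pow] at h2
        exact ih.add h2
    simpa using this
  have hcn : Nat.Coprime (b - 1) n := by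
    rw [Nat.coprime_iff_gcd_eq_one, Nat.gcd_comm, Nat.ModEq.gcd_eq hnm]
    exact hcop
  have hmul : (b ^ c - 1) * n + 1 = b ^ (c * m) := by
    have h1 : (b ^ c - 1) ∣ (b ^ c) ^ m - 1 := by
      simpa using Nat.sub_dvd_pow_sub_pow (b ^ c) 1 m
    have h2 : n = ((b ^ c) ^ m - 1) / (b ^ c - 1) := by
      rw [← hn, ← pow_mul]
    rw [h2, Nat.mul_div_cancel' h1, ← pow_mul]
    have : 1 ≤ b ^ (c * m) := Nat.one_le_pow _ _ (by omega)
    omega
  have hadm : Admissible b n := by
    refine ⟨hb, by omega, hcn, ?_⟩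
    obtain ⟨p, hp, hpn⟩ := Nat.exists_prime_and_dvd (n := n) (by omega)
    refine ⟨p, hp, hpn, fun hpb => ?_⟩
    have := Nat.dvd_gcd hpb hpn
    rw [hbn] at this
    exact hp.one_lt.ne' (Nat.dvd_one.mp this)
  refine ⟨hadm, ?_⟩
  have hcore : core b n = n := core_eq_self hbn
  apply F_eq hadm
  · rw [hcore]
    intro hrep
    have hg : 0 < (m - 1) * (b - 1) := Nat.mul_pos (by omega) (by omega)
    have hout : (m - 1) * (b - 1) ∈ Out b n := by
      rw [mem_Out hb (by omega), hcore]
      exact ⟨hg, hrep⟩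
    obtain ⟨-, N, hN, hnN, hNs⟩ := hout
    obtain ⟨N', h1, h2, h3, h4⟩ := fam_reduce (k := c * m) hb (Nat.mul_pos (by omega) (by omega)) N hN
    have hdvd : n ∣ b ^ (c * m) - 1 := by
      rw [← hmul]
      simp
    have hbdvd : (b - 1) ∣ b ^ (c * m) - 1 := by
      simpa using Nat.sub_dvd_pow_sub_pow b 1 (c * m)
    have hnN' : n ∣ N' := (Nat.ModEq.dvd_iff (h3.of_dvd hdvd) dvd_rfl).mpr hnN
    obtain ⟨j, hj⟩ := hnN'
    have hjpos : 0 < j := by
      rcases Nat.eq_zero_or_pos j with h | h
      · rw [h, mul_zero] at hj; omega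
      · exact h
    have hjB : j < b ^ c := by
      by_contra hge
      have h5 : n * b ^ c ≤ n * j := Nat.mul_le_mul_left n (by omega)
      have h6 : (b ^ c - 1) * n + n = n * b ^ c := by
        have h7 : b ^ c = (b ^ c - 1) + 1 := by omega
        conv_rhs => rw [h7]
        ring
      omega
    have hblock := fam_block hb hjB m
    rw [← hndef] at hblock
    have hN'sum : digitSum b N' = m * digitSum b j := by
      rw [hj, mul_comm, hblock]
    have hmod : (b - 1) ∣ m * digitSum b j := by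
      have e1 : N' ≡ m * digitSum b j [MOD (b - 1)] := by
        rw [← hN'sum]; exact digitSum_modEq hb N'
      have e2 : N' ≡ N [MOD (b - 1)] := h3.of_dvd hbdvd
      have e3 : N ≡ (m - 1) * (b - 1) [MOD (b - 1)] := by
        rw [← hNs]; exact digitSum_modEq hb N
      have e4 : m * digitSum b j ≡ (m - 1) * (b - 1) [MOD (b - 1)] := e1.symm.trans (e2.trans e3)
      exact (Nat.ModEq.dvd_iff e4 dvd_rfl).mpr (Dvd.intro_left _ rfl)
    have hds : (b - 1) ∣ digitSum b j := (Nat.Coprime.dvd_of_dvd_mul_left hcop.symm hmod)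
    have hspos := digitSum_pos hb hjpos
    have hle : b - 1 ≤ digitSum b j := Nat.le_of_dvd hspos hds
    have h8 : m * (b - 1) ≤ m * digitSum b j := Nat.mul_le_mul_left m hle
    have h9 : m * (b - 1) = (m - 1) * (b - 1) + (b - 1) := by
      have h10 : m = (m - 1) + 1 := by omega
      conv_lhs => rw [h10]
      ring
    omega
  · intro u hu
    rw [hcore]
    have hrepm : Rep b n m := by
      refine ⟨(Multiset.range m).map (fun t => c * t), by simp, ?_⟩
      rw [Multiset.map_map]
      have : (Multiset.map ((fun e => b ^ e) ∘ fun t => c * t) (Multiset.range m)).sum = n := by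
        rw [hndef]
        show _ = (Multiset.map (fun t => (b ^ c) ^ t) (Finset.range m).val).sum
        rw [Finset.range_val]
        congr 1
        apply Multiset.map_congr rfl
        intro t _
        simp [pow_mul]
      rw [this]
    have hrepmul : ∀ x : ℕ, Rep b n (m * x) := by
      intro x
      induction x with
      | zero => exact Rep.zero b n
      | succ x ih =>
        rw [mul_add, mul_one]
        exact ih.add hrepm
    -- u = m * (x + 1) + (b - 1) * y
    have key : ∃ x y : ℕ, u = m * (x + 1) + (b - 1) * y := by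
      rcases Nat.eq_or_lt_of_le (show 1 ≤ b - 1 by omega) with h1 | h1
      · refine ⟨0, u - m, ?_⟩
        rw [← h1] at hu ⊢
        omega
      · have hfr := (frobeniusNumber_iff.mp (frobeniusNumber_pair (m := m) (n := b - 1) hcop (by omega) h1)).2
        have e1 : (m - 1) * (b - 1) = m * (b - 1) - (b - 1) := by
          rw [Nat.sub_mul, one_mul]
        have e2 : m ≤ (m - 1) * (b - 1) := by
          have : (m - 1) * 2 ≤ (m - 1) * (b - 1) := Nat.mul_le_mul_left _ h1
          omega
        have h3 := hfr (u - m) (by omega)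
        rw [AddSubmonoid.mem_closure_pair] at h3
        obtain ⟨x, y, hxy⟩ := h3
        simp only [smul_eq_mul] at hxy
        refine ⟨x, y, ?_⟩
        have e3 : m * (x + 1) = x * m + m := by ring
        rw [e3, mul_comm (b - 1) y]
        omega
    obtain ⟨x, y, rfl⟩ := key
    exact (hrepmul (x + 1)).split_many hb (by omega) hbn (by positivity) y

end Pool.Agent.MPd7e141
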