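import Pool.Agent.Lib.MP_d7e141_nt.CycUp
import Pool.Agent.Lib.MP_d7e141_nt.CycLow
import Pool.Agent.Lib.MP_d7e141_nt.Family

/-!
# MP_d7e141_nt : values at cyclotomic numbers
-/

namespace Pool.Agent.MPd7e141

open Polynomial

lemma one_mem_primeFactors_false {d : ℕ} : (1 : ℕ) ∉ (d.primeFactors : Set ℕ) := by
  intro h
  exact Nat.not_prime_one (Nat.prime_of_mem_primeFactors (Finset.mem_coe.1 h))

lemma frob_ne_zero {d g : ℕ} (hg : FrobeniusNumber g (d.primeFactors : Set ℕ)) : 0 < g := by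
  rcases Nat.eq_zero_or_pos g with rfl | h
  · exact absurd (AddSubmonoid.zero_mem _) hg.1
  · exact h

lemma frob_d_pos {d g : ℕ} (hg : FrobeniusNumber g (d.primeFactors : Set ℕ)) : 0 < d := by
  rcases Nat.eq_zero_or_pos d with rfl | h
  · exfalso
    have h1 : (g + 1 : ℕ) ∈ AddSubmonoid.closure (((0 : ℕ).primeFactors : Finset ℕ) : Set ℕ) := by
      by_contra hc
      have := hg.2 hc
      omega
    simp at h1
  · exact h

theorem cyc_general {b n d g : ℕ} (h : Admissible b n)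
    (hg : FrobeniusNumber g (d.primeFactors : Set ℕ))
    (hd : (core b n : ℤ) ∣ (cyclotomic d ℤ).eval (b : ℤ)) :
    F b n ≤ g ∧ (g ^ Nat.totient d < core b n → F b n = g) := by
  have hd0 := frob_d_pos hg
  have hup : ∀ u, g < u → Rep b (core b n) u := by
    intro u hu
    apply rep_of_mem_closure hd0 hd
    by_contra hc
    have := hg.2 hc
    omega
  refine ⟨F_le h hup, fun hlt => F_eq h ?_ hup⟩
  exact not_rep_of_cyclotomic hd0 hd hg.1 hlt

lemma exists_frob {d : ℕ} (hd : 2 ≤ d.primeFactors.card) :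
    ∃ g, FrobeniusNumber g (d.primeFactors : Set ℕ) := by
  rw [exists_frobeniusNumber_iff]
  refine ⟨?_, one_mem_primeFactors_false⟩
  obtain ⟨p, hp, q, hq, hpq⟩ := Finset.one_lt_card.1 (by omega : 1 < d.primeFactors.card)
  have h1 : Nat.setGcd (d.primeFactors : Set ℕ) ∣ p := Nat.setGcd_dvd_of_mem (Finset.mem_coe.2 hp)
  have h2 : Nat.setGcd (d.primeFactors : Set ℕ) ∣ q := Nat.setGcd_dvd_of_mem (Finset.mem_coe.2 hq)
  have h3 := Nat.dvd_gcd h1 h2
  rw [(Nat.coprime_primes (Nat.prime_of_mem_primeFactors hp)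
    (Nat.prime_of_mem_primeFactors hq)).2 hpq] at h3
  exact Nat.dvd_one.1 h3

lemma frob_not_prime_pow {d g : ℕ} (hg : FrobeniusNumber g (d.primeFactors : Set ℕ))
    {p : ℕ} (hp : p.Prime) (k : ℕ) : p ^ k ≠ d := by
  rintro rfl
  -- all members of the closure are multiples of `p`
  have h1 : ∀ u ∈ AddSubmonoid.closure (((p ^ k).primeFactors : Finset ℕ) : Set ℕ), p ∣ u := by
    intro u hu
    induction hu using AddSubmonoid.closure_induction with
    | mem x hx =>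
      have hx' := Finset.mem_coe.1 hx
      have h2 := (Nat.prime_dvd_prime_iff_eq (Nat.prime_of_mem_primeFactors hx') hp).1
        ((Nat.prime_of_mem_primeFactors hx').dvd_of_dvd_pow (Nat.dvd_of_mem_primeFactors hx'))
      rw [h2]
    | zero => exact dvd_zero _
    | add x y _ _ hx hy => exact dvd_add hx hy
  have h2 : p ∣ g + 1 := by
    apply h1
    by_contra hc
    have := hg.2 hc
    omega
  have h3 : p ∣ g + 2 := by
    apply h1
    by_contra hc
    have := hg.2 hc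
    omega
  have h4 : p ∣ 1 := by
    have := (Nat.dvd_add_right h2).1 (show p ∣ (g + 1) + 1 from h3)
    exact this
  exact hp.one_lt.ne' (Nat.dvd_one.1 h4)

/-- `Φ_d(b)` is coprime to `b` -/
lemma coprime_cyclotomic {b d n : ℕ} (hd : 2 ≤ d) (hn : (n : ℤ) = (cyclotomic d ℤ).eval (b : ℤ)) :
    Nat.Coprime b n := by
  rw [← Nat.isCoprime_iff_coprime, hn]
  have h1 : (b : ℤ) ∣ (cyclotomic d ℤ).eval (b : ℤ) - (cyclotomic d ℤ).eval 0 := by
    have := sub_dvd_eval_sub (b : ℤ) 0 (cyclotomic d ℤ)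
    simpa using this
  have h2 : (cyclotomic d ℤ).eval 0 = 1 := by
    rw [← coeff_zero_eq_eval_zero, cyclotomic_coeff_zero ℤ (by omega)]
  rw [h2] at h1
  obtain ⟨c, hc⟩ := h1
  exact ⟨-c, 1, by linear_combination hc⟩

lemma coprime_pred_cyclotomic {b d n : ℕ} (hb : 1 ≤ b) (hn : (n : ℤ) = (cyclotomic d ℤ).eval (b : ℤ)) :
    ((b - 1 : ℕ) : ℤ) ∣ (n : ℤ) - (cyclotomic d ℤ).eval 1 := by
  rw [hn]
  have := sub_dvd_eval_sub (b : ℤ) 1 (cyclotomic d ℤ)
  rw [Nat.cast_sub hb]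
  simpa using this

lemma sub_one_pow_lt {b d n : ℕ} (hb : 2 ≤ b) (hd : 2 ≤ d)
    (hn : (n : ℤ) = (cyclotomic d ℤ).eval (b : ℤ)) : (b - 1) ^ Nat.totient d < n := by
  have h1 := sub_one_pow_totient_lt_cyclotomic_eval (n := d) (q := (b : ℝ)) hd
    (by exact_mod_cast (by omega : 1 < b))
  have h2 : (cyclotomic d ℝ).eval (b : ℝ) = (n : ℝ) := by
    have h3 : (((cyclotomic d ℤ).eval (b : ℤ) : ℤ) : ℝ) = (cyclotomic d ℝ).eval (b : ℝ) := by
      have := cyclotomic.eval_apply (b : ℤ) d (algebraMap ℤ ℝ)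
      simpa using this.symm
    rw [← h3, ← hn]
    simp
  rw [h2] at h1
  have h4 : (((b - 1) ^ Nat.totient d : ℕ) : ℝ) < (n : ℝ) := by
    push_cast [Nat.cast_sub (by omega : 1 ≤ b)]
    exact h1
  exact_mod_cast h4

theorem cyc_value {b n d g : ℕ} (hb : 2 ≤ b)
    (hg : FrobeniusNumber g (d.primeFactors : Set ℕ)) (hgb : g < b)
    (hn : (n : ℤ) = (cyclotomic d ℤ).eval (b : ℤ)) : Admissible b n ∧ F b n = g := by
  have hd0 := frob_d_pos hg
  have hnp := fun {p : ℕ} (hp : p.Prime) (k : ℕ) => frob_not_prime_pow hg hp k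
  have hd2 : 2 ≤ d := by
    have := hnp Nat.prime_two 0
    simp at this
    omega
  have hc := coprime_cyclotomic hd2 hn
  have hlt := sub_one_pow_lt hb hd2 hn
  have h1 : 1 < n := by
    have : 1 ≤ (b - 1) ^ Nat.totient d := Nat.one_le_pow _ _ (by omega)
    omega
  have hcp : Nat.Coprime (b - 1) n := by
    have h2 := coprime_pred_cyclotomic (by omega : 1 ≤ b) hn
    rw [eval_one_cyclotomic_not_prime_pow (fun hp k => hnp hp k)] at h2
    rw [← Nat.isCoprime_iff_coprime]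
    obtain ⟨c, hc'⟩ := h2
    exact ⟨-c, 1, by linear_combination hc'⟩
  have hadm : Admissible b n := by
    refine ⟨hb, by omega, hcp, ?_⟩
    obtain ⟨p, hp, hpn⟩ := Nat.exists_prime_and_dvd (by omega : n ≠ 1)
    refine ⟨p, hp, hpn, fun hpb => ?_⟩
    have := Nat.dvd_gcd hpb hpn
    rw [hc] at this
    exact hp.one_lt.ne' (Nat.dvd_one.1 this)
  refine ⟨hadm, ?_⟩
  have hcore : core b n = n := core_eq_self hc
  apply (cyc_general hadm hg (by rw [hcore, hn])).2
  rw [hcore]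
  calc g ^ Nat.totient d ≤ (b - 1) ^ Nat.totient d := Nat.pow_le_pow_left (by omega) _
    _ < n := hlt

theorem prime_pow_value {b q k n : ℕ} (hb : 2 ≤ b) (hq : q.Prime) (hqb : ¬ q ∣ b - 1)
    (hn : (n : ℤ) = (cyclotomic (q ^ (k + 1)) ℤ).eval (b : ℤ)) :
    Admissible b n ∧ F b n = (q - 1) * (b - 1) := by
  have hc : 1 ≤ q ^ k := Nat.one_le_pow _ _ hq.pos
  have h := family (b := b) (c := q ^ k) (m := q) hb hc hq.two_le
    ((Nat.Prime.coprime_iff_not_dvd hq).2 hqb)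
  have e : (b ^ (q ^ k * q) - 1) / (b ^ (q ^ k) - 1) = n := by
    have h1 : (n : ℤ) = ∑ i ∈ Finset.range q, ((b : ℤ) ^ q ^ k) ^ i := by
      rw [hn, cyclotomic_prime_pow_eq_geom_sum hq]
      simp [eval_finsetSum]
    have h2 : n = ∑ i ∈ Finset.range q, (b ^ q ^ k) ^ i := by exact_mod_cast h1
    have h3 : 2 ≤ b ^ q ^ k := by
      calc 2 ≤ b := hb
        _ = b ^ 1 := (pow_one b).symm
        _ ≤ b ^ q ^ k := Nat.pow_le_pow_right (by omega) hc
    rw [h2, Nat.geomSum_eq h3, ← pow_mul]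
  rw [e] at h
  exact h

theorem not_admissible_prime_pow {b q k n : ℕ} (hb : 2 ≤ b) (hq : q.Prime) (hqb : q ∣ b - 1)
    (hn : (n : ℤ) = (cyclotomic (q ^ (k + 1)) ℤ).eval (b : ℤ)) : ¬ Admissible b n := by
  intro h
  have : Fact q.Prime := ⟨hq⟩
  have h2 := coprime_pred_cyclotomic (by omega : 1 ≤ b) hn
  rw [eval_one_cyclotomic_prime_pow] at h2
  have h3 : (q : ℤ) ∣ ((b - 1 : ℕ) : ℤ) := by exact_mod_cast hqb
  have h4 : (q : ℤ) ∣ (n : ℤ) := by
    have := h3.trans h2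
    have h5 := dvd_add this (dvd_refl (q : ℤ))
    simpa using h5
  have h6 : q ∣ n := by exact_mod_cast h4
  have h7 := Nat.dvd_gcd hqb h6
  rw [h.cop] at h7
  exact hq.one_lt.ne' (Nat.dvd_one.1 h7)

end Pool.Agent.MPd7e141
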