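import Pool.Agent.Lib.MP_d7e141_nt.Core

/-!
FD-CycUp (MP_d7e141_nt). PROOF. `Polynomial.X_pow_sub_one_mul_cyclotomic_dvd_X_pow_sub_one_of_dvd`: (X^{d/q} - 1) Φ_d ∣ X^d - 1 =
(X^{d/q} - 1) ∑_{i<q} (X^{d/q})^i over ℤ (`mul_geom_sum`), cancel X^{d/q} - 1 ≠ 0, so Φ_d ∣ ∑_{i<q} X^{(d/q) i}; evaluate at b; the multiset is
{(d/q) i : i < q} (`(Multiset.range q).map`).  Second theorem: closure induction with `Rep.add`, `Rep.zero`
(`AddSubmonoid.closure_induction`).
-/

namespace Pool.Agent.MPd7e141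

theorem rep_prime_of_cyclotomic {b d m q : ℕ} (hd : 0 < d) (hq : q.Prime) (hqd : q ∣ d)
    (h : (m : ℤ) ∣ (Polynomial.cyclotomic d ℤ).eval (b : ℤ)) : Rep b m q := by
  obtain ⟨k, rfl⟩ := hqd
  have hk : 0 < k := Nat.pos_of_mul_pos_left hd
  have hmem : k ∈ (q * k).properDivisors := by
    rw [Nat.mem_properDivisors]
    refine ⟨Dvd.intro_left q rfl, ?_⟩
    have := hq.two_le
    nlinarith
  have h1 := Polynomial.X_pow_sub_one_mul_cyclotomic_dvd_X_pow_sub_one_of_dvd ℤ hmem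
  have h2 : ((Polynomial.X : Polynomial ℤ) ^ (q * k) - 1) =
      (Polynomial.X ^ k - 1) * ∑ i ∈ Finset.range q, (Polynomial.X ^ k) ^ i := by
    rw [mul_geom_sum, ← pow_mul, mul_comm k q]
  rw [h2] at h1
  have h3 : (Polynomial.X ^ k - 1 : Polynomial ℤ) ≠ 0 := by
    have h3' := Polynomial.X_pow_sub_C_ne_zero (R := ℤ) hk 1
    rwa [Polynomial.C_1] at h3'
  have h4 : Polynomial.cyclotomic (q * k) ℤ ∣
      ∑ i ∈ Finset.range q, ((Polynomial.X : Polynomial ℤ) ^ k) ^ i :=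
    (mul_dvd_mul_iff_left h3).mp h1
  have h5 := h.trans (Polynomial.eval_dvd h4 (x := (b : ℤ)))
  refine ⟨(Multiset.range q).map (fun i => k * i), by simp, ?_⟩
  rw [Multiset.map_map]
  have h6 : ((((Multiset.range q).map ((fun e => b ^ e) ∘ fun i => k * i)).sum : ℕ) : ℤ) =
      Polynomial.eval (b : ℤ) (∑ i ∈ Finset.range q, ((Polynomial.X : Polynomial ℤ) ^ k) ^ i) := by
    rw [Polynomial.eval_finsetSum]
    have : ((Multiset.range q).map ((fun e => b ^ e) ∘ fun i => k * i)).sum =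
        ∑ i ∈ Finset.range q, b ^ (k * i) := rfl
    rw [this]
    push_cast
    apply Finset.sum_congr rfl
    intro i _
    simp [pow_mul]
  rw [← h6] at h5
  exact_mod_cast h5

theorem rep_of_mem_closure {b d m u : ℕ} (hd : 0 < d)
    (h : (m : ℤ) ∣ (Polynomial.cyclotomic d ℤ).eval (b : ℤ))
    (hu : u ∈ AddSubmonoid.closure (d.primeFactors : Set ℕ)) : Rep b m u := by
  induction hu using AddSubmonoid.closure_induction with
  | mem x hx =>
    have hx' := Nat.mem_primeFactors.mp (Finset.mem_coe.mp hx)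
    exact rep_prime_of_cyclotomic hd hx'.1 hx'.2.1 h
  | zero => exact Rep.zero b m
  | add x y _ _ h1 h2 => exact Rep.add h1 h2

end Pool.Agent.MPd7e141
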