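import Mathlib

/-!
# MP_d7e141_nt : Frobenius number of digit sums of multiples — definitions
-/

namespace Pool.Agent.MPd7e141

/-- the base-`b` digit sum `s_b(N)` -/
def digitSum (b N : ℕ) : ℕ := (Nat.digits b N).sum

/-- `Out(s_b, n)`: the set of digit sums of positive multiples of `n` -/
def Out (b n : ℕ) : Set ℕ :=
  {u | 0 < u ∧ ∃ N : ℕ, 0 < N ∧ n ∣ N ∧ digitSum b N = u}

/-- admissible pairs -/
structure Admissible (b n : ℕ) : Prop where
  two_le : 2 ≤ b
  pos : 1 ≤ n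
  cop : Nat.Coprime (b - 1) n
  prime : ∃ p : ℕ, p.Prime ∧ p ∣ n ∧ ¬ p ∣ b

/-- the Frobenius number `F(b,n) = max (ℕ \ Out(s_b,n))` -/
noncomputable def F (b n : ℕ) : ℕ := sSup {u | 0 < u ∧ u ∉ Out b n}

/-- `core b n` is the largest divisor of `n` that is coprime to `b` (see `isGreatest_core`) -/
def core (b n : ℕ) : ℕ := n / Nat.gcd n (b ^ n)

end Pool.Agent.MPd7e141
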