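import Pool.Agent.Lib.MP_d7e141_nt.Core

namespace Pool.Agent.MPd7e141

/-- `E b L x = ∑_{j<L} e(x b^j)`, `e(y) = exp(2 π i y)` -/
noncomputable def E (b L : ℕ) (x : ℚ) : ℂ :=
  ∑ j ∈ Finset.range L, Complex.exp (2 * Real.pi * Complex.I * ((x : ℂ) * (b : ℂ) ^ j))

end Pool.Agent.MPd7e141
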