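import Pool.Agent.Lib.MP_d7e141_nt.ExpDefs

/-!
FD-Four1 (MP_d7e141_nt). Counting by additive characters.
PROOF of `sum_E_pow`: expand the power (`Finset.prod_univ_sum` / `Fintype.piFinset`, or `Finset.sum_pow'`, or
induction on u), `∏_i e((a/m) b^{f i}) = e((a/m) ∑_i b^{f i})`, swap the sums; for an integer K:
`∑_{a<m} e(a K/m) = m` if `m ∣ K`, else `0` (geometric sum of the m-th root of unity w = e(K/m), w ≠ 1, w^m = 1:
`mul_geom_sum`/`geom_sum_eq`; `Complex.exp_eq_one_iff`; or through `ZMod.stdAddChar`,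
`AddChar.sum_mulShift`, `ZMod.isPrimitive_stdAddChar`).
PROOF of `sum_E_sq`: `‖E‖² = E * conj E = ∑_{j,j'} e((a/m)(b^j - b^{j'}))`, same orthogonality; for given j the number of
j' < L with b^j' ≡ b^j mod m is L/d, d = orderOf (b : ZMod m) (b is a unit; `pow_eq_pow_iff_modEq`, d ∣ L;
`Nat.count_modEq_card` or a bijection).
PROOF of `rep_iff_exists_fin`: reduce exponents mod d = orderOf (b : ZMod m) (`pow_mod_orderOf`); a multiset of card u
is the image of a `Fin u →` function (`Multiset` → list `Quotient.out`/`toList`, `List.get`), d > 0 as b is a unit of the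
finite ring ZMod m.
-/

namespace Pool.Agent.MPd7e141

open Finset

theorem Four1_geo {m : ℕ} (hm : 0 < m) (K : ℤ) :
    ∑ a ∈ range m, Complex.exp (2 * Real.pi * Complex.I * ((((a : ℚ) / m : ℚ) : ℂ) * K)) =
      if (m : ℤ) ∣ K then (m : ℂ) else 0 := by
  have hm0 : (m : ℂ) ≠ 0 := by exact_mod_cast hm.ne'
  have hpi : (2 * Real.pi * Complex.I : ℂ) ≠ 0 := Complex.two_pi_I_ne_zero
  set w : ℂ := Complex.exp (2 * Real.pi * Complex.I * (K / m)) with hw
  have hterm : ∀ a : ℕ, Complex.exp (2 * Real.pi * Complex.I * ((((a : ℚ) / m : ℚ) : ℂ) * K)) =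
      w ^ a := by
    intro a
    rw [hw, ← Complex.exp_nat_mul]
    congr 1
    push_cast
    ring
  rw [Finset.sum_congr rfl fun a _ => hterm a]
  split_ifs with h
  · obtain ⟨c, hc⟩ := h
    have h1 : w = 1 := by
      rw [hw, Complex.exp_eq_one_iff]
      refine ⟨c, ?_⟩
      rw [hc]
      push_cast
      field_simp
    rw [h1]
    simp
  · have h1 : w ≠ 1 := by
      intro h1
      rw [hw, Complex.exp_eq_one_iff] at h1
      obtain ⟨n, hn⟩ := h1
      apply h
      refine ⟨n, ?_⟩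
      have h2 : (K : ℂ) / m = n := by
        have h3 : (2 * Real.pi * Complex.I : ℂ) * (K / m) = (2 * Real.pi * Complex.I) * n := by
          rw [hn]; ring
        exact mul_left_cancel₀ hpi h3
      rw [div_eq_iff hm0] at h2
      have h4 : (K : ℂ) = ((m * n : ℤ) : ℂ) := by
        rw [h2]; push_cast; ring
      exact_mod_cast h4
    have h2 : w ^ m = 1 := by
      rw [hw, ← Complex.exp_nat_mul, Complex.exp_eq_one_iff]
      refine ⟨K, ?_⟩
      field_simp
    have h3 := mul_geom_sum w m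
    rw [h2, sub_self] at h3
    rcases mul_eq_zero.mp h3 with h4 | h4
    · exact absurd (sub_eq_zero.mp h4) h1
    · exact h4

theorem sum_E_pow {b m L u : ℕ} (hm : 0 < m) :
    ∑ a ∈ range m, E b L ((a : ℚ) / m) ^ u =
      (m : ℂ) * (Finset.univ.filter (fun f : Fin u → Fin L => m ∣ ∑ i, b ^ (f i : ℕ))).card := by
  have h1 : ∀ a : ℕ, E b L ((a : ℚ) / m) ^ u = ∑ f : Fin u → Fin L,
      Complex.exp (2 * Real.pi * Complex.I * ((((a : ℚ) / m : ℚ) : ℂ) *
        ((∑ i, (b : ℤ) ^ (f i : ℕ) : ℤ) : ℂ))) := by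
    intro a
    unfold E
    rw [Finset.sum_range, Fintype.sum_pow]
    refine Finset.sum_congr rfl fun f _ => ?_
    rw [← Complex.exp_sum]
    congr 1
    push_cast
    rw [Finset.mul_sum, Finset.mul_sum]
  rw [Finset.sum_congr rfl fun a _ => h1 a, Finset.sum_comm,
    Finset.sum_congr rfl fun f _ => Four1_geo hm _]
  rw [← Finset.sum_filter, Finset.sum_const, nsmul_eq_mul, mul_comm]
  congr 3
  ext f
  simp only [Finset.mem_filter, Finset.mem_univ, true_and]
  rw [show (∑ i, (b : ℤ) ^ (f i : ℕ) : ℤ) = ((∑ i, b ^ (f i : ℕ) : ℕ) : ℤ) by push_cast; rfl]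
  exact Int.natCast_dvd_natCast

theorem Four1_order_pos {b m : ℕ} (hm : 0 < m) (hc : Nat.Coprime b m) :
    0 < orderOf (b : ZMod m) := by
  have : NeZero m := ⟨hm.ne'⟩
  have : (b : ZMod m) = (ZMod.unitOfCoprime b hc : (ZMod m)ˣ) := by simp
  rw [this, orderOf_units]
  exact orderOf_pos _

theorem Four1_pow_eq {b m : ℕ} (hm : 0 < m) (hc : Nat.Coprime b m) (i j : ℕ) :
    (b : ZMod m) ^ i = (b : ZMod m) ^ j ↔ i ≡ j [MOD orderOf (b : ZMod m)] := by
  have : (b : ZMod m) = (ZMod.unitOfCoprime b hc : (ZMod m)ˣ) := by simp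
  rw [this, orderOf_units, ← Units.val_pow_eq_pow_val, ← Units.val_pow_eq_pow_val, Units.val_inj]
  exact pow_eq_pow_iff_modEq

theorem Four1_count {b m L : ℕ} (hm : 0 < m) (hc : Nat.Coprime b m)
    (hL : orderOf (b : ZMod m) ∣ L) (j : ℕ) :
    ((range L).filter (fun j' => (m : ℤ) ∣ (b : ℤ) ^ j - (b : ℤ) ^ j')).card =
      L / orderOf (b : ZMod m) := by
  have h1 : ((range L).filter (fun j' => (m : ℤ) ∣ (b : ℤ) ^ j - (b : ℤ) ^ j')) =
      (range L).filter (fun j' => j' ≡ j [MOD orderOf (b : ZMod m)]) := by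
    ext j'
    simp only [Finset.mem_filter, and_congr_right_iff]
    intro _
    rw [← Four1_pow_eq hm hc, ← ZMod.intCast_zmod_eq_zero_iff_dvd]
    push_cast
    rw [sub_eq_zero, eq_comm]
  rw [h1, ← Nat.count_eq_card_filter_range, Nat.count_modEq_card _ (Four1_order_pos hm hc),
    Nat.mod_eq_zero_of_dvd hL, if_neg (Nat.not_lt_zero _), add_zero]

theorem sum_E_sq {b m L : ℕ} (hm : 0 < m) (hc : Nat.Coprime b m)
    (hL : orderOf (b : ZMod m) ∣ L) :
    ∑ a ∈ range m, ‖E b L ((a : ℚ) / m)‖ ^ 2 =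
      (m : ℝ) * L ^ 2 / (orderOf (b : ZMod m) : ℝ) := by
  have hd := Four1_order_pos hm hc
  have h1 : ∀ a : ℕ, ((‖E b L ((a : ℚ) / m)‖ ^ 2 : ℝ) : ℂ) =
      ∑ j ∈ range L, ∑ j' ∈ range L,
      Complex.exp (2 * Real.pi * Complex.I * ((((a : ℚ) / m : ℚ) : ℂ) *
        (((b : ℤ) ^ j - (b : ℤ) ^ j' : ℤ) : ℂ))) := by
    intro a
    have e1 : ((‖E b L ((a : ℚ) / m)‖ ^ 2 : ℝ) : ℂ) =
        E b L ((a : ℚ) / m) * (starRingEnd ℂ) (E b L ((a : ℚ) / m)) := by
      rw [Complex.mul_conj, Complex.normSq_eq_norm_sq]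
    rw [e1]
    unfold E
    rw [map_sum, Finset.sum_mul_sum]
    refine Finset.sum_congr rfl fun j _ => Finset.sum_congr rfl fun j' _ => ?_
    rw [← Complex.exp_conj, ← Complex.exp_add]
    congr 1
    simp only [map_mul, map_pow, Complex.conj_I, Complex.conj_ofReal, map_natCast, map_ofNat,
      map_ratCast]
    push_cast
    ring
  have h2 : ((∑ a ∈ range m, ‖E b L ((a : ℚ) / m)‖ ^ 2 : ℝ) : ℂ) =
      ((m : ℝ) * L * ((L / orderOf (b : ZMod m) : ℕ) : ℝ) : ℝ) := by
    rw [Complex.ofReal_sum, Finset.sum_congr rfl fun a _ => h1 a, Finset.sum_comm]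
    have h3 : ∀ j ∈ range L, ∑ a ∈ range m, ∑ j' ∈ range L,
        Complex.exp (2 * Real.pi * Complex.I * ((((a : ℚ) / m : ℚ) : ℂ) *
        (((b : ℤ) ^ j - (b : ℤ) ^ j' : ℤ) : ℂ))) =
        (m : ℂ) * ((L / orderOf (b : ZMod m) : ℕ) : ℂ) := by
      intro j _
      rw [Finset.sum_comm, Finset.sum_congr rfl fun j' _ => Four1_geo hm _, ← Finset.sum_filter,
        Finset.sum_const, Four1_count hm hc hL, nsmul_eq_mul, mul_comm]
    rw [Finset.sum_congr rfl h3, Finset.sum_const, card_range, nsmul_eq_mul]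
    push_cast
    ring
  have h4 := Complex.ofReal_injective h2
  rw [h4, Nat.cast_div hL (by exact_mod_cast hd.ne')]
  ring

theorem rep_iff_exists_fin {b m L u : ℕ} (hm : 0 < m) (hc : Nat.Coprime b m)
    (hL : orderOf (b : ZMod m) ≤ L) :
    Rep b m u ↔ ∃ f : Fin u → Fin L, m ∣ ∑ i, b ^ (f i : ℕ) := by
  have hd := Four1_order_pos hm hc
  constructor
  · rintro ⟨s, hs, hdvd⟩
    obtain ⟨l, rfl⟩ := Quotient.exists_rep s
    have hl : l.length = u := by simpa using hs
    subst hl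
    refine ⟨fun i => ⟨l.get i % orderOf (b : ZMod m), (Nat.mod_lt _ hd).trans_le hL⟩, ?_⟩
    have h1 : m ∣ (l.map (fun e => b ^ e)).sum := by simpa using hdvd
    rw [← ZMod.natCast_eq_zero_iff] at h1 ⊢
    have h2 : (l.map (fun e => b ^ e)).sum = ∑ i : Fin l.length, b ^ (l.get i) := by
      rw [← List.sum_ofFn, ]
      congr 1
      conv_lhs => rw [← List.ofFn_get l, List.map_ofFn]
      rfl
    rw [h2] at h1
    rw [← h1]
    push_cast
    refine Finset.sum_congr rfl fun i _ => ?_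
    exact pow_mod_orderOf _ _
  · rintro ⟨f, hf⟩
    refine ⟨(Finset.univ : Finset (Fin u)).val.map (fun i => (f i : ℕ)), by simp, ?_⟩
    rw [Multiset.map_map]
    exact hf

end Pool.Agent.MPd7e141
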