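import Pool.Agent.Lib.MP_d7e141_nt.Four1

/-!
FD-Four2 (MP_d7e141_nt). Bound for the primitive frequencies.
PROOF. t > 1, d = orderOf (b : ZMod t) ≥ 1, d ∣ L, L > 0. By `sum_E_sq`, ∑_{a<t} ‖E(a/t)‖² = t L²/d, and the term a = 0 is L².
So ∑_{0<a<t} ‖E(a/t)‖² = L² (t-d)/d (*).  In particular d ≤ t (d < t since also 0 is not a power of b; d ≤ t is enough).
For a coprime to t: E(a b^k / t) = E(a/t) for all k because b^L ≡ 1 mod t (shift of a cyclic sum: E(x b) - E(x) =
e(x b^L) - e(x) = 0 for x = a/t; note E depends only on x mod 1 for integer b: `E_add_int`).  The d residues a b^k mod t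
(0 ≤ k < d) are pairwise different and nonzero, so by (*) d ‖E(a/t)‖² ≤ L² (t-d)/d, i.e. ‖E(a/t)‖ ≤ L sqrt(t-d)/d.
Hence ∑_{a coprime} ‖E‖³ ≤ (L sqrt(t-d)/d) ∑_{0<a<t} ‖E‖² ≤ L³ (t-d)^{3/2}/d².
-/

namespace Pool.Agent.MPd7e141

open Finset

private theorem four2_exp_int (y : ℂ) (k : ℤ) :
    Complex.exp (2 * Real.pi * Complex.I * (y + k)) = Complex.exp (2 * Real.pi * Complex.I * y) := by
  rw [mul_add, Complex.exp_add]
  have h : Complex.exp (2 * Real.pi * Complex.I * (k : ℂ)) = 1 := by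
    rw [Complex.exp_eq_one_iff]
    exact ⟨k, by ring⟩
  rw [h, mul_one]

private theorem four2_add_int (b L : ℕ) (x : ℚ) (k : ℤ) : E b L (x + k) = E b L x := by
  unfold E
  apply Finset.sum_congr rfl
  intro j _
  have h : (((x + k : ℚ) : ℂ)) * (b : ℂ) ^ j = (x : ℂ) * (b : ℂ) ^ j + ((k * (b : ℤ) ^ j : ℤ) : ℂ) := by
    push_cast
    ring
  rw [h, four2_exp_int]

private theorem four2_mod (b L : ℕ) {t : ℕ} (ht : 0 < t) (a : ℕ) :
    E b L (((a % t : ℕ) : ℚ) / t) = E b L ((a : ℚ) / t) := by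
  have ht' : (t : ℚ) ≠ 0 := by positivity
  have h : (a : ℚ) / t = ((a % t : ℕ) : ℚ) / t + (((a / t : ℕ) : ℤ) : ℚ) := by
    have h1 : (a : ℚ) = ((a % t : ℕ) : ℚ) + t * ((a / t : ℕ) : ℚ) := by
      exact_mod_cast (Nat.mod_add_div a t).symm
    rw [Int.cast_natCast]
    rw [div_add' _ _ _ ht', div_left_inj' ht']
    linarith
  rw [h, four2_add_int]

private theorem four2_shift {b t L : ℕ} (ht : 0 < t) (hb : (b : ZMod t) ^ L = 1) (a : ℕ) :
    E b L (((a * b : ℕ) : ℚ) / t) = E b L ((a : ℚ) / t) := by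
  have ht' : (t : ℂ) ≠ 0 := by
    exact_mod_cast ht.ne'
  have hq : ∃ q : ℤ, (b : ℤ) ^ L = 1 + t * q := by
    have h1 : ((b ^ L : ℕ) : ZMod t) = ((1 : ℕ) : ZMod t) := by push_cast; exact hb
    have h2 := (ZMod.natCast_eq_natCast_iff _ _ _).1 h1
    have h3 := (Nat.modEq_iff_dvd.1 h2)
    obtain ⟨q, hq⟩ := h3
    refine ⟨-q, ?_⟩
    push_cast at hq
    linarith
  obtain ⟨q, hq⟩ := hq
  set g : ℕ → ℂ := fun j =>
    Complex.exp (2 * Real.pi * Complex.I * ((((a : ℚ) / t : ℚ) : ℂ) * (b : ℂ) ^ j)) with hg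
  have h1 : E b L (((a * b : ℕ) : ℚ) / t) = ∑ j ∈ Finset.range L, g (j + 1) := by
    unfold E
    apply Finset.sum_congr rfl
    intro j _
    rw [hg]
    congr 1
    push_cast
    ring
  have h2 : E b L ((a : ℚ) / t) = ∑ j ∈ Finset.range L, g j := rfl
  have h3 : g L = g 0 := by
    rw [hg]
    simp only [pow_zero, mul_one]
    have h4 : (((a : ℚ) / t : ℚ) : ℂ) * (b : ℂ) ^ L
        = (((a : ℚ) / t : ℚ) : ℂ) + ((a * q : ℤ) : ℂ) := by
      have h5 : (b : ℂ) ^ L = 1 + t * q := by exact_mod_cast congrArg (fun z : ℤ => (z : ℂ)) hq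
      rw [h5]
      push_cast
      field_simp
    rw [h4, four2_exp_int]
  have h6 := Finset.sum_range_succ g L
  have h7 := Finset.sum_range_succ' g L
  rw [h1, h2]
  rw [h6, h3] at h7
  exact (add_right_cancel h7).symm

private theorem four2_orbit {b t L : ℕ} (ht : 0 < t) (hb : (b : ZMod t) ^ L = 1) (a k : ℕ) :
    E b L (((a * b ^ k % t : ℕ) : ℚ) / t) = E b L ((a : ℚ) / t) := by
  rw [four2_mod b L ht]
  induction k with
  | zero => simp
  | succ k ih => rw [pow_succ, ← mul_assoc, four2_shift ht hb, ih]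

theorem sum_E_cube_le {b t L : ℕ} (ht : 1 < t) (hc : Nat.Coprime b t) (hL0 : 0 < L)
    (hL : orderOf (b : ZMod t) ∣ L) :
    ∑ a ∈ (range t).filter (fun a => Nat.Coprime a t), ‖E b L ((a : ℚ) / t)‖ ^ 3 ≤
      (L : ℝ) ^ 3 * (((t : ℝ) - orderOf (b : ZMod t)) ^ (3 / 2 : ℝ) /
        (orderOf (b : ZMod t) : ℝ) ^ 2) := by
  have ht0 : 0 < t := by omega
  have hd0 : 0 < orderOf (b : ZMod t) := Nat.pos_of_dvd_of_pos hL hL0
  set d : ℕ := orderOf (b : ZMod t) with hd
  have hbL : (b : ZMod t) ^ L = 1 := orderOf_dvd_iff_pow_eq_one.1 hL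
  have hdR : (0 : ℝ) < d := by exact_mod_cast hd0
  have hLR : (0 : ℝ) < L := by exact_mod_cast hL0
  set f : ℕ → ℝ := fun a => ‖E b L ((a : ℚ) / t)‖ ^ 2 with hf
  have hf0 : ∀ a, 0 ≤ f a := fun a => by positivity
  have htot : ∑ a ∈ range t, f a = (t : ℝ) * L ^ 2 / d := sum_E_sq ht0 hc hL
  have hE0 : f 0 = (L : ℝ) ^ 2 := by
    have h : E b L ((0 : ℕ) / t : ℚ) = (L : ℂ) := by
      unfold E
      simp
    rw [hf]
    simp only
    rw [h]
    simp
  have hstar : ∑ a ∈ (range t).erase 0, f a = (L : ℝ) ^ 2 * ((t : ℝ) - d) / d := by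
    have h := Finset.sum_erase_add (range t) f (Finset.mem_range.2 ht0)
    rw [htot, hE0] at h
    have h2 : (L : ℝ) ^ 2 * ((t : ℝ) - d) / d = (t : ℝ) * L ^ 2 / d - L ^ 2 := by
      field_simp
    rw [h2]
    linarith
  have htd : 0 ≤ (t : ℝ) - d := by
    have h : 0 ≤ (L : ℝ) ^ 2 * ((t : ℝ) - d) / d := by
      rw [← hstar]; exact Finset.sum_nonneg fun a _ => hf0 a
    by_contra hcon
    rw [not_le] at hcon
    have : (L : ℝ) ^ 2 * ((t : ℝ) - d) / d < 0 :=
      div_neg_of_neg_of_pos (mul_neg_of_pos_of_neg (by positivity) hcon) hdR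
    linarith
  -- each primitive frequency
  have hmax : ∀ a, Nat.Coprime a t → f a ≤ (L : ℝ) ^ 2 * ((t : ℝ) - d) / d ^ 2 := by
    intro a ha
    have hinj : Set.InjOn (fun k => a * b ^ k % t) (range d : Finset ℕ) := by
      intro k hk k' hk' hkk
      have h1 : a * b ^ k ≡ a * b ^ k' [MOD t] := hkk
      have h2 : b ^ k ≡ b ^ k' [MOD t] :=
        Nat.ModEq.cancel_left_of_coprime (by rw [Nat.gcd_comm]; exact ha) h1
      have h3 : ((b ^ k : ℕ) : ZMod t) = ((b ^ k' : ℕ) : ZMod t) :=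
        (ZMod.natCast_eq_natCast_iff _ _ _).2 h2
      push_cast at h3
      exact pow_injOn_Iio_orderOf (by simpa using hk) (by simpa using hk') h3
    have hsub : (range d).image (fun k => a * b ^ k % t) ⊆ (range t).erase 0 := by
      intro r hr
      obtain ⟨k, _, rfl⟩ := Finset.mem_image.1 hr
      rw [Finset.mem_erase, Finset.mem_range]
      refine ⟨?_, Nat.mod_lt _ ht0⟩
      intro h0
      have hdv : t ∣ a * b ^ k := Nat.dvd_of_mod_eq_zero h0
      have hcop : Nat.Coprime (a * b ^ k) t := Nat.Coprime.mul_left ha (Nat.Coprime.pow_left k hc)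
      have := Nat.Coprime.eq_one_of_dvd hcop.symm hdv
      omega
    have h1 : (d : ℝ) * f a = ∑ k ∈ range d, f (a * b ^ k % t) := by
      have h2 : ∀ k ∈ range d, f (a * b ^ k % t) = f a := by
        intro k _
        rw [hf]
        simp only
        rw [four2_orbit ht0 hbL]
      rw [Finset.sum_congr rfl h2]
      simp
    have h3 : ∑ k ∈ range d, f (a * b ^ k % t)
        = ∑ r ∈ (range d).image (fun k => a * b ^ k % t), f r :=
      (Finset.sum_image hinj).symm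
    have h4 : ∑ r ∈ (range d).image (fun k => a * b ^ k % t), f r ≤ ∑ r ∈ (range t).erase 0, f r :=
      Finset.sum_le_sum_of_subset_of_nonneg hsub fun r _ _ => hf0 r
    rw [← h3, ← h1, hstar] at h4
    rw [le_div_iff₀ (by positivity)]
    rw [le_div_iff₀ hdR] at h4
    nlinarith
  have hmax2 : ∀ a, Nat.Coprime a t → ‖E b L ((a : ℚ) / t)‖ ≤ L * Real.sqrt ((t : ℝ) - d) / d := by
    intro a ha
    have h := hmax a ha
    have h1 : (L : ℝ) ^ 2 * ((t : ℝ) - d) / d ^ 2 = (L * Real.sqrt ((t : ℝ) - d) / d) ^ 2 := by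
      rw [div_pow, mul_pow, Real.sq_sqrt htd]
    rw [h1] at h
    exact le_of_sq_le_sq h (by positivity)
  have hpow : ((t : ℝ) - d) ^ (3 / 2 : ℝ) = Real.sqrt ((t : ℝ) - d) * ((t : ℝ) - d) := by
    rw [show (3 / 2 : ℝ) = 1 / 2 + 1 by norm_num, Real.rpow_add_one' htd (by norm_num),
      ← Real.sqrt_eq_rpow]
  rw [hpow]
  calc ∑ a ∈ (range t).filter (fun a => Nat.Coprime a t), ‖E b L ((a : ℚ) / t)‖ ^ 3
      ≤ ∑ a ∈ (range t).filter (fun a => Nat.Coprime a t),
          (L * Real.sqrt ((t : ℝ) - d) / d) * f a := by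
        apply Finset.sum_le_sum
        intro a ha
        have h := hmax2 a (Finset.mem_filter.1 ha).2
        have h3 : ‖E b L ((a : ℚ) / t)‖ ^ 3 = ‖E b L ((a : ℚ) / t)‖ * f a := by
          rw [hf]; ring
        rw [h3]
        exact mul_le_mul_of_nonneg_right h (hf0 a)
    _ = (L * Real.sqrt ((t : ℝ) - d) / d)
          * ∑ a ∈ (range t).filter (fun a => Nat.Coprime a t), f a := by rw [Finset.mul_sum]
    _ ≤ (L * Real.sqrt ((t : ℝ) - d) / d) * ∑ a ∈ (range t).erase 0, f a := by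
        apply mul_le_mul_of_nonneg_left _ (by positivity)
        apply Finset.sum_le_sum_of_subset_of_nonneg _ fun r _ _ => hf0 r
        intro a ha
        rw [Finset.mem_filter] at ha
        rw [Finset.mem_erase]
        refine ⟨?_, ha.1⟩
        rintro rfl
        have h2 := ha.2
        rw [Nat.coprime_zero_left] at h2
        omega
    _ = (L : ℝ) ^ 3 * (Real.sqrt ((t : ℝ) - d) * ((t : ℝ) - d) / (d : ℝ) ^ 2) := by
        rw [hstar]
        field_simp

end Pool.Agent.MPd7e141
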