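import Pool.Agent.Lib.MP_d7e141_nt.Four2

/-!
FD-Four3 (MP_d7e141_nt). The generic theorem.
PROOF of `sum_range_div`: partition a in range m, a ≠ 0, by t = m / gcd(a,m) (> 1), a/m = a'/t, a' = a / gcd coprime to t
(`Finset.sum_fiberwise_of_maps_to`, `Finset.sum_bij` for each t; a' ↦ a' (m/t)).
PROOF of `rep_of_generic`: L = orderOf (b : ZMod m) (> 0, b unit); for t ∣ m, orderOf (b : ZMod t) ∣ L (`ZMod.castHom`,
`orderOf_map_dvd`). If not Rep b m u then by `rep_iff_exists_fin` the filter in `sum_E_pow` is empty, so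
∑_{a<m} E(a/m)^u = 0, hence L^u = ‖E(0)^u‖ ≤ ∑_{0<a<m} ‖E(a/m)‖^u ≤ L^{u-3} ∑_{0<a<m} ‖E(a/m)‖³ (‖E‖ ≤ L)
= L^{u-3} ∑_{t ∣ m, t ≠ 1} ∑_{a' coprime to t} ‖E(a'/t)‖³ ≤ L^u ∑_t (...) < L^u by `sum_E_cube_le` and h. Contradiction.
-/

namespace Pool.Agent.MPd7e141

open Finset

theorem sum_range_div {m : ℕ} (hm : 0 < m) (g : ℚ → ℝ) :
    ∑ a ∈ (range m).erase 0, g ((a : ℚ) / m) =
      ∑ t ∈ m.divisors.erase 1, ∑ a ∈ (range t).filter (fun a => Nat.Coprime a t), g ((a : ℚ) / t) := by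
  rw [Finset.sum_sigma']
  symm
  refine Finset.sum_bij' (fun x _ => x.2 * (m / x.1))
    (fun a _ => ⟨m / Nat.gcd a m, a / Nat.gcd a m⟩) ?_ ?_ ?_ ?_ ?_
  · rintro ⟨t, a⟩ hx
    simp only [Finset.mem_sigma, Finset.mem_erase, Nat.mem_divisors, Finset.mem_filter,
      Finset.mem_range] at hx ⊢
    obtain ⟨⟨ht1, htm, -⟩, hat, hc⟩ := hx
    obtain ⟨s, rfl⟩ := htm
    have ht0 : 0 < t := Nat.pos_of_mul_pos_right hm
    have hs0 : 0 < s := Nat.pos_of_mul_pos_left hm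
    rw [Nat.mul_div_cancel_left _ ht0]
    refine ⟨?_, Nat.mul_lt_mul_of_pos_right hat hs0⟩
    intro h0
    rcases Nat.mul_eq_zero.mp h0 with h | h
    · subst h
      rw [Nat.coprime_zero_left] at hc
      exact ht1 hc
    · omega
  · intro a ha
    simp only [Finset.mem_sigma, Finset.mem_erase, Nat.mem_divisors, Finset.mem_filter,
      Finset.mem_range] at ha ⊢
    obtain ⟨ha0, ham⟩ := ha
    have hg : 0 < Nat.gcd a m := Nat.gcd_pos_of_pos_right _ hm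
    have hgm : Nat.gcd a m ∣ m := Nat.gcd_dvd_right _ _
    have hga : Nat.gcd a m ∣ a := Nat.gcd_dvd_left _ _
    refine ⟨⟨?_, Nat.div_dvd_of_dvd hgm, by omega⟩, ?_, ?_⟩
    · intro h1
      have h2 := Nat.div_mul_cancel hgm
      rw [h1, one_mul] at h2
      have h3 : m ∣ a := h2 ▸ hga
      exact absurd (Nat.le_of_dvd (by omega) h3) (by omega)
    · exact Nat.div_lt_div_of_lt_of_dvd hgm ham
    · exact Nat.coprime_div_gcd_div_gcd hg
  · rintro ⟨t, a⟩ hx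
    simp only [Finset.mem_sigma, Finset.mem_erase, Nat.mem_divisors, Finset.mem_filter,
      Finset.mem_range] at hx
    obtain ⟨⟨ht1, htm, -⟩, hat, hc⟩ := hx
    obtain ⟨s, rfl⟩ := htm
    have ht0 : 0 < t := Nat.pos_of_mul_pos_right hm
    have hs0 : 0 < s := Nat.pos_of_mul_pos_left hm
    have h1 : Nat.gcd (a * (t * s / t)) (t * s) = s := by
      rw [Nat.mul_div_cancel_left _ ht0, Nat.gcd_mul_right, hc.gcd_eq_one, one_mul]
    simp only [h1]
    rw [Nat.mul_div_cancel_left _ ht0, Nat.mul_div_cancel _ hs0, Nat.mul_div_cancel _ hs0]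
  · intro a ha
    simp only [Finset.mem_erase, Finset.mem_range] at ha
    have hg : 0 < Nat.gcd a m := Nat.gcd_pos_of_pos_right _ hm
    have hgm : Nat.gcd a m ∣ m := Nat.gcd_dvd_right _ _
    have hga : Nat.gcd a m ∣ a := Nat.gcd_dvd_left _ _
    show a / Nat.gcd a m * (m / (m / Nat.gcd a m)) = a
    rw [Nat.div_div_self hgm (by omega), Nat.div_mul_cancel hga]
  · rintro ⟨t, a⟩ hx
    simp only [Finset.mem_sigma, Finset.mem_erase, Nat.mem_divisors, Finset.mem_filter,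
      Finset.mem_range] at hx
    obtain ⟨⟨ht1, htm, -⟩, hat, hc⟩ := hx
    obtain ⟨s, rfl⟩ := htm
    have ht0 : 0 < t := Nat.pos_of_mul_pos_right hm
    have hs0 : 0 < s := Nat.pos_of_mul_pos_left hm
    congr 1
    show (a : ℚ) / t = ((a * (t * s / t) : ℕ) : ℚ) / ((t * s : ℕ) : ℚ)
    rw [Nat.mul_div_cancel_left _ ht0]
    have h1 : (t : ℚ) ≠ 0 := by exact_mod_cast ht0.ne'
    have h2 : (s : ℚ) ≠ 0 := by exact_mod_cast hs0.ne'
    push_cast
    field_simp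

lemma Four3_E_zero (b L : ℕ) : E b L 0 = (L : ℂ) := by
  simp [E]

lemma Four3_norm_le (b L : ℕ) (x : ℚ) : ‖E b L x‖ ≤ (L : ℝ) := by
  unfold E
  refine (norm_sum_le _ _).trans ?_
  have h : ∀ j ∈ Finset.range L,
      ‖Complex.exp (2 * Real.pi * Complex.I * ((x : ℂ) * (b : ℂ) ^ j))‖ ≤ 1 := by
    intro j _
    have h1 : (2 * Real.pi * Complex.I * ((x : ℂ) * (b : ℂ) ^ j)) =
        ((2 * Real.pi * ((x : ℝ) * (b : ℝ) ^ j) : ℝ) : ℂ) * Complex.I := by
      push_cast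
      ring
    rw [h1, Complex.norm_exp_ofReal_mul_I]
  calc _ ≤ ∑ _j ∈ Finset.range L, (1 : ℝ) := Finset.sum_le_sum h
    _ = L := by simp

theorem rep_of_generic {b m : ℕ} (hm : 1 < m) (hc : Nat.Coprime b m)
    (h : ∑ t ∈ m.divisors.erase 1, ((t : ℝ) - orderOf (b : ZMod t)) ^ (3 / 2 : ℝ) /
        (orderOf (b : ZMod t) : ℝ) ^ 2 < 1) {u : ℕ} (hu : 3 ≤ u) : Rep b m u := by
  by_contra hrep
  have hm0 : 0 < m := by omega
  have : NeZero m := ⟨hm0.ne'⟩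
  set L := orderOf (b : ZMod m) with hLdef
  have hL0 : 0 < L := by
    have h1 : IsUnit (b : ZMod m) := (ZMod.isUnit_iff_coprime b m).mpr hc
    obtain ⟨v, hv⟩ := h1
    rw [hLdef, ← hv, orderOf_units]
    exact orderOf_pos v
  have hemp : (Finset.univ.filter (fun f : Fin u → Fin L => m ∣ ∑ i, b ^ (f i : ℕ))) = ∅ := by
    rw [Finset.filter_eq_empty_iff]
    intro f _ hf
    exact hrep ((rep_iff_exists_fin hm0 hc le_rfl).mpr ⟨f, hf⟩)
  have hsum := sum_E_pow (b := b) (m := m) (L := L) (u := u) hm0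
  rw [hemp, Finset.card_empty, Nat.cast_zero, mul_zero,
    ← Finset.add_sum_erase _ _ (Finset.mem_range.mpr hm0)] at hsum
  rw [Nat.cast_zero, zero_div, Four3_E_zero] at hsum
  have h1 : (L : ℝ) ^ u ≤ ∑ a ∈ (range m).erase 0, ‖E b L ((a : ℚ) / m)‖ ^ u := by
    have h2 : ((L : ℂ)) ^ u = - ∑ a ∈ (range m).erase 0, E b L ((a : ℚ) / m) ^ u :=
      eq_neg_of_add_eq_zero_left hsum
    have h3 : ‖((L : ℂ)) ^ u‖ = (L : ℝ) ^ u := by
      rw [norm_pow, Complex.norm_natCast]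
    rw [← h3, h2, norm_neg]
    refine (norm_sum_le _ _).trans (le_of_eq ?_)
    exact Finset.sum_congr rfl fun a _ => norm_pow _ _
  have h2 : ∑ a ∈ (range m).erase 0, ‖E b L ((a : ℚ) / m)‖ ^ u ≤
      (L : ℝ) ^ (u - 3) * ∑ a ∈ (range m).erase 0, ‖E b L ((a : ℚ) / m)‖ ^ 3 := by
    rw [Finset.mul_sum]
    refine Finset.sum_le_sum fun a _ => ?_
    have h3 : u = (u - 3) + 3 := by omega
    conv_lhs => rw [h3, pow_add]
    exact mul_le_mul_of_nonneg_right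
      (pow_le_pow_left₀ (norm_nonneg _) (Four3_norm_le _ _ _) _) (by positivity)
  have h3 := sum_range_div hm0 (fun x => ‖E b L x‖ ^ 3)
  have h4 : ∑ t ∈ m.divisors.erase 1, ∑ a ∈ (range t).filter (fun a => Nat.Coprime a t),
      ‖E b L ((a : ℚ) / t)‖ ^ 3 ≤ ∑ t ∈ m.divisors.erase 1,
        (L : ℝ) ^ 3 * (((t : ℝ) - orderOf (b : ZMod t)) ^ (3 / 2 : ℝ) /
        (orderOf (b : ZMod t) : ℝ) ^ 2) := by
    refine Finset.sum_le_sum fun t ht => ?_
    rw [Finset.mem_erase, Nat.mem_divisors] at ht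
    obtain ⟨ht1, htm, -⟩ := ht
    have ht0 : 0 < t := Nat.pos_of_dvd_of_pos htm hm0
    refine sum_E_cube_le (by omega) (hc.coprime_dvd_right htm) hL0 ?_
    have h5 : (b : ZMod t) = ZMod.castHom htm (ZMod t) (b : ZMod m) := by simp
    rw [h5]
    exact orderOf_map_dvd (ZMod.castHom htm (ZMod t) : ZMod m →* ZMod t) _
  rw [← Finset.mul_sum] at h4
  have hLr : (0 : ℝ) < L := by exact_mod_cast hL0
  have h5 : (L : ℝ) ^ u < (L : ℝ) ^ u := by
    calc (L : ℝ) ^ u ≤ (L : ℝ) ^ (u - 3) * ∑ a ∈ (range m).erase 0, ‖E b L ((a : ℚ) / m)‖ ^ 3 :=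
          h1.trans h2
      _ ≤ (L : ℝ) ^ (u - 3) * ((L : ℝ) ^ 3 * ∑ t ∈ m.divisors.erase 1,
          (((t : ℝ) - orderOf (b : ZMod t)) ^ (3 / 2 : ℝ) / (orderOf (b : ZMod t) : ℝ) ^ 2)) := by
          refine mul_le_mul_of_nonneg_left ?_ (by positivity)
          exact h3.le.trans h4
      _ < (L : ℝ) ^ (u - 3) * ((L : ℝ) ^ 3 * 1) := by
          refine mul_lt_mul_of_pos_left ?_ (by positivity)
          exact mul_lt_mul_of_pos_left h (by positivity)
      _ = (L : ℝ) ^ u := by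
          rw [mul_one, ← pow_add]
          congr 1
          omega
  exact lt_irrefl _ h5

end Pool.Agent.MPd7e141
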