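import Pool.Agent.Lib.MP_d7e141_nt.Four3

/-!
# MP_d7e141_nt : the bound for primitive frequencies with a general exponent `k`, and its consequence
(the lemmas `fourK_*` repeat those of Four2, which are private there).
-/

namespace Pool.Agent.MPd7e141

open Finset

private theorem fourK_exp_int (y : ℂ) (k : ℤ) :
    Complex.exp (2 * Real.pi * Complex.I * (y + k)) = Complex.exp (2 * Real.pi * Complex.I * y) := by
  rw [mul_add, Complex.exp_add]
  have h : Complex.exp (2 * Real.pi * Complex.I * (k : ℂ)) = 1 := by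
    rw [Complex.exp_eq_one_iff]
    exact ⟨k, by ring⟩
  rw [h, mul_one]

private theorem fourK_add_int (b L : ℕ) (x : ℚ) (k : ℤ) : E b L (x + k) = E b L x := by
  unfold E
  apply Finset.sum_congr rfl
  intro j _
  have h : (((x + k : ℚ) : ℂ)) * (b : ℂ) ^ j = (x : ℂ) * (b : ℂ) ^ j + ((k * (b : ℤ) ^ j : ℤ) : ℂ) := by
    push_cast
    ring
  rw [h, fourK_exp_int]

private theorem fourK_mod (b L : ℕ) {t : ℕ} (ht : 0 < t) (a : ℕ) :
    E b L (((a % t : ℕ) : ℚ) / t) = E b L ((a : ℚ) / t) := by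
  have ht' : (t : ℚ) ≠ 0 := by positivity
  have h : (a : ℚ) / t = ((a % t : ℕ) : ℚ) / t + (((a / t : ℕ) : ℤ) : ℚ) := by
    have h1 : (a : ℚ) = ((a % t : ℕ) : ℚ) + t * ((a / t : ℕ) : ℚ) := by
      exact_mod_cast (Nat.mod_add_div a t).symm
    rw [Int.cast_natCast]
    rw [div_add' _ _ _ ht', div_left_inj' ht']
    linarith
  rw [h, fourK_add_int]

private theorem fourK_shift {b t L : ℕ} (ht : 0 < t) (hb : (b : ZMod t) ^ L = 1) (a : ℕ) :
    E b L (((a * b : ℕ) : ℚ) / t) = E b L ((a : ℚ) / t) := by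
  have ht' : (t : ℂ) ≠ 0 := by
    exact_mod_cast ht.ne'
  have hq : ∃ q : ℤ, (b : ℤ) ^ L = 1 + t * q := by
    have h1 : ((b ^ L : ℕ) : ZMod t) = ((1 : ℕ) : ZMod t) := by push_cast; exact hb
    have h2 := (ZMod.natCast_eq_natCast_iff _ _ _).1 h1
    have h3 := (Nat.modEq_iff_dvd.1 h2)
    obtain ⟨q, hq⟩ := h3
    refine ⟨-q, ?_⟩
    push_cast at hq
    linarith
  obtain ⟨q, hq⟩ := hq
  set g : ℕ → ℂ := fun j =>
    Complex.exp (2 * Real.pi * Complex.I * ((((a : ℚ) / t : ℚ) : ℂ) * (b : ℂ) ^ j)) with hg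
  have h1 : E b L (((a * b : ℕ) : ℚ) / t) = ∑ j ∈ Finset.range L, g (j + 1) := by
    unfold E
    apply Finset.sum_congr rfl
    intro j _
    rw [hg]
    congr 1
    push_cast
    ring
  have h2 : E b L ((a : ℚ) / t) = ∑ j ∈ Finset.range L, g j := rfl
  have h3 : g L = g 0 := by
    rw [hg]
    simp only [pow_zero, mul_one]
    have h4 : (((a : ℚ) / t : ℚ) : ℂ) * (b : ℂ) ^ L
        = (((a : ℚ) / t : ℚ) : ℂ) + ((a * q : ℤ) : ℂ) := by
      have h5 : (b : ℂ) ^ L = 1 + t * q := by exact_mod_cast congrArg (fun z : ℤ => (z : ℂ)) hq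
      rw [h5]
      push_cast
      field_simp
    rw [h4, fourK_exp_int]
  have h6 := Finset.sum_range_succ g L
  have h7 := Finset.sum_range_succ' g L
  rw [h1, h2]
  rw [h6, h3] at h7
  exact (add_right_cancel h7).symm

private theorem fourK_orbit {b t L : ℕ} (ht : 0 < t) (hb : (b : ZMod t) ^ L = 1) (a k : ℕ) :
    E b L (((a * b ^ k % t : ℕ) : ℚ) / t) = E b L ((a : ℚ) / t) := by
  rw [fourK_mod b L ht]
  induction k with
  | zero => simp
  | succ k ih => rw [pow_succ, ← mul_assoc, fourK_shift ht hb, ih]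

theorem sum_E_k_le {b t L k : ℕ} (hk : 2 ≤ k) (ht : 1 < t) (hc : Nat.Coprime b t) (hL0 : 0 < L)
    (hL : orderOf (b : ZMod t) ∣ L) :
    ∑ a ∈ (range t).filter (fun a => Nat.Coprime a t), ‖E b L ((a : ℚ) / t)‖ ^ k ≤
      (L : ℝ) ^ k * (((t : ℝ) - orderOf (b : ZMod t)) ^ ((k : ℝ) / 2) /
        (orderOf (b : ZMod t) : ℝ) ^ (k - 1)) := by
  obtain ⟨r, rfl⟩ : ∃ r, k = r + 2 := ⟨k - 2, by omega⟩
  have ht0 : 0 < t := by omega
  have hd0 : 0 < orderOf (b : ZMod t) := Nat.pos_of_dvd_of_pos hL hL0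
  set d : ℕ := orderOf (b : ZMod t) with hd
  have hbL : (b : ZMod t) ^ L = 1 := orderOf_dvd_iff_pow_eq_one.1 hL
  have hdR : (0 : ℝ) < d := by exact_mod_cast hd0
  have hLR : (0 : ℝ) < L := by exact_mod_cast hL0
  set f : ℕ → ℝ := fun a => ‖E b L ((a : ℚ) / t)‖ ^ 2 with hf
  have hf0 : ∀ a, 0 ≤ f a := fun a => by positivity
  have htot : ∑ a ∈ range t, f a = (t : ℝ) * L ^ 2 / d := sum_E_sq ht0 hc hL
  have hE0 : f 0 = (L : ℝ) ^ 2 := by
    have h : E b L ((0 : ℕ) / t : ℚ) = (L : ℂ) := by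
      unfold E
      simp
    rw [hf]
    simp only
    rw [h]
    simp
  have hstar : ∑ a ∈ (range t).erase 0, f a = (L : ℝ) ^ 2 * ((t : ℝ) - d) / d := by
    have h := Finset.sum_erase_add (range t) f (Finset.mem_range.2 ht0)
    rw [htot, hE0] at h
    have h2 : (L : ℝ) ^ 2 * ((t : ℝ) - d) / d = (t : ℝ) * L ^ 2 / d - L ^ 2 := by
      field_simp
    rw [h2]
    linarith
  have htd : 0 ≤ (t : ℝ) - d := by
    have h : 0 ≤ (L : ℝ) ^ 2 * ((t : ℝ) - d) / d := by
      rw [← hstar]; exact Finset.sum_nonneg fun a _ => hf0 a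
    by_contra hcon
    rw [not_le] at hcon
    have : (L : ℝ) ^ 2 * ((t : ℝ) - d) / d < 0 :=
      div_neg_of_neg_of_pos (mul_neg_of_pos_of_neg (by positivity) hcon) hdR
    linarith
  -- each primitive frequency
  have hmax : ∀ a, Nat.Coprime a t → f a ≤ (L : ℝ) ^ 2 * ((t : ℝ) - d) / d ^ 2 := by
    intro a ha
    have hinj : Set.InjOn (fun k => a * b ^ k % t) (range d : Finset ℕ) := by
      intro k hk k' hk' hkk
      have h1 : a * b ^ k ≡ a * b ^ k' [MOD t] := hkk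
      have h2 : b ^ k ≡ b ^ k' [MOD t] :=
        Nat.ModEq.cancel_left_of_coprime (by rw [Nat.gcd_comm]; exact ha) h1
      have h3 : ((b ^ k : ℕ) : ZMod t) = ((b ^ k' : ℕ) : ZMod t) :=
        (ZMod.natCast_eq_natCast_iff _ _ _).2 h2
      push_cast at h3
      exact pow_injOn_Iio_orderOf (by simpa using hk) (by simpa using hk') h3
    have hsub : (range d).image (fun k => a * b ^ k % t) ⊆ (range t).erase 0 := by
      intro r hr
      obtain ⟨k, _, rfl⟩ := Finset.mem_image.1 hr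
      rw [Finset.mem_erase, Finset.mem_range]
      refine ⟨?_, Nat.mod_lt _ ht0⟩
      intro h0
      have hdv : t ∣ a * b ^ k := Nat.dvd_of_mod_eq_zero h0
      have hcop : Nat.Coprime (a * b ^ k) t := Nat.Coprime.mul_left ha (Nat.Coprime.pow_left k hc)
      have := Nat.Coprime.eq_one_of_dvd hcop.symm hdv
      omega
    have h1 : (d : ℝ) * f a = ∑ k ∈ range d, f (a * b ^ k % t) := by
      have h2 : ∀ k ∈ range d, f (a * b ^ k % t) = f a := by
        intro k _
        rw [hf]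
        simp only
        rw [fourK_orbit ht0 hbL]
      rw [Finset.sum_congr rfl h2]
      simp
    have h3 : ∑ k ∈ range d, f (a * b ^ k % t)
        = ∑ r ∈ (range d).image (fun k => a * b ^ k % t), f r :=
      (Finset.sum_image hinj).symm
    have h4 : ∑ r ∈ (range d).image (fun k => a * b ^ k % t), f r ≤ ∑ r ∈ (range t).erase 0, f r :=
      Finset.sum_le_sum_of_subset_of_nonneg hsub fun r _ _ => hf0 r
    rw [← h3, ← h1, hstar] at h4
    rw [le_div_iff₀ (by positivity)]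
    rw [le_div_iff₀ hdR] at h4
    nlinarith
  have hmax2 : ∀ a, Nat.Coprime a t → ‖E b L ((a : ℚ) / t)‖ ≤ L * Real.sqrt ((t : ℝ) - d) / d := by
    intro a ha
    have h := hmax a ha
    have h1 : (L : ℝ) ^ 2 * ((t : ℝ) - d) / d ^ 2 = (L * Real.sqrt ((t : ℝ) - d) / d) ^ 2 := by
      rw [div_pow, mul_pow, Real.sq_sqrt htd]
    rw [h1] at h
    exact le_of_sq_le_sq h (by positivity)
  have hpow : ((t : ℝ) - d) ^ (((r + 2 : ℕ) : ℝ) / 2) = Real.sqrt ((t : ℝ) - d) ^ r * ((t : ℝ) - d) := by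
    rw [Real.sqrt_eq_rpow, ← Real.rpow_natCast (((t : ℝ) - d) ^ (1 / 2 : ℝ)) r,
      ← Real.rpow_mul htd, ← Real.rpow_add_one' htd (by positivity)]
    congr 1
    push_cast
    ring
  rw [hpow]
  calc ∑ a ∈ (range t).filter (fun a => Nat.Coprime a t), ‖E b L ((a : ℚ) / t)‖ ^ (r + 2)
      ≤ ∑ a ∈ (range t).filter (fun a => Nat.Coprime a t),
          (L * Real.sqrt ((t : ℝ) - d) / d) ^ r * f a := by
        apply Finset.sum_le_sum
        intro a ha
        have h := hmax2 a (Finset.mem_filter.1 ha).2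
        have h3 : ‖E b L ((a : ℚ) / t)‖ ^ (r + 2) = ‖E b L ((a : ℚ) / t)‖ ^ r * f a := by
          rw [hf]; ring
        rw [h3]
        exact mul_le_mul_of_nonneg_right (pow_le_pow_left₀ (norm_nonneg _) h r) (hf0 a)
    _ = (L * Real.sqrt ((t : ℝ) - d) / d) ^ r
          * ∑ a ∈ (range t).filter (fun a => Nat.Coprime a t), f a := by rw [Finset.mul_sum]
    _ ≤ (L * Real.sqrt ((t : ℝ) - d) / d) ^ r * ∑ a ∈ (range t).erase 0, f a := by
        apply mul_le_mul_of_nonneg_left _ (by positivity)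
        apply Finset.sum_le_sum_of_subset_of_nonneg _ fun r _ _ => hf0 r
        intro a ha
        rw [Finset.mem_filter] at ha
        rw [Finset.mem_erase]
        refine ⟨?_, ha.1⟩
        rintro rfl
        have h2 := ha.2
        rw [Nat.coprime_zero_left] at h2
        omega
    _ = (L : ℝ) ^ (r + 2) * (Real.sqrt ((t : ℝ) - d) ^ r * ((t : ℝ) - d) / (d : ℝ) ^ (r + 2 - 1)) := by
        rw [hstar, show r + 2 - 1 = r + 1 from rfl, div_pow, mul_pow]
        field_simp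
        ring

theorem rep_of_generic_k {b m k : ℕ} (hk : 2 ≤ k) (hm : 1 < m) (hc : Nat.Coprime b m)
    (h : ∑ t ∈ m.divisors.erase 1, ((t : ℝ) - orderOf (b : ZMod t)) ^ ((k : ℝ) / 2) /
        (orderOf (b : ZMod t) : ℝ) ^ (k - 1) < 1) {u : ℕ} (hu : k ≤ u) : Rep b m u := by
  by_contra hrep
  have hm0 : 0 < m := by omega
  have : NeZero m := ⟨hm0.ne'⟩
  set L := orderOf (b : ZMod m) with hLdef
  have hL0 : 0 < L := by
    have h1 : IsUnit (b : ZMod m) := (ZMod.isUnit_iff_coprime b m).mpr hc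
    obtain ⟨v, hv⟩ := h1
    rw [hLdef, ← hv, orderOf_units]
    exact orderOf_pos v
  have hemp : (Finset.univ.filter (fun f : Fin u → Fin L => m ∣ ∑ i, b ^ (f i : ℕ))) = ∅ := by
    rw [Finset.filter_eq_empty_iff]
    intro f _ hf
    exact hrep ((rep_iff_exists_fin hm0 hc le_rfl).mpr ⟨f, hf⟩)
  have hsum := sum_E_pow (b := b) (m := m) (L := L) (u := u) hm0
  rw [hemp, Finset.card_empty, Nat.cast_zero, mul_zero,
    ← Finset.add_sum_erase _ _ (Finset.mem_range.mpr hm0)] at hsum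
  rw [Nat.cast_zero, zero_div, Four3_E_zero] at hsum
  have h1 : (L : ℝ) ^ u ≤ ∑ a ∈ (range m).erase 0, ‖E b L ((a : ℚ) / m)‖ ^ u := by
    have h2 : ((L : ℂ)) ^ u = - ∑ a ∈ (range m).erase 0, E b L ((a : ℚ) / m) ^ u :=
      eq_neg_of_add_eq_zero_left hsum
    have h3 : ‖((L : ℂ)) ^ u‖ = (L : ℝ) ^ u := by
      rw [norm_pow, Complex.norm_natCast]
    rw [← h3, h2, norm_neg]
    refine (norm_sum_le _ _).trans (le_of_eq ?_)
    exact Finset.sum_congr rfl fun a _ => norm_pow _ _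
  have h2 : ∑ a ∈ (range m).erase 0, ‖E b L ((a : ℚ) / m)‖ ^ u ≤
      (L : ℝ) ^ (u - k) * ∑ a ∈ (range m).erase 0, ‖E b L ((a : ℚ) / m)‖ ^ k := by
    rw [Finset.mul_sum]
    refine Finset.sum_le_sum fun a _ => ?_
    have h3 : u = (u - k) + k := by omega
    conv_lhs => rw [h3, pow_add]
    exact mul_le_mul_of_nonneg_right
      (pow_le_pow_left₀ (norm_nonneg _) (Four3_norm_le _ _ _) _) (by positivity)
  have h3 := sum_range_div hm0 (fun x => ‖E b L x‖ ^ k)
  have h4 : ∑ t ∈ m.divisors.erase 1, ∑ a ∈ (range t).filter (fun a => Nat.Coprime a t),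
      ‖E b L ((a : ℚ) / t)‖ ^ k ≤ ∑ t ∈ m.divisors.erase 1,
        (L : ℝ) ^ k * (((t : ℝ) - orderOf (b : ZMod t)) ^ ((k : ℝ) / 2) /
        (orderOf (b : ZMod t) : ℝ) ^ (k - 1)) := by
    refine Finset.sum_le_sum fun t ht => ?_
    rw [Finset.mem_erase, Nat.mem_divisors] at ht
    obtain ⟨ht1, htm, -⟩ := ht
    have ht0 : 0 < t := Nat.pos_of_dvd_of_pos htm hm0
    refine sum_E_k_le hk (by omega) (hc.coprime_dvd_right htm) hL0 ?_
    have h5 : (b : ZMod t) = ZMod.castHom htm (ZMod t) (b : ZMod m) := by simp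
    rw [h5]
    exact orderOf_map_dvd (ZMod.castHom htm (ZMod t) : ZMod m →* ZMod t) _
  rw [← Finset.mul_sum] at h4
  have hLr : (0 : ℝ) < L := by exact_mod_cast hL0
  have h5 : (L : ℝ) ^ u < (L : ℝ) ^ u := by
    calc (L : ℝ) ^ u ≤ (L : ℝ) ^ (u - k) * ∑ a ∈ (range m).erase 0, ‖E b L ((a : ℚ) / m)‖ ^ k :=
          h1.trans h2
      _ ≤ (L : ℝ) ^ (u - k) * ((L : ℝ) ^ k * ∑ t ∈ m.divisors.erase 1,
          (((t : ℝ) - orderOf (b : ZMod t)) ^ ((k : ℝ) / 2) / (orderOf (b : ZMod t) : ℝ) ^ (k - 1))) := by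
          refine mul_le_mul_of_nonneg_left ?_ (by positivity)
          exact h3.le.trans h4
      _ < (L : ℝ) ^ (u - k) * ((L : ℝ) ^ k * 1) := by
          refine mul_lt_mul_of_pos_left ?_ (by positivity)
          exact mul_lt_mul_of_pos_left h (by positivity)
      _ = (L : ℝ) ^ u := by
          rw [mul_one, ← pow_add]
          congr 1
          omega
  exact lt_irrefl _ h5

end Pool.Agent.MPd7e141
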