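import Pool.Agent.Lib.MP_d7e141_nt.FourK

/-!
# MP_d7e141_nt : exponential sum formula, generic pairs
-/

namespace Pool.Agent.MPd7e141

open Finset

lemma orderOf_pos_of_coprime {b m : ℕ} (hm : 0 < m) (hc : Nat.Coprime b m) :
    0 < orderOf (b : ZMod m) := by
  have : NeZero m := ⟨by omega⟩
  have h1 : ((ZMod.unitOfCoprime b hc : (ZMod m)ˣ) : ZMod m) = (b : ZMod m) :=
    ZMod.coe_unitOfCoprime b hc
  rw [← h1, orderOf_units]
  exact orderOf_pos _

/-- the exponential sum formula for `F b n`, all admissible pairs -/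
theorem F_formula {b n : ℕ} (h : Admissible b n) :
    IsGreatest {u : ℕ | 0 < u ∧ u ≤ core b n - 2 ∧
      ∑ a ∈ range (core b n), (∑ j ∈ range (orderOf (b : ZMod (core b n))),
        Complex.exp (2 * Real.pi * Complex.I * ((a : ℂ) * (b : ℂ) ^ j / (core b n : ℂ)))) ^ u = 0}
      (F b n) := by
  have hm := core_pos (b := b) h.pos
  have hc := coprime_core (b := b) h.pos
  have hm0 : (core b n : ℂ) ≠ 0 := by exact_mod_cast hm.ne'
  have key : ∀ u : ℕ, (∑ a ∈ range (core b n), (∑ j ∈ range (orderOf (b : ZMod (core b n))),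
        Complex.exp (2 * Real.pi * Complex.I * ((a : ℂ) * (b : ℂ) ^ j / (core b n : ℂ)))) ^ u = 0) ↔
      ¬ Rep b (core b n) u := by
    intro u
    have h1 := sum_E_pow (b := b) (L := orderOf (b : ZMod (core b n))) (u := u) hm
    have h2 : ∀ a : ℕ, E b (orderOf (b : ZMod (core b n))) ((a : ℚ) / (core b n : ℚ)) =
        ∑ j ∈ range (orderOf (b : ZMod (core b n))),
        Complex.exp (2 * Real.pi * Complex.I * ((a : ℂ) * (b : ℂ) ^ j / (core b n : ℂ))) := by
      intro a
      unfold E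
      refine sum_congr rfl fun j _ => ?_
      congr 2
      push_cast
      ring
    simp_rw [h2] at h1
    rw [h1, mul_eq_zero, or_iff_right hm0, Nat.cast_eq_zero, card_eq_zero,
      rep_iff_exists_fin hm hc le_rfl, filter_eq_empty_iff]
    simp
  refine ⟨⟨one_le_F h, (F_le_core_sub_two h).1, (key _).2 (not_rep_F h)⟩, ?_⟩
  rintro u ⟨_, _, hu⟩
  exact le_F h ((key u).1 hu)

lemma rep_two_iff {b m : ℕ} (hc : Nat.Coprime b m) :
    Rep b m 2 ↔ ∃ k : ℕ, m ∣ b ^ k + 1 := by
  constructor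
  · rintro ⟨s, hs, hs'⟩
    obtain ⟨e, f, rfl⟩ := Multiset.card_eq_two.1 hs
    have h1 : m ∣ b ^ e + b ^ f := by simpa using hs'
    rcases le_total e f with hef | hef
    · refine ⟨f - e, ?_⟩
      have h2 : b ^ e + b ^ f = b ^ e * (b ^ (f - e) + 1) := by
        rw [mul_add, ← pow_add, Nat.add_sub_cancel' hef]; ring
      rw [h2] at h1
      exact Nat.Coprime.dvd_of_dvd_mul_left (Nat.Coprime.pow_left e hc).symm h1
    · refine ⟨e - f, ?_⟩
      have h2 : b ^ e + b ^ f = b ^ f * (b ^ (e - f) + 1) := by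
        rw [mul_add, ← pow_add, Nat.add_sub_cancel' hef]; ring
      rw [h2] at h1
      exact Nat.Coprime.dvd_of_dvd_mul_left (Nat.Coprime.pow_left f hc).symm h1
  · rintro ⟨k, hk⟩
    exact ⟨{k, 0}, by simp, by simpa using hk⟩

theorem F_generic_k {b n k : ℕ} (h : Admissible b n) (hk : 2 ≤ k)
    (hs : ∑ t ∈ (core b n).divisors.erase 1, ((t : ℝ) - orderOf (b : ZMod t)) ^ ((k : ℝ) / 2) /
        (orderOf (b : ZMod t) : ℝ) ^ (k - 1) < 1) : F b n ≤ k - 1 :=
  F_le h fun u hu => rep_of_generic_k hk h.core_gt_one (coprime_core h.pos) hs (by omega)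

theorem F_generic {b n : ℕ} (h : Admissible b n)
    (hs : ∑ t ∈ (core b n).divisors.erase 1, ((t : ℝ) - orderOf (b : ZMod t)) ^ (3 / 2 : ℝ) /
        (orderOf (b : ZMod t) : ℝ) ^ 2 < 1) :
    ((∃ k : ℕ, core b n ∣ b ^ k + 1) → F b n = 1) ∧
      ((¬ ∃ k : ℕ, core b n ∣ b ^ k + 1) → F b n = 2) := by
  have h1 := h.core_gt_one
  have hc := coprime_core (b := b) h.pos
  have h3 : ∀ u, 3 ≤ u → Rep b (core b n) u := fun u hu => rep_of_generic h1 hc hs hu
  refine ⟨fun hk => ?_, fun hk => ?_⟩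
  · apply F_eq h (not_rep_one h1 hc)
    intro u hu
    rcases Nat.lt_or_ge u 3 with h4 | h4
    · have : u = 2 := by omega
      subst this
      exact (rep_two_iff hc).2 hk
    · exact h3 u h4
  · apply F_eq h (fun h2 => hk ((rep_two_iff hc).1 h2))
    intro u hu
    exact h3 u hu

lemma orderOf_le_self {b p : ℕ} (hp : p.Prime) (hc : Nat.Coprime b p) :
    orderOf (b : ZMod p) ≤ p - 1 := by
  have : Fact p.Prime := ⟨hp⟩
  have h1 : ((ZMod.unitOfCoprime b hc : (ZMod p)ˣ) : ZMod p) = (b : ZMod p) :=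
    ZMod.coe_unitOfCoprime b hc
  rw [← h1, orderOf_units, ← ZMod.card_units p]
  exact orderOf_le_card_univ

theorem F_generic_prime {b n : ℕ} (h : Admissible b n) (hp : (core b n).Prime)
    (hs : (core b n - orderOf (b : ZMod (core b n))) ^ 3 < orderOf (b : ZMod (core b n)) ^ 4) :
    ((∃ k : ℕ, core b n ∣ b ^ k + 1) → F b n = 1) ∧
      ((¬ ∃ k : ℕ, core b n ∣ b ^ k + 1) → F b n = 2) := by
  apply F_generic h
  have hc := coprime_core (b := b) h.pos
  have hle := orderOf_le_self hp hc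
  have hpos := orderOf_pos_of_coprime hp.pos hc
  rw [hp.divisors]
  have e1 : ({1, core b n} : Finset ℕ).erase 1 = {core b n} := by
    rw [erase_insert]
    simp [hp.one_lt.ne]
  rw [e1, sum_singleton]
  set d := orderOf (b : ZMod (core b n)) with hd
  set p := core b n with hpp
  have hdp : d ≤ p := by have := hp.pos; omega
  have hd0 : (0 : ℝ) < (d : ℝ) := by exact_mod_cast hpos
  rw [div_lt_one (by positivity)]
  have hx : (0 : ℝ) ≤ (p : ℝ) - d := by
    have : (d : ℝ) ≤ p := by exact_mod_cast hdp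
    linarith
  have h2 : ((p : ℝ) - d) ^ 3 < (d : ℝ) ^ 4 := by
    have h3 : (((p - d) ^ 3 : ℕ) : ℝ) < ((d ^ 4 : ℕ) : ℝ) := by exact_mod_cast hs
    push_cast [Nat.cast_sub hdp] at h3
    exact h3
  have h4 : (((p : ℝ) - d) ^ (3 / 2 : ℝ)) ^ 2 < ((d : ℝ) ^ 2) ^ 2 := by
    rw [← Real.rpow_natCast (((p : ℝ) - d) ^ (3 / 2 : ℝ)) 2, ← Real.rpow_mul hx]
    norm_num
    calc ((p : ℝ) - d) ^ 3 < (d : ℝ) ^ 4 := h2
      _ = ((d : ℝ) ^ 2) ^ 2 := by ring
  exact lt_of_pow_lt_pow_left₀ 2 (by positivity) h4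

/-- few residues `b` modulo a prime `p` violate the condition of `F_generic_prime` -/
theorem count_exceptions {p : ℕ} (hp : p.Prime) :
    (((range p).filter fun b : ℕ => 0 < b ∧
      ¬ (p - orderOf (b : ZMod p)) ^ 3 < orderOf (b : ZMod p) ^ 4).card : ℝ) ≤
      ((p - 1).divisors.card : ℝ) * (p : ℝ) ^ (3 / 4 : ℝ) := by
  have : Fact p.Prime := ⟨hp⟩
  -- inject into the units
  have h1 : ((range p).filter fun b : ℕ => 0 < b ∧
      ¬ (p - orderOf (b : ZMod p)) ^ 3 < orderOf (b : ZMod p) ^ 4).card ≤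
      (univ.filter fun x : (ZMod p)ˣ => ¬ (p - orderOf x) ^ 3 < orderOf x ^ 4).card := by
    refine card_le_card_of_injOn
      (fun b : ℕ => if hb : Nat.Coprime b p then ZMod.unitOfCoprime b hb else 1) ?_ ?_
    · intro b hb
      rw [mem_coe, mem_filter, mem_range] at hb
      have hbc : Nat.Coprime b p :=
        (Nat.coprime_of_lt_prime hb.2.1.ne' hb.1 hp).symm
      simp only [dif_pos hbc]
      rw [mem_coe, mem_filter]
      refine ⟨mem_univ _, ?_⟩
      have h2 : ((ZMod.unitOfCoprime b hbc : (ZMod p)ˣ) : ZMod p) = (b : ZMod p) :=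
        ZMod.coe_unitOfCoprime b hbc
      rw [← orderOf_units, h2]
      exact hb.2.2
    · intro b hb b' hb' he
      rw [mem_coe, mem_filter, mem_range] at hb hb'
      have hbc : Nat.Coprime b p := (Nat.coprime_of_lt_prime hb.2.1.ne' hb.1 hp).symm
      have hbc' : Nat.Coprime b' p := (Nat.coprime_of_lt_prime hb'.2.1.ne' hb'.1 hp).symm
      simp only [dif_pos hbc, dif_pos hbc'] at he
      have h2 : (b : ZMod p) = (b' : ZMod p) := by
        rw [← ZMod.coe_unitOfCoprime b hbc, ← ZMod.coe_unitOfCoprime b' hbc', he]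
      have h3 := congrArg ZMod.val h2
      rwa [ZMod.val_cast_of_lt hb.1, ZMod.val_cast_of_lt hb'.1] at h3
  have h2 : ((univ.filter fun x : (ZMod p)ˣ => ¬ (p - orderOf x) ^ 3 < orderOf x ^ 4).card : ℝ) ≤
      ∑ d ∈ (p - 1).divisors, (p : ℝ) ^ (3 / 4 : ℝ) := by
    have h3 : (univ.filter fun x : (ZMod p)ˣ => ¬ (p - orderOf x) ^ 3 < orderOf x ^ 4).card =
        ∑ d ∈ (p - 1).divisors, ((univ.filter fun x : (ZMod p)ˣ =>
          ¬ (p - orderOf x) ^ 3 < orderOf x ^ 4).filter fun x => orderOf x = d).card := by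
      apply card_eq_sum_card_fiberwise
      intro x _
      rw [mem_coe, Nat.mem_divisors]
      refine ⟨?_, by have := hp.two_le; omega⟩
      rw [← ZMod.card_units p]
      exact orderOf_dvd_card
    rw [h3]
    push_cast
    apply sum_le_sum
    intro d hd
    rw [Nat.mem_divisors] at hd
    by_cases hcond : (p - d) ^ 3 < d ^ 4
    · have h4 : ((univ.filter fun x : (ZMod p)ˣ =>
          ¬ (p - orderOf x) ^ 3 < orderOf x ^ 4).filter fun x => orderOf x = d) = ∅ := by
        rw [filter_filter, filter_eq_empty_iff]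
        rintro x - ⟨h5, h6⟩
        rw [h6] at h5
        exact h5 hcond
      rw [h4]
      simp
      positivity
    · have h4 : ((univ.filter fun x : (ZMod p)ˣ =>
          ¬ (p - orderOf x) ^ 3 < orderOf x ^ 4).filter fun x => orderOf x = d).card ≤ d := by
        calc _ ≤ (univ.filter fun x : (ZMod p)ˣ => orderOf x = d).card := by
              apply card_le_card
              intro x hx
              rw [mem_filter] at hx ⊢
              exact ⟨mem_univ _, hx.2⟩
          _ = Nat.totient d := IsCyclic.card_orderOf_eq_totient (by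
              rw [ZMod.card_units p]; exact hd.1)
          _ ≤ d := Nat.totient_le d
      have h5 : (d : ℝ) ≤ (p : ℝ) ^ (3 / 4 : ℝ) := by
        have h6 : d ^ 4 ≤ p ^ 3 := by
          calc d ^ 4 ≤ (p - d) ^ 3 := by omega
            _ ≤ p ^ 3 := Nat.pow_le_pow_left (Nat.sub_le _ _) 3
        have h7 : (d : ℝ) ^ 4 ≤ (p : ℝ) ^ 3 := by exact_mod_cast h6
        have h8 : ((p : ℝ) ^ (3 / 4 : ℝ)) ^ 4 = (p : ℝ) ^ 3 := by
          rw [← Real.rpow_natCast ((p : ℝ) ^ (3 / 4 : ℝ)) 4, ← Real.rpow_mul (by positivity)]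
          norm_num
        rw [← h8] at h7
        exact le_of_pow_le_pow_left₀ (by norm_num) (by positivity) h7
      calc _ ≤ (d : ℝ) := by exact_mod_cast h4
        _ ≤ _ := h5
  calc _ ≤ _ := (by exact_mod_cast h1 : _ ≤ ((univ.filter fun x : (ZMod p)ˣ =>
        ¬ (p - orderOf x) ^ 3 < orderOf x ^ 4).card : ℝ))
    _ ≤ _ := h2
    _ = _ := by rw [sum_const, nsmul_eq_mul]

end Pool.Agent.MPd7e141
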