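import Pool.Agent.Lib.MP_d7e141_nt.CycFinal

/-!
# MP_d7e141_nt : growth of `F` for cyclotomic cores of prime power order, part 1
-/

namespace Pool.Agent.MPd7e141

open Polynomial

/-- the product of the absolute values of `f` at the primitive `d`-th roots of unity -/
noncomputable def pn (d : ℕ) (f : ℤ[X]) : ℝ :=
  ∏ z ∈ primitiveRoots d ℂ, ‖(f.map (Int.castRingHom ℂ)).eval z‖

lemma pn_nonneg (d : ℕ) (f : ℤ[X]) : 0 ≤ pn d f := Finset.prod_nonneg fun _ _ => norm_nonneg _

/-- if `m ∣ Φ_d(b)`, `m ∣ f(b)` and `f` does not vanish at the primitive roots, `m ≤ pn d f` -/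
theorem le_pn {b d m : ℕ} (hd : 0 < d) (h : (m : ℤ) ∣ (cyclotomic d ℤ).eval (b : ℤ)) (f : ℤ[X])
    (hf : (m : ℤ) ∣ f.eval (b : ℤ))
    (hne : ∀ z ∈ primitiveRoots d ℂ, (f.map (Int.castRingHom ℂ)).eval z ≠ 0) :
    (m : ℝ) ≤ pn d f := by
  set Φ : ℤ[X] := cyclotomic d ℤ with hΦ
  have hdeg : Φ.natDegree = Nat.totient d := natDegree_cyclotomic d ℤ
  have hpos : 0 < Nat.totient d := Nat.totient_pos.2 hd
  set R : ℤ := Φ.resultant f Φ.natDegree f.natDegree with hR
  have hmR : (m : ℤ) ∣ R := by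
    obtain ⟨p, q, _, _, hpq⟩ := exists_mul_add_mul_eq_C_resultant
      (m := Φ.natDegree) (n := f.natDegree) Φ f le_rfl le_rfl (Or.inl (by rw [hdeg]; exact hpos.ne'))
    have h2 := congrArg (Polynomial.eval (b : ℤ)) hpq
    rw [eval_add, eval_mul, eval_mul, eval_C] at h2
    rw [hR, ← h2]
    exact dvd_add (h.mul_right _) (hf.mul_right _)
  set φ : ℤ →+* ℂ := Int.castRingHom ℂ with hφ
  have hΦC : Φ.map φ = cyclotomic d ℂ := map_cyclotomic d φ
  have hRC : (R : ℂ) = (((cyclotomic d ℂ).roots.map (f.map φ).eval).prod) := by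
    have e1 : φ R = (Φ.map φ).resultant (f.map φ) Φ.natDegree f.natDegree := by
      rw [resultant_map_map]
    have e2 : Φ.natDegree = (Φ.map φ).natDegree := by
      rw [hΦC, hdeg, natDegree_cyclotomic]
    rw [e2, resultant_eq_prod_eval (Φ.map φ) (f.map φ) f.natDegree
      natDegree_map_le (IsAlgClosed.splits _), hΦC,
      (cyclotomic.monic d ℂ).leadingCoeff, one_pow, one_mul] at e1
    exact e1
  have hroots : (cyclotomic d ℂ).roots = (primitiveRoots d ℂ).val := by
    have : NeZero (d : ℂ) := ⟨by exact_mod_cast hd.ne'⟩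
    exact cyclotomic.roots_eq_primitiveRoots_val
  have hRC2 : (R : ℂ) = ∏ z ∈ primitiveRoots d ℂ, (f.map φ).eval z := by
    rw [hRC, hroots]; rfl
  have hnorm : |(R : ℝ)| = pn d f := by
    have h1 : ‖(R : ℂ)‖ = pn d f := by
      rw [hRC2, norm_prod]; rfl
    rwa [Complex.norm_intCast] at h1
  have hR0 : R ≠ 0 := by
    intro h0
    rw [h0, Int.cast_zero] at hRC2
    obtain ⟨z, hz, hz'⟩ := Finset.prod_eq_zero_iff.1 hRC2.symm
    exact hne z hz hz'
  have h1 : (m : ℤ) ≤ |R| := by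
    refine Int.le_of_dvd (abs_pos.2 hR0) ?_
    rwa [dvd_abs]
  rw [← hnorm]
  have h2 : ((m : ℤ) : ℝ) ≤ ((|R| : ℤ) : ℝ) := by exact_mod_cast h1
  rw [Int.cast_abs] at h2
  simpa using h2

/-- the `ℓ¹`-norm of the coefficients -/
def l1 (f : ℤ[X]) : ℤ := ∑ i ∈ f.support, |f.coeff i|

lemma l1_eq {f : ℤ[X]} {N : ℕ} (hN : f.natDegree < N) : l1 f = ∑ i ∈ Finset.range N, |f.coeff i| := by
  unfold l1
  apply Finset.sum_subset
  · intro i hi
    rw [Finset.mem_range]
    exact lt_of_le_of_lt (le_natDegree_of_mem_supp i hi) hN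
  · intro i _ hi
    rw [notMem_support_iff.1 hi, abs_zero]

lemma l1_nonneg (f : ℤ[X]) : 0 ≤ l1 f := Finset.sum_nonneg fun _ _ => abs_nonneg _

lemma abs_coeff_le_l1 (f : ℤ[X]) (s : Finset ℕ) : ∑ i ∈ s, |f.coeff i| ≤ l1 f := by
  set N := max (f.natDegree + 1) ((s.sup id) + 1) with hN
  rw [l1_eq (N := N) (lt_of_lt_of_le (Nat.lt_succ_self _) (le_max_left _ _))]
  apply Finset.sum_le_sum_of_subset_of_nonneg
  · intro i hi
    rw [Finset.mem_range]
    have : i ≤ s.sup id := Finset.le_sup (f := id) hi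
    have := le_max_right (f.natDegree + 1) ((s.sup id) + 1)
    omega
  · intro i _ _
    exact abs_nonneg _

lemma l1_sub_le (f g : ℤ[X]) : l1 (f - g) ≤ l1 f + l1 g := by
  set N := max (max f.natDegree g.natDegree) (f - g).natDegree + 1 with hN
  have h1 : f.natDegree < N := by
    have := le_max_left f.natDegree g.natDegree
    have := le_max_left (max f.natDegree g.natDegree) (f - g).natDegree
    omega
  have h2 : g.natDegree < N := by
    have := le_max_right f.natDegree g.natDegree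
    have := le_max_left (max f.natDegree g.natDegree) (f - g).natDegree
    omega
  have h3 : (f - g).natDegree < N := by
    have := le_max_right (max f.natDegree g.natDegree) (f - g).natDegree
    omega
  rw [l1_eq h1, l1_eq h2, l1_eq h3, ← Finset.sum_add_distrib]
  apply Finset.sum_le_sum
  intro i _
  rw [coeff_sub]
  exact abs_sub _ _

lemma l1_C_mul (a : ℤ) (f : ℤ[X]) : l1 (C a * f) = |a| * l1 f := by
  set N := max f.natDegree (C a * f).natDegree + 1 with hN
  have h1 : f.natDegree < N := by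
    have := le_max_left f.natDegree (C a * f).natDegree
    omega
  have h2 : (C a * f).natDegree < N := by
    have := le_max_right f.natDegree (C a * f).natDegree
    omega
  rw [l1_eq h1, l1_eq h2, Finset.mul_sum]
  apply Finset.sum_congr rfl
  intro i _
  rw [coeff_C_mul, abs_mul]

lemma abs_eval_one_le (f : ℤ[X]) : |f.eval 1| ≤ l1 f := by
  rw [eval_eq_sum_range, l1_eq (N := f.natDegree + 1) (Nat.lt_succ_self _)]
  refine (Finset.abs_sum_le_sum_abs _ _).trans (le_of_eq ?_)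
  apply Finset.sum_congr rfl
  intro i _
  simp

lemma norm_eval_le {z : ℂ} (hz : ‖z‖ = 1) (f : ℤ[X]) :
    ‖(f.map (Int.castRingHom ℂ)).eval z‖ ≤ (l1 f : ℝ) := by
  rw [eval_map, eval₂_eq_sum_range, l1_eq (N := f.natDegree + 1) (Nat.lt_succ_self _)]
  refine (norm_sum_le _ _).trans (le_of_eq ?_)
  push_cast
  apply Finset.sum_congr rfl
  intro i _
  rw [norm_mul, norm_pow, hz, one_pow, mul_one]
  simp

lemma pn_le {d : ℕ} (hd : 0 < d) (f : ℤ[X]) : pn d f ≤ (l1 f : ℝ) ^ Nat.totient d := by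
  unfold pn
  have h1 : ∏ z ∈ primitiveRoots d ℂ, ‖(f.map (Int.castRingHom ℂ)).eval z‖ ≤
      ∏ z ∈ primitiveRoots d ℂ, (l1 f : ℝ) := by
    apply Finset.prod_le_prod
    · intro z _; exact norm_nonneg _
    · intro z hz
      apply norm_eval_le
      exact Complex.norm_eq_one_of_pow_eq_one
        (isPrimitiveRoot_of_mem_primitiveRoots hz).pow_eq_one hd.ne'
  rw [Finset.prod_const, Complex.card_primitiveRoots] at h1
  exact h1

lemma pn_mul (d : ℕ) (f g : ℤ[X]) : pn d (f * g) = pn d f * pn d g := by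
  unfold pn
  rw [← Finset.prod_mul_distrib]
  apply Finset.prod_congr rfl
  intro z _
  rw [Polynomial.map_mul, eval_mul, norm_mul]

/-- `∏ |ζ - 1| = q` for the primitive `q^{k+1}`-th roots of unity -/
lemma pn_X_sub_one {q k : ℕ} (hq : q.Prime) : pn (q ^ (k + 1)) (X - C 1) = (q : ℝ) := by
  set d := q ^ (k + 1) with hd
  have hd0 : d ≠ 0 := by rw [hd]; exact pow_ne_zero _ hq.ne_zero
  have h1 : (cyclotomic d ℂ).eval 1 = ∏ z ∈ primitiveRoots d ℂ, ((1 : ℂ) - z) := by
    rw [cyclotomic_eq_prod_X_sub_primitiveRoots (Complex.isPrimitiveRoot_exp d hd0), eval_prod]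
    apply Finset.prod_congr rfl
    intro z _
    simp
  have : Fact q.Prime := ⟨hq⟩
  have h2 : (cyclotomic d ℂ).eval 1 = (q : ℂ) := by
    rw [hd, eval_one_cyclotomic_prime_pow]
  rw [h2] at h1
  unfold pn
  have h3 : ∏ z ∈ primitiveRoots d ℂ, ‖((X - C 1 : ℤ[X]).map (Int.castRingHom ℂ)).eval z‖ =
      ‖∏ z ∈ primitiveRoots d ℂ, ((1 : ℂ) - z)‖ := by
    rw [norm_prod]
    apply Finset.prod_congr rfl
    intro z _
    rw [norm_sub_rev]
    simp
  rw [h3, ← h1]
  simp

lemma eval_ne_zero_iff_not_dvd {d : ℕ} (hd : 0 < d) {f : ℤ[X]} {z : ℂ}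
    (hz : z ∈ primitiveRoots d ℂ) :
    (f.map (Int.castRingHom ℂ)).eval z = 0 ↔ cyclotomic d ℤ ∣ f := by
  have hp := isPrimitiveRoot_of_mem_primitiveRoots hz
  have h0 : (f.map (Int.castRingHom ℂ)).eval z = aeval z f := by
    rw [aeval_def, eval_map]; rfl
  rw [h0, cyclotomic_eq_minpoly hp hd]
  exact minpoly.isIntegrallyClosed_dvd_iff (hp.isIntegral hd) f

end Pool.Agent.MPd7e141
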