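import Pool.Agent.Lib.MP_d7e141_nt.Grow1

/-!
# MP_d7e141_nt : growth of `F` for cyclotomic cores of prime power order, part 2
-/

namespace Pool.Agent.MPd7e141

open Polynomial

/-! ### lower bound -/

lemma eval_multiset_X_pow (s : Multiset ℕ) (x : ℤ) :
    ((s.map fun e => (X : ℤ[X]) ^ e).sum).eval x = (s.map fun e => x ^ e).sum := by
  rw [← coe_evalRingHom, map_multiset_sum, Multiset.map_map]
  congr 1
  refine Multiset.map_congr rfl fun e _ => ?_
  simp

lemma norm_eval_multiset_le (s : Multiset ℕ) {z : ℂ} (h : ‖z‖ = 1) :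
    ‖((((s.map fun e => (X : ℤ[X]) ^ e).sum).map (Int.castRingHom ℂ)).eval z)‖ ≤
      (Multiset.card s : ℝ) := by
  have e1 : ((((s.map fun e => (X : ℤ[X]) ^ e).sum).map (Int.castRingHom ℂ)).eval z) =
      (s.map fun e => z ^ e).sum := by
    rw [eval_map, ← coe_eval₂RingHom, map_multiset_sum, Multiset.map_map]
    congr 1
    refine Multiset.map_congr rfl fun e _ => ?_
    simp
  rw [e1]
  induction s using Multiset.induction_on with
  | empty => simp
  | cons a s ih =>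
    rw [Multiset.map_cons, Multiset.sum_cons, Multiset.card_cons]
    refine (norm_add_le _ _).trans ?_
    have ih' := ih (by
      rw [eval_map, ← coe_eval₂RingHom, map_multiset_sum, Multiset.map_map]
      congr 1
      refine Multiset.map_congr rfl fun e _ => ?_
      simp)
    rw [norm_pow, h, one_pow]
    push_cast
    linarith

/-- a representation of length `u` prime to `q` needs `u ^ φ(d) ≥ m` -/
theorem le_pow_of_rep {b m q k u : ℕ} (hq : q.Prime)
    (h : (m : ℤ) ∣ (cyclotomic (q ^ (k + 1)) ℤ).eval (b : ℤ)) (hu : ¬ q ∣ u)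
    (hr : Rep b m u) : m ≤ u ^ Nat.totient (q ^ (k + 1)) := by
  obtain ⟨s, hs, hs'⟩ := hr
  set d := q ^ (k + 1) with hd
  have hd0 : 0 < d := Nat.pos_of_ne_zero (by rw [hd]; exact pow_ne_zero _ hq.ne_zero)
  set f : ℤ[X] := (s.map fun e => (X : ℤ[X]) ^ e).sum with hf
  have hfb : (m : ℤ) ∣ f.eval (b : ℤ) := by
    rw [hf, eval_multiset_X_pow]
    have e1 : (s.map fun e => (b : ℤ) ^ e).sum = (((s.map fun e => b ^ e).sum : ℕ) : ℤ) := by
      rw [Nat.cast_multiset_sum, Multiset.map_map]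
      exact congrArg Multiset.sum (Multiset.map_congr rfl fun e _ => by simp)
    rw [e1]
    exact_mod_cast hs'
  have hf1 : f.eval 1 = (u : ℤ) := by
    rw [hf, eval_multiset_X_pow]
    simp [hs]
  have hne : ∀ z ∈ primitiveRoots d ℂ, (f.map (Int.castRingHom ℂ)).eval z ≠ 0 := by
    intro z hz h0
    rw [eval_ne_zero_iff_not_dvd hd0 hz] at h0
    obtain ⟨g, hg⟩ := h0
    have h1 := congrArg (Polynomial.eval 1) hg
    have : Fact q.Prime := ⟨hq⟩
    rw [hf1, eval_mul, hd, eval_one_cyclotomic_prime_pow] at h1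
    exact hu (by exact_mod_cast (Dvd.intro _ h1.symm : (q : ℤ) ∣ (u : ℤ)))
  have h1 := le_pn hd0 h f hfb hne
  have h2 : pn d f ≤ (u : ℝ) ^ Nat.totient d := by
    unfold pn
    have h3 : ∏ z ∈ primitiveRoots d ℂ, ‖(f.map (Int.castRingHom ℂ)).eval z‖ ≤
        ∏ z ∈ primitiveRoots d ℂ, (u : ℝ) := by
      apply Finset.prod_le_prod
      · intro z _; exact norm_nonneg _
      · intro z hz
        have := norm_eval_multiset_le s (Complex.norm_eq_one_of_pow_eq_one
          (isPrimitiveRoot_of_mem_primitiveRoots hz).pow_eq_one hd0.ne')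
        rw [hs] at this
        exact this
    rw [Finset.prod_const, Complex.card_primitiveRoots] at h3
    exact h3
  exact_mod_cast h1.trans h2

theorem core_le_pow {b n q k : ℕ} (h : Admissible b n) (hq : q.Prime)
    (hd : (core b n : ℤ) ∣ (cyclotomic (q ^ (k + 1)) ℤ).eval (b : ℤ)) :
    core b n ≤ (F b n + 2) ^ Nat.totient (q ^ (k + 1)) := by
  have hF := rep_of_F_lt h (u := F b n + 1) (by omega)
  have hF2 := rep_of_F_lt h (u := F b n + 2) (by omega)
  by_cases h1 : q ∣ F b n + 1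
  · have h2 : ¬ q ∣ F b n + 2 := by
      intro h3
      have h4 : q ∣ 1 := (Nat.dvd_add_right h1).1 (by simpa [add_assoc] using h3)
      exact hq.one_lt.ne' (Nat.dvd_one.1 h4)
    exact le_pow_of_rep hq hd h2 hF2
  · exact (le_pow_of_rep hq hd h1 hF).trans (Nat.pow_le_pow_left (by omega) _)

/-! ### the division step -/

lemma eval_one_cyc {q k : ℕ} (hq : q.Prime) : (cyclotomic (q ^ (k + 1)) ℤ).eval 1 = (q : ℤ) := by
  have : Fact q.Prime := ⟨hq⟩
  exact eval_one_cyclotomic_prime_pow (R := ℤ) k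

lemma l1_cyclotomic {q k : ℕ} (hq : q.Prime) : l1 (cyclotomic (q ^ (k + 1)) ℤ) = (q : ℤ) := by
  have hnn : ∀ i, 0 ≤ (cyclotomic (q ^ (k + 1)) ℤ).coeff i := by
    intro i
    rw [cyclotomic_prime_pow_eq_geom_sum hq, finset_sum_coeff]
    apply Finset.sum_nonneg
    intro j _
    rw [← pow_mul, coeff_X_pow]
    split_ifs <;> norm_num
  rw [← eval_one_cyc (k := k) hq, eval_eq_sum_range, l1_eq (Nat.lt_succ_self _)]
  apply Finset.sum_congr rfl
  intro i _
  rw [abs_of_nonneg (hnn i)]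
  simp

theorem div_step {b m q k : ℕ} (hq : q.Prime) (hb : 1 ≤ b) (hcp : Nat.Coprime (b - 1) m)
    (h : (m : ℤ) ∣ (cyclotomic (q ^ (k + 1)) ℤ).eval (b : ℤ)) {z : ℤ[X]}
    (hdeg : z.natDegree < Nat.totient (q ^ (k + 1))) (hz : (m : ℤ) ∣ z.eval (b : ℤ))
    (hz1 : (q : ℤ) ∣ z.eval 1)
    (hne : ∀ ζ ∈ primitiveRoots (q ^ (k + 1)) ℂ, (z.map (Int.castRingHom ℂ)).eval ζ ≠ 0) :
    ∃ w : ℤ[X], w.natDegree < Nat.totient (q ^ (k + 1)) ∧ (m : ℤ) ∣ w.eval (b : ℤ) ∧
      (∀ ζ ∈ primitiveRoots (q ^ (k + 1)) ℂ, (w.map (Int.castRingHom ℂ)).eval ζ ≠ 0) ∧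
      pn (q ^ (k + 1)) z = q * pn (q ^ (k + 1)) w ∧
      l1 w ≤ 2 * Nat.totient (q ^ (k + 1)) * l1 z := by
  set d := q ^ (k + 1) with hd
  set Φ : ℤ[X] := cyclotomic d ℤ with hΦ
  have hd0 : 0 < d := Nat.pos_of_ne_zero (by rw [hd]; exact pow_ne_zero _ hq.ne_zero)
  have hφ0 : 0 < Nat.totient d := Nat.totient_pos.2 hd0
  obtain ⟨e, he⟩ := hz1
  set Z : ℤ[X] := z - C e * Φ with hZ
  have hZ1 : Z.eval 1 = 0 := by
    rw [hZ, eval_sub, eval_mul, eval_C, hΦ, hd, eval_one_cyc hq, he]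
    ring
  have hZdeg : Z.natDegree ≤ Nat.totient d := by
    rw [hZ]
    refine (natDegree_sub_le _ _).trans (max_le hdeg.le ?_)
    refine (natDegree_C_mul_le _ _).trans ?_
    rw [hΦ, natDegree_cyclotomic]
  set w : ℤ[X] := Z /ₘ (X - C 1) with hw
  have hmul : (X - C 1) * w = Z := (mul_divByMonic_eq_iff_isRoot).2 hZ1
  refine ⟨w, ?_, ?_, ?_, ?_, ?_⟩
  · rw [hw, natDegree_divByMonic Z (monic_X_sub_C 1), natDegree_X_sub_C]
    omega
  · have h1 : ((b : ℤ) - 1) * w.eval (b : ℤ) = z.eval (b : ℤ) - e * Φ.eval (b : ℤ) := by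
      have := congrArg (Polynomial.eval (b : ℤ)) hmul
      rw [hZ, eval_mul, eval_sub, eval_X, eval_C, eval_sub, eval_mul, eval_C] at this
      exact this
    have h2 : (m : ℤ) ∣ ((b : ℤ) - 1) * w.eval (b : ℤ) := by
      rw [h1]
      exact dvd_sub hz (h.mul_left _)
    have h3 : IsCoprime (m : ℤ) ((b : ℤ) - 1) := by
      have h4 := (Nat.isCoprime_iff_coprime.2 hcp.symm)
      rw [Nat.cast_sub hb] at h4
      simpa using h4
    exact h3.dvd_of_dvd_mul_left h2
  · intro ζ hζ h0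
    apply hne ζ hζ
    have h1 : (Φ.map (Int.castRingHom ℂ)).eval ζ = 0 :=
      (eval_ne_zero_iff_not_dvd hd0 hζ).2 dvd_rfl
    have h2 := congrArg (fun p : ℤ[X] => (p.map (Int.castRingHom ℂ)).eval ζ) hmul
    simp only [hZ, Polynomial.map_mul, Polynomial.map_sub, eval_mul, eval_sub, h0, h1,
      mul_zero, sub_zero] at h2
    exact h2.symm
  · have h1 : pn d Z = pn d z := by
      unfold pn
      apply Finset.prod_congr rfl
      intro ζ hζ
      have h1 : (Φ.map (Int.castRingHom ℂ)).eval ζ = 0 :=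
        (eval_ne_zero_iff_not_dvd hd0 hζ).2 dvd_rfl
      rw [hZ, Polynomial.map_sub, Polynomial.map_mul, eval_sub, eval_mul, h1, mul_zero, sub_zero]
    rw [← h1, ← hmul, pn_mul, hd, pn_X_sub_one hq]
  · have hwdeg : w.natDegree < Nat.totient d := by
      rw [hw, natDegree_divByMonic Z (monic_X_sub_C 1), natDegree_X_sub_C]
      omega
    have h1 : ∀ n, |w.coeff n| ≤ l1 Z := by
      intro n
      rw [hw, coeff_divByMonic_X_sub_C]
      refine (Finset.abs_sum_le_sum_abs _ _).trans ?_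
      have : ∑ i ∈ Finset.Icc (n + 1) Z.natDegree, |(1 : ℤ) ^ (i - (n + 1)) * Z.coeff i| =
          ∑ i ∈ Finset.Icc (n + 1) Z.natDegree, |Z.coeff i| := by
        apply Finset.sum_congr rfl
        intro i _
        rw [one_pow, one_mul]
      rw [this]
      exact abs_coeff_le_l1 Z _
    have h2 : l1 w ≤ Nat.totient d * l1 Z := by
      rw [l1_eq hwdeg]
      refine (Finset.sum_le_sum fun i _ => h1 i).trans (le_of_eq ?_)
      rw [Finset.sum_const, Finset.card_range, nsmul_eq_mul]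
    have h3 : l1 Z ≤ 2 * l1 z := by
      have h4 : l1 Z ≤ l1 z + |e| * (q : ℤ) := by
        rw [hZ]
        refine (l1_sub_le _ _).trans ?_
        rw [l1_C_mul, hΦ, hd, l1_cyclotomic hq]
      have h5 : |e| * (q : ℤ) = |z.eval 1| := by
        rw [he, abs_mul, mul_comm]
        simp
      have h6 := abs_eval_one_le z
      rw [h5] at h4
      linarith
    have h7 : (0 : ℤ) ≤ (Nat.totient d : ℤ) := by positivity
    nlinarith [mul_le_mul_of_nonneg_left h3 h7]

/-- iterating the division step -/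
theorem exists_good {b m q k : ℕ} (hq : q.Prime) (hb : 1 ≤ b) (hcp : Nat.Coprime (b - 1) m)
    (h : (m : ℤ) ∣ (cyclotomic (q ^ (k + 1)) ℤ).eval (b : ℤ)) (j : ℕ) :
    ∀ z : ℤ[X], z.natDegree < Nat.totient (q ^ (k + 1)) → (m : ℤ) ∣ z.eval (b : ℤ) →
    (∀ ζ ∈ primitiveRoots (q ^ (k + 1)) ℂ, (z.map (Int.castRingHom ℂ)).eval ζ ≠ 0) →
    pn (q ^ (k + 1)) z < m * q ^ j →
    ∃ w : ℤ[X], (m : ℤ) ∣ w.eval (b : ℤ) ∧ ¬ (q : ℤ) ∣ w.eval 1 ∧
      l1 w ≤ (2 * Nat.totient (q ^ (k + 1))) ^ j * l1 z := by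
  have hd0 : 0 < q ^ (k + 1) := Nat.pos_of_ne_zero (pow_ne_zero _ hq.ne_zero)
  have hφ0 : 0 < Nat.totient (q ^ (k + 1)) := Nat.totient_pos.2 hd0
  have hqR : (0 : ℝ) < q := by exact_mod_cast hq.pos
  induction j with
  | zero =>
    intro z hdeg hz hne hp
    exfalso
    have := le_pn hd0 h z hz hne
    rw [pow_zero, mul_one] at hp
    linarith
  | succ j ih =>
    intro z hdeg hz hne hp
    by_cases hz1 : (q : ℤ) ∣ z.eval 1
    · obtain ⟨w, hw1, hw2, hw3, hw4, hw5⟩ := div_step hq hb hcp h hdeg hz hz1 hne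
      have hp' : pn (q ^ (k + 1)) w < m * q ^ j := by
        rw [hw4, pow_succ (q : ℝ) j, ← mul_assoc, mul_comm (q : ℝ)] at hp
        exact lt_of_mul_lt_mul_right hp hqR.le
      obtain ⟨v, hv1, hv2, hv3⟩ := ih w hw1 hw2 hw3 hp'
      refine ⟨v, hv1, hv2, hv3.trans ?_⟩
      rw [pow_succ (2 * (Nat.totient (q ^ (k + 1)) : ℤ)) j, mul_assoc]
      exact mul_le_mul_of_nonneg_left hw5 (by positivity)
    · refine ⟨z, hz, hz1, ?_⟩
      have h1 : (1 : ℤ) ≤ (2 * Nat.totient (q ^ (k + 1))) ^ (j + 1) := by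
        apply one_le_pow₀
        have : (1 : ℤ) ≤ (Nat.totient (q ^ (k + 1)) : ℤ) := by exact_mod_cast hφ0
        linarith
      have h2 := l1_nonneg z
      nlinarith

end Pool.Agent.MPd7e141
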