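import Pool.Agent.Lib.MP_d7e141_nt.Grow2

/-!
# MP_d7e141_nt : growth of `F` for cyclotomic cores of prime power order, part 3
-/

namespace Pool.Agent.MPd7e141

open Polynomial

/-- pigeonhole: a short nonzero polynomial vanishing at `b` modulo `m` -/
theorem exists_short {b m φ Y : ℕ} (hm : 0 < m) (hφ : 0 < φ) (hY : m < (Y + 1) ^ φ) :
    ∃ z : ℤ[X], z ≠ 0 ∧ z.natDegree < φ ∧ (m : ℤ) ∣ z.eval (b : ℤ) ∧ l1 z ≤ φ * Y := by
  have : NeZero m := ⟨hm.ne'⟩
  obtain ⟨v, v', hne, heq⟩ := Fintype.exists_ne_map_eq_of_card_lt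
    (fun v : Fin φ → Fin (Y + 1) => (∑ i, ((v i : ℕ) : ZMod m) * (b : ZMod m) ^ (i : ℕ)))
    (by rw [ZMod.card, Fintype.card_fun, Fintype.card_fin, Fintype.card_fin]; exact hY)
  set a : Fin φ → ℤ := fun i => ((v i : ℕ) : ℤ) - ((v' i : ℕ) : ℤ) with ha
  set z : ℤ[X] := ∑ i : Fin φ, monomial (i : ℕ) (a i) with hz
  have hcoeff : ∀ i : Fin φ, z.coeff (i : ℕ) = a i := by
    intro i
    rw [hz, finset_sum_coeff]
    rw [Finset.sum_eq_single i]
    · simp
    · intro j _ hj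
      rw [coeff_monomial, if_neg]
      intro h
      exact hj (Fin.ext h)
    · intro h; exact absurd (Finset.mem_univ i) h
  have hcoeff0 : ∀ n : ℕ, φ ≤ n → z.coeff n = 0 := by
    intro n hn
    rw [hz, finset_sum_coeff]
    apply Finset.sum_eq_zero
    intro j _
    rw [coeff_monomial, if_neg]
    have := j.2
    omega
  have hdeg : z.natDegree < φ := by
    have h1 : z.natDegree ≤ φ - 1 :=
      natDegree_le_iff_coeff_eq_zero.2 fun n hn => hcoeff0 n (by omega)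
    omega
  refine ⟨z, ?_, hdeg, ?_, ?_⟩
  · intro h0
    apply hne
    funext i
    have h1 := hcoeff i
    rw [h0, coeff_zero] at h1
    have h2 : ((v i : ℕ) : ℤ) = ((v' i : ℕ) : ℤ) := by
      have : a i = 0 := h1.symm
      rw [ha] at this
      simp only at this
      linarith
    exact Fin.ext (by exact_mod_cast h2)
  · have h1 : z.eval (b : ℤ) = ∑ i : Fin φ, a i * (b : ℤ) ^ (i : ℕ) := by
      rw [hz, eval_finsetSum]
      apply Finset.sum_congr rfl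
      intro i _
      rw [eval_monomial]
    have h2 : ((z.eval (b : ℤ) : ℤ) : ZMod m) = 0 := by
      rw [h1]
      push_cast
      rw [ha]
      push_cast
      simp only [sub_mul, Finset.sum_sub_distrib]
      rw [sub_eq_zero]
      exact heq
    exact (ZMod.intCast_zmod_eq_zero_iff_dvd _ _).1 h2
  · rw [l1_eq hdeg, ← Fin.sum_univ_eq_sum_range (fun i => |z.coeff i|)]
    have h1 : ∀ i : Fin φ, |z.coeff (i : ℕ)| ≤ (Y : ℤ) := by
      intro i
      rw [hcoeff i, ha, abs_le]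
      have h1 := (v i).2
      have h2 := (v' i).2
      constructor <;> simp only <;> omega
    refine (Finset.sum_le_sum fun i _ => h1 i).trans (le_of_eq ?_)
    rw [Finset.sum_const, Finset.card_univ, Fintype.card_fin, nsmul_eq_mul]

/-- one monomial as a sum of powers with nonnegative multiplicities -/
lemma exists_ms {b m q c : ℕ} (hq : 2 ≤ q)
    (hT : (m : ℤ) ∣ ∑ l ∈ Finset.range q, (b : ℤ) ^ (l * c)) (a : ℤ) (i : ℕ) :
    ∃ s : Multiset ℕ, (m : ℤ) ∣ (s.map fun e => (b : ℤ) ^ e).sum - a * (b : ℤ) ^ i ∧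
      (q : ℤ) ∣ (s.card : ℤ) - a ∧ (s.card : ℤ) ≤ ((q : ℤ) - 1) * |a| := by
  have hq1 : (1 : ℤ) ≤ (q : ℤ) - 1 := by
    have : (2 : ℤ) ≤ q := by exact_mod_cast hq
    linarith
  rcases le_or_gt 0 a with ha | ha
  · refine ⟨Multiset.replicate a.toNat i, ?_, ?_, ?_⟩
    · rw [Multiset.map_replicate, Multiset.sum_replicate, nsmul_eq_mul]
      rw [Int.toNat_of_nonneg ha]
      simp
    · rw [Multiset.card_replicate, Int.toNat_of_nonneg ha]
      simp
    · rw [Multiset.card_replicate, Int.toNat_of_nonneg ha, abs_of_nonneg ha]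
      nlinarith
  · set n := (-a).toNat with hn
    have hna : (n : ℤ) = -a := by rw [hn, Int.toNat_of_nonneg (by linarith)]
    set U : Multiset ℕ := (Multiset.range (q - 1)).map fun l => i + (l + 1) * c with hU
    have hUs : (U.map fun e => (b : ℤ) ^ e).sum =
        (b : ℤ) ^ i * (∑ l ∈ Finset.range q, (b : ℤ) ^ (l * c) - 1) := by
      rw [hU, Multiset.map_map]
      have h1 : ((Multiset.range (q - 1)).map ((fun e => (b : ℤ) ^ e) ∘ fun l => i + (l + 1) * c)).sum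
          = ∑ l ∈ Finset.range (q - 1), (b : ℤ) ^ (i + (l + 1) * c) := rfl
      rw [h1]
      have h2 : ∑ l ∈ Finset.range q, (b : ℤ) ^ (l * c) =
          ∑ l ∈ Finset.range (q - 1), (b : ℤ) ^ ((l + 1) * c) + 1 := by
        obtain ⟨r, rfl⟩ : ∃ r, q = r + 1 := ⟨q - 1, by omega⟩
        rw [Finset.sum_range_succ']
        simp
      rw [h2, add_sub_cancel_right, Finset.mul_sum]
      apply Finset.sum_congr rfl
      intro l _
      rw [pow_add]
    refine ⟨n • U, ?_, ?_, ?_⟩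
    · rw [Multiset.map_nsmul, Multiset.sum_nsmul, hUs, nsmul_eq_mul, hna]
      have h1 : -a * ((b : ℤ) ^ i * (∑ l ∈ Finset.range q, (b : ℤ) ^ (l * c) - 1)) -
          a * (b : ℤ) ^ i = (-a * (b : ℤ) ^ i) * ∑ l ∈ Finset.range q, (b : ℤ) ^ (l * c) := by
        ring
      rw [h1]
      exact hT.mul_left _
    · rw [Multiset.card_nsmul, hU, Multiset.card_map, Multiset.card_range]
      push_cast [Nat.cast_sub (by omega : 1 ≤ q)]
      rw [hna]
      exact ⟨-a, by ring⟩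
    · rw [Multiset.card_nsmul, hU, Multiset.card_map, Multiset.card_range]
      push_cast [Nat.cast_sub (by omega : 1 ≤ q)]
      rw [hna, abs_of_neg ha]
      linarith

/-- a polynomial as a sum of powers with nonnegative multiplicities -/
lemma exists_ms_poly {b m q c : ℕ} (hq : 2 ≤ q)
    (hT : (m : ℤ) ∣ ∑ l ∈ Finset.range q, (b : ℤ) ^ (l * c)) (w : ℤ[X])
    (hw : (m : ℤ) ∣ w.eval (b : ℤ)) :
    ∃ u : ℕ, Rep b m u ∧ (q : ℤ) ∣ (u : ℤ) - w.eval 1 ∧ (u : ℤ) ≤ ((q : ℤ) - 1) * l1 w := by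
  choose s hs1 hs2 hs3 using fun i => exists_ms hq hT (w.coeff i) i
  set N := w.natDegree + 1 with hN
  have hNdeg : w.natDegree < N := Nat.lt_succ_self _
  set S : Multiset ℕ := ∑ i ∈ Finset.range N, s i with hS
  have hcard : ((Multiset.card S : ℕ) : ℤ) = ∑ i ∈ Finset.range N, ((s i).card : ℤ) := by
    rw [hS, Multiset.card_sum]
    push_cast
    rfl
  have hsum : (S.map fun e => (b : ℤ) ^ e).sum =
      ∑ i ∈ Finset.range N, ((s i).map fun e => (b : ℤ) ^ e).sum := by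
    rw [hS]
    generalize Finset.range N = t
    induction t using Finset.induction_on with
    | empty => simp
    | insert a t ha ih =>
      rw [Finset.sum_insert ha, Finset.sum_insert ha, Multiset.map_add, Multiset.sum_add, ih]
  refine ⟨Multiset.card S, ⟨S, rfl, ?_⟩, ?_, ?_⟩
  · have h1 : (m : ℤ) ∣ (S.map fun e => (b : ℤ) ^ e).sum := by
      have h2 : (S.map fun e => (b : ℤ) ^ e).sum = ∑ i ∈ Finset.range N,
          (((s i).map fun e => (b : ℤ) ^ e).sum - w.coeff i * (b : ℤ) ^ i) + w.eval (b : ℤ) := by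
        rw [hsum, eval_eq_sum_range, Finset.sum_sub_distrib]
        ring
      rw [h2]
      exact dvd_add (Finset.dvd_sum fun i _ => hs1 i) hw
    have e1 : (S.map fun e => (b : ℤ) ^ e).sum = (((S.map fun e => b ^ e).sum : ℕ) : ℤ) := by
      rw [Nat.cast_multiset_sum, Multiset.map_map]
      exact congrArg Multiset.sum (Multiset.map_congr rfl fun e _ => by simp)
    rw [e1] at h1
    exact_mod_cast h1
  · rw [hcard, eval_eq_sum_range]
    have : ∑ i ∈ Finset.range N, ((s i).card : ℤ) -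
        ∑ i ∈ Finset.range (w.natDegree + 1), w.coeff i * (1 : ℤ) ^ i =
        ∑ i ∈ Finset.range N, (((s i).card : ℤ) - w.coeff i) := by
      rw [Finset.sum_sub_distrib]
      simp [hN]
    rw [this]
    exact Finset.dvd_sum fun i _ => hs2 i
  · rw [hcard, l1_eq hNdeg, Finset.mul_sum]
    exact Finset.sum_le_sum fun i _ => hs3 i

lemma rep_nsmul {b m u : ℕ} (h : Rep b m u) (j : ℕ) : Rep b m (j * u) := by
  induction j with
  | zero => simpa using Rep.zero b m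
  | succ j ih => rw [Nat.succ_mul]; exact ih.add h

/-- two representable lengths `q`, `c₁` with `q` prime, `q ∤ c₁` -/
lemma rep_of_two {b m q c₁ : ℕ} (hq : q.Prime) (hrq : Rep b m q) (hr : Rep b m c₁)
    (hc : ¬ q ∣ c₁) {u : ℕ} (hu : (q - 1) * c₁ ≤ u) : Rep b m u := by
  have hcop : Nat.Coprime c₁ q := ((Nat.Prime.coprime_iff_not_dvd hq).2 hc).symm
  have : NeZero q := ⟨hq.ne_zero⟩
  set j := ((u : ZMod q) * (c₁ : ZMod q)⁻¹).val with hj
  have hjq : j < q := ZMod.val_lt _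
  have h1 : j * c₁ ≡ u [MOD q] := by
    rw [← ZMod.natCast_eq_natCast_iff]
    push_cast
    rw [hj, ZMod.natCast_val, ZMod.cast_id, mul_assoc, mul_comm _ (c₁ : ZMod q),
      ZMod.coe_mul_inv_eq_one c₁ hcop, mul_one]
  have h2 : j * c₁ ≤ u := (Nat.mul_le_mul_right c₁ (by omega : j ≤ q - 1)).trans hu
  obtain ⟨t, ht⟩ := (Nat.modEq_iff_dvd' h2).1 h1
  have h3 : u = j * c₁ + t * q := by rw [mul_comm t q, ← ht]; omega
  rw [h3]
  exact (rep_nsmul hr j).add (rep_nsmul hrq t)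

theorem F_le_growth {b n q k : ℕ} (h : Admissible b n) (hq : q.Prime)
    (hd : (core b n : ℤ) ∣ (cyclotomic (q ^ (k + 1)) ℤ).eval (b : ℤ)) :
    (F b n : ℝ) ≤ ((q : ℝ) - 1) ^ 2 * Nat.totient (q ^ (k + 1)) *
      (2 * Nat.totient (q ^ (k + 1))) ^ (Nat.totient (q ^ (k + 1)) ^ 2) *
      (core b n : ℝ) ^ (1 / (Nat.totient (q ^ (k + 1)) : ℝ)) := by
  set d := q ^ (k + 1) with hdd
  set m := core b n with hmm
  have hd0 : 0 < d := Nat.pos_of_ne_zero (by rw [hdd]; exact pow_ne_zero _ hq.ne_zero)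
  set φ := Nat.totient d with hφ
  have hφ0 : 0 < φ := Nat.totient_pos.2 hd0
  have hm : 0 < m := core_pos h.pos
  have hmR : (0 : ℝ) < m := by exact_mod_cast hm
  have hφR : (0 : ℝ) < φ := by exact_mod_cast hφ0
  -- the integer part of the φ-th root
  set x : ℝ := (m : ℝ) ^ (1 / (φ : ℝ)) with hx
  have hx0 : 0 ≤ x := Real.rpow_nonneg hmR.le _
  have hxφ : x ^ φ = m := by
    rw [hx, ← Real.rpow_natCast, ← Real.rpow_mul hmR.le, one_div, inv_mul_cancel₀ hφR.ne',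
      Real.rpow_one]
  set Y := ⌊x⌋₊ with hY
  have hY1 : (Y : ℝ) ≤ x := Nat.floor_le hx0
  have hY2 : m < (Y + 1) ^ φ := by
    have h1 : x < (Y : ℝ) + 1 := Nat.lt_floor_add_one x
    have h2 : x ^ φ < ((Y : ℝ) + 1) ^ φ := pow_lt_pow_left₀ h1 hx0 hφ0.ne'
    rw [hxφ] at h2
    exact_mod_cast h2
  obtain ⟨z, hz0, hzdeg, hzb, hzl⟩ := exists_short (b := b) hm hφ0 hY2
  have hne : ∀ ζ ∈ primitiveRoots d ℂ, (z.map (Int.castRingHom ℂ)).eval ζ ≠ 0 := by
    intro ζ hζ h0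
    rw [eval_ne_zero_iff_not_dvd hd0 hζ] at h0
    have h1 := natDegree_le_of_dvd h0 hz0
    rw [natDegree_cyclotomic] at h1
    omega
  have hzl' : (l1 z : ℝ) ≤ (φ : ℝ) * Y := by exact_mod_cast hzl
  have hpn : pn d z < m * q ^ (φ ^ 2) := by
    have h1 := pn_le hd0 z
    have h2 : (l1 z : ℝ) ^ φ ≤ ((φ : ℝ) * x) ^ φ := by
      apply pow_le_pow_left₀ (by exact_mod_cast l1_nonneg z)
      exact hzl'.trans (mul_le_mul_of_nonneg_left hY1 hφR.le)
    rw [mul_pow, hxφ] at h2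
    have h3 : (φ : ℝ) ^ φ < (q : ℝ) ^ (φ ^ 2) := by
      have h4 : φ ^ φ < q ^ (φ ^ 2) := by
        calc φ ^ φ < (2 ^ φ) ^ φ := Nat.pow_lt_pow_left Nat.lt_two_pow_self hφ0.ne'
          _ = 2 ^ (φ ^ 2) := by rw [← pow_mul, sq]
          _ ≤ q ^ (φ ^ 2) := Nat.pow_le_pow_left hq.two_le _
      exact_mod_cast h4
    calc pn d z ≤ (l1 z : ℝ) ^ φ := h1
      _ ≤ (φ : ℝ) ^ φ * m := h2
      _ < (q : ℝ) ^ (φ ^ 2) * m := mul_lt_mul_of_pos_right h3 hmR
      _ = m * q ^ (φ ^ 2) := mul_comm _ _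
  have hb1 : 1 ≤ b := by have := h.two_le; omega
  obtain ⟨w, hw1, hw2, hw3⟩ := exists_good hq hb1 h.coprime_pred hd (φ ^ 2) z hzdeg hzb hne hpn
  -- the relation `∑ b^{l c} ≡ 0`
  have hT : (m : ℤ) ∣ ∑ l ∈ Finset.range q, (b : ℤ) ^ (l * q ^ k) := by
    have h1 : (cyclotomic d ℤ).eval (b : ℤ) = ∑ l ∈ Finset.range q, (b : ℤ) ^ (l * q ^ k) := by
      rw [hdd, cyclotomic_prime_pow_eq_geom_sum hq, eval_finsetSum]
      apply Finset.sum_congr rfl
      intro l _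
      rw [eval_pow, eval_pow, eval_X, ← pow_mul, mul_comm]
    rw [← h1]
    exact hd
  obtain ⟨c₁, hr, hcq, hcle⟩ := exists_ms_poly hq.two_le hT w hw1
  have hrq : Rep b m q := rep_prime_of_cyclotomic hd0 hq (Dvd.intro_left _ (pow_succ q k).symm) hd
  have hqc : ¬ q ∣ c₁ := by
    intro h1
    apply hw2
    have h2 : (q : ℤ) ∣ (c₁ : ℤ) := by exact_mod_cast h1
    have h3 := dvd_sub h2 hcq
    simpa using h3
  have hF : F b n ≤ (q - 1) * c₁ :=
    F_le h fun u hu => rep_of_two hq hrq hr hqc hu.le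
  have hq1 : (0 : ℝ) ≤ (q : ℝ) - 1 := by
    have : (1 : ℝ) ≤ q := by exact_mod_cast hq.one_lt.le
    linarith
  have h1 : (F b n : ℝ) ≤ ((q : ℝ) - 1) * c₁ := by
    have h2 : (F b n : ℝ) ≤ (((q - 1) * c₁ : ℕ) : ℝ) := by exact_mod_cast hF
    rw [Nat.cast_mul, Nat.cast_sub hq.one_lt.le] at h2
    simpa using h2
  have h2 : (c₁ : ℝ) ≤ ((q : ℝ) - 1) * (l1 w : ℝ) := by exact_mod_cast hcle
  have h3 : (l1 w : ℝ) ≤ (2 * φ) ^ (φ ^ 2) * (l1 z : ℝ) := by exact_mod_cast hw3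
  have h4 : (l1 z : ℝ) ≤ φ * x := hzl'.trans (mul_le_mul_of_nonneg_left hY1 hφR.le)
  calc (F b n : ℝ) ≤ ((q : ℝ) - 1) * c₁ := h1
    _ ≤ ((q : ℝ) - 1) * (((q : ℝ) - 1) * (l1 w : ℝ)) := mul_le_mul_of_nonneg_left h2 hq1
    _ ≤ ((q : ℝ) - 1) * (((q : ℝ) - 1) * ((2 * φ) ^ (φ ^ 2) * (l1 z : ℝ))) := by gcongr
    _ ≤ ((q : ℝ) - 1) * (((q : ℝ) - 1) * ((2 * φ) ^ (φ ^ 2) * (φ * x))) := by gcongr
    _ = _ := by ring

theorem growth_lower {b n q k : ℕ} (h : Admissible b n) (hq : q.Prime)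
    (hd : (core b n : ℤ) ∣ (cyclotomic (q ^ (k + 1)) ℤ).eval (b : ℤ)) :
    (core b n : ℝ) ^ (1 / (Nat.totient (q ^ (k + 1)) : ℝ)) - 2 ≤ F b n := by
  have h1 := core_le_pow h hq hd
  have hd0 : 0 < q ^ (k + 1) := Nat.pos_of_ne_zero (pow_ne_zero _ hq.ne_zero)
  have hφ0 : 0 < Nat.totient (q ^ (k + 1)) := Nat.totient_pos.2 hd0
  have hφR : (0 : ℝ) < Nat.totient (q ^ (k + 1)) := by exact_mod_cast hφ0
  have h2 : (core b n : ℝ) ≤ ((F b n : ℝ) + 2) ^ (Nat.totient (q ^ (k + 1)) : ℝ) := by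
    rw [Real.rpow_natCast]
    exact_mod_cast h1
  have h3 : (core b n : ℝ) ^ (1 / (Nat.totient (q ^ (k + 1)) : ℝ)) ≤ (F b n : ℝ) + 2 := by
    calc (core b n : ℝ) ^ (1 / (Nat.totient (q ^ (k + 1)) : ℝ))
        ≤ (((F b n : ℝ) + 2) ^ (Nat.totient (q ^ (k + 1)) : ℝ)) ^
          (1 / (Nat.totient (q ^ (k + 1)) : ℝ)) :=
          Real.rpow_le_rpow (Nat.cast_nonneg _) h2 (by positivity)
      _ = (F b n : ℝ) + 2 := by
          rw [← Real.rpow_mul (by positivity), mul_one_div, div_self hφR.ne', Real.rpow_one]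
  linarith

end Pool.Agent.MPd7e141
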