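import Pool.Agent.Lib.MP_d7e141_nt.Classes

/-!
FD-LamLeung (MP_d7e141_nt). The Lam–Leung theorem: lengths of vanishing sums of d-th roots of unity.
`relLength` by strong induction on m.  S(m) = closure of the primes dividing m.  μ_m = m-th roots of unity.
* m = 1: all elements are 1, sums = cards, so card α = card β, s = 0.
* m > 1. CASE A: there is a prime q ∣ m with P2 ≤ q. Put p = q, m = m' p.
  CASE B: otherwise every prime dividing m is P1, p = P1, m = m' p.
  - If p ∣ m' (in case A or B): for every ω in μ_p choose y_ω with y_ω^{m'} = ω (y_ω in μ_m; exists, ℂ alg. closed) — then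
    y_ω⁻¹ · cls m' α ω ⊂ μ_{m'}, same for β, equal sums (`cls_sum_eq_of_dvd`). Apply the induction hypothesis to each ω
    (the condition on primes is inherited, S(m') ≤ S(m)). If for some ω the second alternative holds, then it holds for (α,β)
    (cards of classes ≤ cards). Otherwise sum over ω (`sum_card_cls`): card α = card β + ∑ s_ω.
  - CASE B, p ∤ m': then m' = 1, m = P1. `cls_sum_eq_of_not_dvd` with m' = 1: for y in μ_p, cls 1 α y consists of x_y copies of y,
    x_y·y = x'_y·y + γ y, so x_y - x'_y = γ for all y in μ_p. If x_y ≥ x'_y (for one, so all y): card α = card β + p k. Otherwise x'_y ≥ 1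
    for all p values y, so card β ≥ p = P1 and the second alternative holds.
  - CASE A, p ∤ m', p ≥ P2 ≥ P1.  If card β ≥ P1: second alternative. So card β < P1 ≤ p. γ from `cls_sum_eq_of_not_dvd`. The map y ↦ y^{m'} is a
    bijection of μ_p. Put α_y = y⁻¹ · cls m' α (y^{m'}) ⊂ μ_{m'}, β_y likewise, sum α_y = sum β_y + γ.  I0 = {y : β_y = ∅} is not
    empty (card β < p). c := α_{y0}, y0 in I0 with card minimal; sum c = γ. For every y: sum α_y = sum (c + β_y); apply the induction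
    hypothesis (m') to (α_y, c + β_y).
     * first alternative for all y: card α = ∑ card α_y = p card c + card β + ∑ s_y, and p card c + ∑ s_y ∈ S(m).
     * for some y: P1(P2-1) ≤ card α_y + (P2-1)(card c + card β_y).  Claim: P1(P2-1) ≤ card α + (P2-1) card β. If card c ≥ P2:
       with k = #{y : β_y ≠ ∅} ≤ card β ≤ P1-1: card α + (P2-1) card β ≥ (p-k) P2 + (P2-1) k = p P2 - k ≥ P2² - P1 + 1 ≥ P1(P2-1).
       If card c ≤ P2-1: each y' ≠ y has card α_{y'} + (P2-1) card β_{y'} ≥ card c (β_{y'} = ∅: minimality; else ≥ P2-1), there are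
       p-1 ≥ P2-1 such y', so the total is ≥ card α_y + (P2-1) card β_y + (P2-1) card c ≥ P1(P2-1).
`lam_leung`: d = 1: card = 0. Else P1 = d.minFac. If some prime ≠ P1 divides d let P2 be the least one; `relLength` with β = 0:
first alternative is the claim; second: card ≥ P1(P2-1) > P1 P2 - P1 - P2, P1, P2 coprime, so card in closure {P1,P2}
(`frobeniusNumber_pair`). If d is a power of P1: P2 := P1 + card α + 2, the second alternative is impossible.
-/

namespace Pool.Agent.MPd7e141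

/-- the alternative in the theorem -/
private def LamLeung_Q (P1 P2 m a b : ℕ) : Prop :=
  (∃ s ∈ AddSubmonoid.closure (m.primeFactors : Set ℕ), a = b + s) ∨
    P1 * (P2 - 1) ≤ a + (P2 - 1) * b

/-- scaling -/
private theorem LamLeung_scale {P1 P2 m : ℕ} (IH : ∀ α β : Multiset ℂ, (∀ z ∈ α, z ^ m = 1) →
      (∀ z ∈ β, z ^ m = 1) → α.sum = β.sum → LamLeung_Q P1 P2 m α.card β.card)
    {y : ℂ} (hy : y ≠ 0) {A B : Multiset ℂ} (hA : ∀ z ∈ A, z ^ m = y ^ m)
    (hB : ∀ z ∈ B, z ^ m = y ^ m) (h : A.sum = B.sum) : LamLeung_Q P1 P2 m A.card B.card := by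
  have key : ∀ C : Multiset ℂ, (∀ z ∈ C, z ^ m = y ^ m) →
      (∀ z ∈ C.map (fun z => y⁻¹ * z), z ^ m = 1) ∧
      (C.map (fun z => y⁻¹ * z)).sum = y⁻¹ * C.sum := by
    intro C hC
    constructor
    · intro z hz
      rw [Multiset.mem_map] at hz
      obtain ⟨w, hw, rfl⟩ := hz
      rw [mul_pow, hC w hw, ← mul_pow, inv_mul_cancel₀ hy, one_pow]
    · rw [Multiset.sum_map_mul_left, Multiset.map_id']
  have h1 := IH _ _ (key A hA).1 (key B hB).1 (by rw [(key A hA).2, (key B hB).2, h])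
  rwa [Multiset.card_map, Multiset.card_map] at h1

private theorem LamLeung_mono {P1 P2 m' m a b : ℕ} (hm : m' ∣ m) (hm0 : m ≠ 0)
    (h : LamLeung_Q P1 P2 m' a b) : LamLeung_Q P1 P2 m a b := by
  rcases h with ⟨s, hs, h⟩ | h
  · refine Or.inl ⟨s, ?_, h⟩
    refine AddSubmonoid.closure_mono ?_ hs
    exact_mod_cast Nat.primeFactors_mono hm hm0
  · exact Or.inr h

/-- the counting in the last case -/
private theorem LamLeung_count {P1 P2 : ℕ} (hP1 : 0 < P1) (h12 : P1 ≤ P2) (I : Finset ℂ)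
    (hI : P2 ≤ I.card) (a b : ℂ → ℕ) (hb : ∑ y ∈ I, b y < P1) {y0 : ℂ}
    (hmin : ∀ y ∈ I, b y = 0 → a y0 ≤ a y) {y : ℂ} (hy : y ∈ I)
    (h : P1 * (P2 - 1) ≤ a y + (P2 - 1) * (a y0 + b y)) :
    P1 * (P2 - 1) ≤ ∑ y ∈ I, a y + (P2 - 1) * ∑ y ∈ I, b y := by
  classical
  obtain ⟨Q, rfl⟩ : ∃ Q, P2 = Q + 1 := ⟨P2 - 1, by omega⟩
  simp only [Nat.add_sub_cancel] at h ⊢
  rcases Nat.lt_or_ge Q (a y0) with hc | hc
  · -- `card c ≥ P2`
    set k := (I.filter fun y => b y ≠ 0).card with hk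
    have hk1 : k ≤ ∑ y ∈ I, b y := by
      rw [hk, Finset.card_eq_sum_ones, Finset.sum_filter]
      refine Finset.sum_le_sum fun z _ => ?_
      split_ifs with h1
      · omega
      · omega
    have hk2 : (I.filter fun y => b y = 0).card + k = I.card :=
      Finset.card_filter_add_card_filter_not _
    have ha : (I.filter fun y => b y = 0).card * (Q + 1) ≤ ∑ y ∈ I, a y := by
      calc (I.filter fun y => b y = 0).card * (Q + 1)
          = ∑ _y ∈ I.filter fun y => b y = 0, (Q + 1) := by rw [Finset.sum_const, smul_eq_mul]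
        _ ≤ ∑ y ∈ I.filter fun y => b y = 0, a y := by
            refine Finset.sum_le_sum fun z hz => ?_
            rw [Finset.mem_filter] at hz
            exact le_trans hc (hmin z hz.1 hz.2)
        _ ≤ ∑ y ∈ I, a y := Finset.sum_le_sum_of_subset (Finset.filter_subset _ _)
    set f := (I.filter fun y => b y = 0).card with hf
    have h3 : Q * k ≤ Q * ∑ y ∈ I, b y := Nat.mul_le_mul_left _ hk1
    have h4 : P1 * Q ≤ f * (Q + 1) + Q * k := by
      have h5 : (f + k) * (Q + 1) = f * (Q + 1) + Q * k + k := by ring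
      have h6 : (Q + 1) * (Q + 1) ≤ (f + k) * (Q + 1) := Nat.mul_le_mul_right _ (by omega)
      have h7 : P1 * Q ≤ (Q + 1) * Q := Nat.mul_le_mul_right _ h12
      nlinarith
    omega
  · -- `card c ≤ P2 - 1`
    have h1 : ∀ z ∈ I.erase y, a y0 ≤ a z + Q * b z := by
      intro z hz
      rw [Finset.mem_erase] at hz
      rcases Nat.eq_zero_or_pos (b z) with h2 | h2
      · rw [h2, mul_zero, add_zero]
        exact hmin z hz.2 h2
      · calc a y0 ≤ Q := hc
          _ = Q * 1 := (mul_one _).symm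
          _ ≤ Q * b z := Nat.mul_le_mul_left _ h2
          _ ≤ a z + Q * b z := Nat.le_add_left _ _
    have h2 : Q * a y0 ≤ ∑ z ∈ I.erase y, (a z + Q * b z) := by
      calc Q * a y0 ≤ (I.erase y).card * a y0 := by
            refine Nat.mul_le_mul_right _ ?_
            rw [Finset.card_erase_of_mem hy]
            omega
        _ = ∑ _z ∈ I.erase y, a y0 := by rw [Finset.sum_const, smul_eq_mul]
        _ ≤ _ := Finset.sum_le_sum h1
    have h3 : ∑ z ∈ I, (a z + Q * b z) = ∑ z ∈ I, a z + Q * ∑ z ∈ I, b z := by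
      rw [Finset.sum_add_distrib, Finset.mul_sum]
    rw [← h3, ← Finset.add_sum_erase I _ hy]
    calc P1 * Q ≤ a y + Q * (a y0 + b y) := h
      _ = a y + Q * b y + Q * a y0 := by ring
      _ ≤ _ := Nat.add_le_add_left h2 _

private theorem LamLeung_mem {p : ℕ} (hp : p.Prime) {z : ℂ} :
    z ∈ Polynomial.nthRootsFinset p (1 : ℂ) ↔ z ^ p = 1 :=
  Polynomial.mem_nthRootsFinset hp.pos (1 : ℂ)

private theorem LamLeung_card {p : ℕ} (hp : p.Prime) :
    (Polynomial.nthRootsFinset p (1 : ℂ)).card = p :=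
  (Complex.isPrimitiveRoot_exp p hp.ne_zero).card_nthRootsFinset

private theorem LamLeung_ne {p : ℕ} (hp : p.Prime) {z : ℂ} (h : z ^ p = 1) : z ≠ 0 := by
  rintro rfl
  rw [zero_pow hp.ne_zero] at h
  exact zero_ne_one h

private theorem LamLeung_mem_cls {m' : ℕ} {α : Multiset ℂ} {ω z : ℂ} :
    z ∈ cls m' α ω ↔ z ∈ α ∧ z ^ m' = ω := by
  unfold cls
  exact Multiset.mem_filter

private theorem LamLeung_cls_le {m' : ℕ} {α : Multiset ℂ} {ω : ℂ} :
    (cls m' α ω).card ≤ α.card := by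
  unfold cls
  exact Multiset.card_le_card (Multiset.filter_le _ _)

/-- the power map permutes the `p`-th roots of unity -/
private theorem LamLeung_perm {m' p : ℕ} (hp : p.Prime) (hpm : ¬ p ∣ m') (f : ℂ → ℕ) :
    ∑ y ∈ Polynomial.nthRootsFinset p (1 : ℂ), f (y ^ m') =
      ∑ ω ∈ Polynomial.nthRootsFinset p (1 : ℂ), f ω := by
  have hcop : Nat.Coprime m' p := ((Nat.Prime.coprime_iff_not_dvd hp).2 hpm).symm
  obtain ⟨u, -, hu⟩ := Nat.exists_mul_mod_eq_one_of_coprime hcop hp.one_lt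
  have hinv : ∀ y : ℂ, y ^ p = 1 → y ^ (m' * u) = y := by
    intro y hy
    conv_lhs => rw [← Nat.div_add_mod (m' * u) p, hu, pow_add, pow_mul, hy, one_pow, one_mul,
      pow_one]
  have hmap : ∀ (v : ℕ) (y : ℂ), y ^ p = 1 → (y ^ v) ^ p = 1 := by
    intro v y hy
    rw [← pow_mul, mul_comm, pow_mul, hy, one_pow]
  refine Finset.sum_nbij' (fun y => y ^ m') (fun y => y ^ u) ?_ ?_ ?_ ?_ ?_
  · intro y hy
    rw [LamLeung_mem hp] at hy ⊢
    exact hmap m' y hy
  · intro y hy
    rw [LamLeung_mem hp] at hy ⊢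
    exact hmap u y hy
  · intro y hy
    rw [LamLeung_mem hp] at hy
    show (y ^ m') ^ u = y
    rw [← pow_mul, hinv y hy]
  · intro y hy
    rw [LamLeung_mem hp] at hy
    show (y ^ u) ^ m' = y
    rw [← pow_mul, mul_comm, hinv y hy]
  · intro y _
    rfl

/-- the case `p ∣ m'` -/
private theorem LamLeung_dvd {P1 P2 m' p : ℕ} (hm : 0 < m') (hp : p.Prime) (hpm : p ∣ m')
    (IH : ∀ α β : Multiset ℂ, (∀ z ∈ α, z ^ m' = 1) →
      (∀ z ∈ β, z ^ m' = 1) → α.sum = β.sum → LamLeung_Q P1 P2 m' α.card β.card)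
    {α β : Multiset ℂ} (hα : ∀ z ∈ α, z ^ (m' * p) = 1) (hβ : ∀ z ∈ β, z ^ (m' * p) = 1)
    (h : α.sum = β.sum) : LamLeung_Q P1 P2 (m' * p) α.card β.card := by
  classical
  have h1 : ∀ ω ∈ Polynomial.nthRootsFinset p (1 : ℂ),
      LamLeung_Q P1 P2 m' (cls m' α ω).card (cls m' β ω).card := by
    intro ω hω
    rw [LamLeung_mem hp] at hω
    obtain ⟨y, hy⟩ := IsAlgClosed.exists_pow_nat_eq ω hm
    have hy0 : y ≠ 0 := by
      rintro rfl
      rw [zero_pow hm.ne'] at hy
      exact LamLeung_ne hp hω hy.symm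
    refine LamLeung_scale IH hy0 ?_ ?_ (cls_sum_eq_of_dvd hm hp hpm hα hβ h ω)
    · intro z hz
      rw [(LamLeung_mem_cls.1 hz).2, hy]
    · intro z hz
      rw [(LamLeung_mem_cls.1 hz).2, hy]
  by_cases h2 : ∃ ω ∈ Polynomial.nthRootsFinset p (1 : ℂ),
      P1 * (P2 - 1) ≤ (cls m' α ω).card + (P2 - 1) * (cls m' β ω).card
  · obtain ⟨ω, -, h3⟩ := h2
    refine Or.inr (h3.trans ?_)
    exact Nat.add_le_add LamLeung_cls_le (Nat.mul_le_mul_left _ LamLeung_cls_le)
  · push Not at h2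
    have h3 : ∀ ω ∈ Polynomial.nthRootsFinset p (1 : ℂ),
        ∃ s ∈ AddSubmonoid.closure (m'.primeFactors : Set ℕ),
          (cls m' α ω).card = (cls m' β ω).card + s := by
      intro ω hω
      rcases h1 ω hω with h | h
      · exact h
      · exact absurd h (not_le.2 (h2 ω hω))
    choose! s hs hs' using h3
    refine LamLeung_mono (Dvd.intro p rfl) (Nat.mul_ne_zero hm.ne' hp.ne_zero)
      (Or.inl ⟨∑ ω ∈ Polynomial.nthRootsFinset p (1 : ℂ), s ω,
        AddSubmonoid.sum_mem _ fun ω hω => hs ω hω, ?_⟩)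
    rw [← sum_card_cls hm hp hα, ← sum_card_cls hm hp hβ, ← Finset.sum_add_distrib]
    exact Finset.sum_congr rfl hs'

/-- `m` is the prime `P1` -/
private theorem LamLeung_prime {P1 P2 : ℕ} (hp : P1.Prime)
    {α β : Multiset ℂ} (hα : ∀ z ∈ α, z ^ (1 * P1) = 1) (hβ : ∀ z ∈ β, z ^ (1 * P1) = 1)
    (h : α.sum = β.sum) : LamLeung_Q P1 P2 (1 * P1) α.card β.card := by
  classical
  have hpm : ¬ P1 ∣ 1 := fun h => hp.one_lt.ne' (Nat.dvd_one.1 h)
  obtain ⟨γ, hγ⟩ := cls_sum_eq_of_not_dvd one_pos hp hpm hα hβ h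
  have hcls : ∀ (δ : Multiset ℂ) (y : ℂ), (cls 1 δ y).sum = (cls 1 δ y).card * y := by
    intro δ y
    have h1 : cls 1 δ y = Multiset.replicate (cls 1 δ y).card y := by
      rw [Multiset.eq_replicate]
      refine ⟨rfl, fun z hz => ?_⟩
      have := (LamLeung_mem_cls.1 hz).2
      rwa [pow_one] at this
    conv_lhs => rw [h1]
    rw [Multiset.sum_replicate, nsmul_eq_mul]
  have h1 : ∀ y ∈ Polynomial.nthRootsFinset P1 (1 : ℂ),
      ((cls 1 α y).card : ℂ) = (cls 1 β y).card + γ := by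
    intro y hy
    rw [LamLeung_mem hp] at hy
    have h2 := hγ y hy
    rw [pow_one, hcls, hcls, ← add_mul] at h2
    exact mul_right_cancel₀ (LamLeung_ne hp hy) h2
  have hone : (1 : ℂ) ∈ Polynomial.nthRootsFinset P1 (1 : ℂ) := by
    rw [LamLeung_mem hp, one_pow]
  rcases Nat.lt_or_ge (cls 1 α 1).card (cls 1 β 1).card with h3 | h3
  · -- every root occurs in `β`
    right
    have h4 : ∀ y ∈ Polynomial.nthRootsFinset P1 (1 : ℂ), 1 ≤ (cls 1 β y).card := by
      intro y hy
      have e1 := h1 y hy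
      have e2 := h1 1 hone
      have e3 : ((cls 1 α y).card : ℂ) + (cls 1 β 1).card = (cls 1 β y).card + (cls 1 α 1).card := by
        rw [e1, e2]
        ring
      have e4 : (cls 1 α y).card + (cls 1 β 1).card = (cls 1 β y).card + (cls 1 α 1).card := by
        exact_mod_cast e3
      omega
    have h5 : P1 ≤ β.card := by
      rw [← sum_card_cls one_pos hp hβ]
      calc P1 = ∑ _y ∈ Polynomial.nthRootsFinset P1 (1 : ℂ), 1 := by
            rw [Finset.sum_const, LamLeung_card hp, smul_eq_mul, mul_one]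
        _ ≤ _ := Finset.sum_le_sum h4
    calc P1 * (P2 - 1) ≤ β.card * (P2 - 1) := Nat.mul_le_mul_right _ h5
      _ = (P2 - 1) * β.card := mul_comm _ _
      _ ≤ _ := Nat.le_add_left _ _
  · left
    obtain ⟨k, hk⟩ : ∃ k, (cls 1 α 1).card = (cls 1 β 1).card + k := ⟨_, (Nat.add_sub_cancel' h3).symm⟩
    have h4 : ∀ y ∈ Polynomial.nthRootsFinset P1 (1 : ℂ),
        (cls 1 α y).card = (cls 1 β y).card + k := by
      intro y hy
      have e1 := h1 y hy
      have e2 := h1 1 hone
      have e3 : ((cls 1 α y).card : ℂ) + (cls 1 β 1).card = (cls 1 β y).card + (cls 1 α 1).card := by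
        rw [e1, e2]
        ring
      have e4 : (cls 1 α y).card + (cls 1 β 1).card = (cls 1 β y).card + (cls 1 α 1).card := by
        exact_mod_cast e3
      omega
    refine ⟨P1 * k, ?_, ?_⟩
    · have h5 : P1 ∈ AddSubmonoid.closure (((1 * P1).primeFactors : Finset ℕ) : Set ℕ) := by
        refine AddSubmonoid.subset_closure ?_
        rw [one_mul, Nat.Prime.primeFactors hp]
        simp
      have e : P1 * k = k • P1 := by rw [smul_eq_mul, mul_comm]
      rw [e]
      exact AddSubmonoid.nsmul_mem _ h5 k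
    · rw [← sum_card_cls one_pos hp hα, ← sum_card_cls one_pos hp hβ, Finset.sum_congr rfl h4,
        Finset.sum_add_distrib, Finset.sum_const, LamLeung_card hp, smul_eq_mul]

/-- the case of a prime `p ≥ P2`, `p ∤ m'` -/
private theorem LamLeung_not_dvd {P1 P2 m' p : ℕ} (hP1 : 0 < P1) (h12 : P1 ≤ P2) (hm : 0 < m')
    (hp : p.Prime) (hP2 : P2 ≤ p) (hpm : ¬ p ∣ m')
    (IH : ∀ α β : Multiset ℂ, (∀ z ∈ α, z ^ m' = 1) →
      (∀ z ∈ β, z ^ m' = 1) → α.sum = β.sum → LamLeung_Q P1 P2 m' α.card β.card)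
    {α β : Multiset ℂ} (hα : ∀ z ∈ α, z ^ (m' * p) = 1) (hβ : ∀ z ∈ β, z ^ (m' * p) = 1)
    (h : α.sum = β.sum) : LamLeung_Q P1 P2 (m' * p) α.card β.card := by
  classical
  rcases Nat.lt_or_ge β.card P1 with hb | hb
  swap
  · right
    calc P1 * (P2 - 1) ≤ β.card * (P2 - 1) := Nat.mul_le_mul_right _ hb
      _ = (P2 - 1) * β.card := mul_comm _ _
      _ ≤ _ := Nat.le_add_left _ _
  obtain ⟨γ, hγ⟩ := cls_sum_eq_of_not_dvd hm hp hpm hα hβ h
  set I := Polynomial.nthRootsFinset p (1 : ℂ) with hI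
  set a : ℂ → ℕ := fun y => (cls m' α (y ^ m')).card with ha
  set b : ℂ → ℕ := fun y => (cls m' β (y ^ m')).card with hbdef
  have hsa : ∑ y ∈ I, a y = α.card := by
    rw [← sum_card_cls hm hp hα]
    exact LamLeung_perm hp hpm (fun ω => (cls m' α ω).card)
  have hsb : ∑ y ∈ I, b y = β.card := by
    rw [← sum_card_cls hm hp hβ]
    exact LamLeung_perm hp hpm (fun ω => (cls m' β ω).card)
  have hIc : I.card = p := LamLeung_card hp
  -- a root with empty class of `β`
  have hne : (I.filter fun y => b y = 0).Nonempty := by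
    by_contra hcon
    rw [Finset.not_nonempty_iff_eq_empty, Finset.filter_eq_empty_iff] at hcon
    have h1 : ∑ _y ∈ I, 1 ≤ ∑ y ∈ I, b y :=
      Finset.sum_le_sum fun y hy => Nat.one_le_iff_ne_zero.2 (hcon hy)
    rw [Finset.sum_const, hIc, smul_eq_mul, mul_one, hsb] at h1
    omega
  obtain ⟨y0, hy0, hmin'⟩ := Finset.exists_min_image _ a hne
  rw [Finset.mem_filter] at hy0
  have hmin : ∀ y ∈ I, b y = 0 → a y0 ≤ a y := fun y hy hby =>
    hmin' y (Finset.mem_filter.2 ⟨hy, hby⟩)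
  have hy0p : y0 ^ p = 1 := (LamLeung_mem hp).1 hy0.1
  have hy0n : y0 ≠ 0 := LamLeung_ne hp hy0p
  have hc : (cls m' α (y0 ^ m')).sum = γ * y0 := by
    have h1 := hγ y0 hy0p
    have h2 : cls m' β (y0 ^ m') = 0 := Multiset.card_eq_zero.1 hy0.2
    rw [h1, h2, Multiset.sum_zero, zero_add]
  have key : ∀ y ∈ I, LamLeung_Q P1 P2 m' (a y) (a y0 + b y) := by
    intro y hy
    have hyp : y ^ p = 1 := (LamLeung_mem hp).1 hy
    have hyn : y ≠ 0 := LamLeung_ne hp hyp
    have h1 := LamLeung_scale IH hyn (A := cls m' α (y ^ m'))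
      (B := (cls m' α (y0 ^ m')).map (fun z => y * y0⁻¹ * z) + cls m' β (y ^ m')) ?_ ?_ ?_
    · rw [Multiset.card_add, Multiset.card_map] at h1
      exact h1
    · intro z hz
      exact (LamLeung_mem_cls.1 hz).2
    · intro z hz
      rw [Multiset.mem_add, Multiset.mem_map] at hz
      rcases hz with ⟨w, hw, rfl⟩ | hz
      · rw [mul_pow, mul_pow, (LamLeung_mem_cls.1 hw).2, mul_assoc, ← mul_pow,
          inv_mul_cancel₀ hy0n, one_pow, mul_one]
      · exact (LamLeung_mem_cls.1 hz).2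
    · rw [Multiset.sum_add, Multiset.sum_map_mul_left, Multiset.map_id', hc, hγ y hyp]
      field_simp
      ring
  by_cases h2 : ∃ y ∈ I, P1 * (P2 - 1) ≤ a y + (P2 - 1) * (a y0 + b y)
  · obtain ⟨y, hy, h3⟩ := h2
    right
    rw [← hsa, ← hsb]
    exact LamLeung_count hP1 h12 I (by rw [hIc]; exact hP2) a b (by rw [hsb]; exact hb) hmin hy h3
  · push Not at h2
    have h3 : ∀ y ∈ I, ∃ s ∈ AddSubmonoid.closure (m'.primeFactors : Set ℕ),
        a y = a y0 + b y + s := by
      intro y hy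
      rcases key y hy with h | h
      · exact h
      · exact absurd h (not_le.2 (h2 y hy))
    choose! s hs hs' using h3
    left
    have hm0 : m' * p ≠ 0 := Nat.mul_ne_zero hm.ne' hp.ne_zero
    have hsub : AddSubmonoid.closure (m'.primeFactors : Set ℕ) ≤
        AddSubmonoid.closure ((m' * p).primeFactors : Set ℕ) := by
      refine AddSubmonoid.closure_mono ?_
      exact_mod_cast Nat.primeFactors_mono (Dvd.intro p rfl) hm0
    refine ⟨a y0 * p + ∑ y ∈ I, s y, ?_, ?_⟩
    · refine AddSubmonoid.add_mem _ ?_ (AddSubmonoid.sum_mem _ fun y hy => hsub (hs y hy))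
      have h5 : p ∈ AddSubmonoid.closure (((m' * p).primeFactors : Finset ℕ) : Set ℕ) := by
        refine AddSubmonoid.subset_closure ?_
        rw [Finset.mem_coe, Nat.mem_primeFactors]
        exact ⟨hp, Dvd.intro_left m' rfl, hm0⟩
      rw [← smul_eq_mul]
      exact AddSubmonoid.nsmul_mem _ h5 _
    · rw [← hsa, ← hsb, Finset.sum_congr rfl hs', Finset.sum_add_distrib, Finset.sum_add_distrib,
        Finset.sum_const, hIc, smul_eq_mul]
      ring

theorem relLength {P1 P2 : ℕ} (hP1 : P1.Prime) (h12 : P1 ≤ P2) :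
    ∀ m : ℕ, 0 < m → (∀ q : ℕ, q.Prime → q ∣ m → q = P1 ∨ P2 ≤ q) →
      ∀ α β : Multiset ℂ, (∀ z ∈ α, z ^ m = 1) → (∀ z ∈ β, z ^ m = 1) → α.sum = β.sum →
        (∃ s ∈ AddSubmonoid.closure (m.primeFactors : Set ℕ), α.card = β.card + s) ∨
          P1 * (P2 - 1) ≤ α.card + (P2 - 1) * β.card := by
  intro m
  induction m using Nat.strong_induction_on with
  | _ m ih =>
    intro hm hq α β hα hβ h
    show LamLeung_Q P1 P2 m α.card β.card
    rcases Nat.lt_or_ge 1 m with h1 | h1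
    swap
    · have hm1 : m = 1 := by omega
      subst hm1
      have hone : ∀ δ : Multiset ℂ, (∀ z ∈ δ, z ^ 1 = 1) → δ.sum = δ.card := by
        intro δ hδ
        have h2 : δ = Multiset.replicate δ.card 1 := by
          rw [Multiset.eq_replicate]
          refine ⟨rfl, fun z hz => ?_⟩
          have := hδ z hz
          rwa [pow_one] at this
        conv_lhs => rw [h2]
        rw [Multiset.sum_replicate, nsmul_eq_mul, mul_one]
      rw [hone α hα, hone β hβ] at h
      refine Or.inl ⟨0, AddSubmonoid.zero_mem _, ?_⟩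
      rw [add_zero]
      exact_mod_cast h
    -- the choice of the prime
    obtain ⟨p, hp, hpm, hpA⟩ : ∃ p : ℕ, p.Prime ∧ p ∣ m ∧
        (P2 ≤ p ∨ (p = P1 ∧ ∀ q : ℕ, q.Prime → q ∣ m → q = P1)) := by
      by_cases hA : ∃ q : ℕ, q.Prime ∧ q ∣ m ∧ P2 ≤ q
      · obtain ⟨q, h2, h3, h4⟩ := hA
        exact ⟨q, h2, h3, Or.inl h4⟩
      · push Not at hA
        have hB : ∀ q : ℕ, q.Prime → q ∣ m → q = P1 := by
          intro q h2 h3
          rcases hq q h2 h3 with h4 | h4
          · exact h4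
          · exact absurd h4 (not_le.2 (hA q h2 h3))
        have h2 := Nat.minFac_prime h1.ne'
        have h3 := Nat.minFac_dvd m
        exact ⟨m.minFac, h2, h3, Or.inr ⟨hB _ h2 h3, hB⟩⟩
    obtain ⟨m', rfl⟩ : ∃ m', m = m' * p := by
      obtain ⟨c, hc⟩ := hpm
      exact ⟨c, by rw [hc, mul_comm]⟩
    have hm' : 0 < m' := Nat.pos_of_mul_pos_right hm
    have hlt : m' < m' * p := by
      calc m' = m' * 1 := (mul_one _).symm
        _ < m' * p := Nat.mul_lt_mul_of_pos_left hp.one_lt hm'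
    have IH := ih m' hlt hm' (fun q h2 h3 => hq q h2 (Dvd.dvd.mul_right h3 p))
    by_cases hd : p ∣ m'
    · exact LamLeung_dvd hm' hp hd IH hα hβ h
    · rcases hpA with hpA | ⟨rfl, hB⟩
      · exact LamLeung_not_dvd hP1.pos h12 hm' hp hpA hd IH hα hβ h
      · have hm1 : m' = 1 := by
          by_contra hne
          have h2 := Nat.minFac_prime hne
          have h3 := Nat.minFac_dvd m'
          have h4 := hB _ h2 (Dvd.dvd.mul_right h3 p)
          rw [h4] at h3
          exact hd h3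
        subst hm1
        exact LamLeung_prime hp hα hβ h

private theorem LamLeung_num {P1 P2 c : ℕ} (h1 : 2 ≤ P1) (h2 : 2 ≤ P2)
    (h : P1 * (P2 - 1) ≤ c) : ¬ c ≤ P1 * P2 - P1 - P2 := by
  obtain ⟨Q, rfl⟩ : ∃ Q, P2 = Q + 1 := ⟨P2 - 1, by omega⟩
  rw [Nat.add_sub_cancel] at h
  have h3 : P1 * (Q + 1) = P1 * Q + P1 := by ring
  have h4 : 0 < P1 * Q := Nat.mul_pos (by omega) (by omega)
  rw [h3]
  omega

theorem lam_leung {d : ℕ} (hd : 0 < d) {α : Multiset ℂ} (hα : ∀ z ∈ α, z ^ d = 1)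
    (h : α.sum = 0) : α.card ∈ AddSubmonoid.closure (d.primeFactors : Set ℕ) := by
  classical
  have hβ : ∀ z ∈ (0 : Multiset ℂ), z ^ d = 1 := fun z hz => absurd hz (Multiset.notMem_zero z)
  have hsum : α.sum = (0 : Multiset ℂ).sum := by rw [h, Multiset.sum_zero]
  by_cases hd1 : d = 1
  · have h2 := relLength (P1 := 2) (P2 := α.card + 2) Nat.prime_two (by omega) d hd
      (fun q hq hqd => by
        rw [hd1] at hqd
        exact absurd (Nat.dvd_one.1 hqd) hq.one_lt.ne') α 0 hα hβ hsum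
    rw [Multiset.card_zero] at h2
    rcases h2 with ⟨s, hs, h3⟩ | h3
    · rw [h3, zero_add]
      exact hs
    · omega
  have hP1 := Nat.minFac_prime hd1
  have hP1d := Nat.minFac_dvd d
  by_cases hex : ∃ q : ℕ, q.Prime ∧ q ∣ d ∧ q ≠ d.minFac
  · obtain ⟨h2, h3, h4⟩ := Nat.find_spec hex
    have h12 : d.minFac ≤ Nat.find hex := Nat.minFac_le_of_dvd h2.two_le h3
    have h5 := relLength hP1 h12 d hd (fun q hq hqd => by
      by_cases h6 : q = d.minFac
      · exact Or.inl h6
      · exact Or.inr (Nat.find_min' hex ⟨hq, hqd, h6⟩)) α 0 hα hβ hsum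
    rw [Multiset.card_zero] at h5
    rcases h5 with ⟨s, hs, h6⟩ | h6
    · rw [h6, zero_add]
      exact hs
    · set P1 := d.minFac with hP1def
      set P2 := Nat.find hex with hP2def
      have hcop : Nat.Coprime P1 P2 := (Nat.coprime_primes hP1 h2).2 (Ne.symm h4)
      have hfr := frobeniusNumber_pair hcop hP1.one_lt h2.one_lt
      have h7 : α.card ∈ AddSubmonoid.closure ({P1, P2} : Set ℕ) := by
        by_contra hcon
        rw [mul_zero, add_zero] at h6
        exact LamLeung_num hP1.two_le h2.two_le h6 (hfr.2 hcon)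
      refine AddSubmonoid.closure_mono ?_ h7
      rintro z (rfl | hz)
      · rw [Finset.mem_coe, Nat.mem_primeFactors]
        exact ⟨hP1, hP1d, hd.ne'⟩
      · rw [Set.mem_singleton_iff] at hz
        rw [hz, Finset.mem_coe, Nat.mem_primeFactors]
        exact ⟨h2, h3, hd.ne'⟩
  · push Not at hex
    have h5 := relLength hP1 (P2 := d.minFac + α.card + 2) (by omega) d hd
      (fun q hq hqd => Or.inl (hex q hq hqd)) α 0 hα hβ hsum
    rw [Multiset.card_zero] at h5
    rcases h5 with ⟨s, hs, h6⟩ | h6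
    · rw [h6, zero_add]
      exact hs
    · exfalso
      have h7 : 1 * (d.minFac + α.card + 2 - 1) ≤ d.minFac * (d.minFac + α.card + 2 - 1) :=
        Nat.mul_le_mul_right _ hP1.one_lt.le
      omega

end Pool.Agent.MPd7e141
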