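import Pool.Agent.Lib.MP_d7e141_nt.Core

/-!
FD-Ord3 (MP_d7e141_nt). b² + b + 1 ≡ 0 mod m, m > 1, m odd automatically (b²+b+1 is odd), 3 ∤ m (hypothesis).
Form Q(u,v) = u² + uv + v² on L = {(u,v) ∈ ℤ² : m ∣ u - b v}: Q(u,v) ≡ v²(b²+b+1) ≡ 0 mod m. Rotation ρ(u,v) = (-v, u+v) maps L to L: -v - b(u+v) ≡ -v - b(b+1) v =
-v(b²+b+1) ≡ 0; Q∘ρ = Q, ρ³ = -1.
EXISTENCE: Thue: (u,v) ∈ L \ 0, |u|,|v| ≤ ⌊√m⌋, so 0 < Q ≤ 3m, with Q = 3m only if u = v, u² = m, m ∣ u(1-b).. (then m = u², m ∣ u(1-b), gcd(1-b,m)... excluded: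
   m ∣ (b²+b+1), gcd(b-1,m) ∣ 3, 3 ∤ m so gcd(b-1,m) = 1, m ∣ u, m = 1). Q = 2m: Q even → u, v both even → 4 ∣ Q = 2m → m even, but b²+b+1 is odd. So Q = m.
   Applying powers of ρ one gets u, v of the same (weak) sign: among the six images of (u,v) there is one with both coordinates ≥ 0 (cases by signs: if u,v > 0 or both < 0 done (−1 = ρ³);
   if u > 0 > v: |u| ≥ |v|: ρ⁻¹(u,v) = (u+v, -u).. choose the right one; direct: u = s, v = -t, s,t > 0: Q = s² - st + t²; if s ≥ t: (s-t, t)·: check ρ²(u,v) = (-u-v, u) = (t-s, s);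
   -ρ²... take ρ^{-1}(u,v) = (u+v,-u) = (s-t,-s), then ρ^{-2} = (v', ...) etc; the six images are ±(s,-t), ±(t,s-t)=ρ(s,-t), ±(t-s,s)=ρ²(s,-t): for s ≥ t use (t,s-t); for t ≥ s use (t-s,s).)
   No coordinate is 0 (v = 0: m = u², m ∣ u; u = 0: m ∣ bv → m ∣ v, m = v²), so x,y > 0.
UNIQUENESS: (x,y),(x',y') : D = x y' - x' y ≡ 0 mod m, |D| < m since x y', x'y ∈ (0,m) (x²<m, y'²<m). So D = 0, proportional, Q equal → equal.
VALUE g = x + y + max x y - 3.  x ≢ y mod 3 (else m = (x-y)² + 3xy divisible by 3).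
 m1 := x + 2y, m2 := 2x + y: Rep b m m1, Rep b m m2, Rep b m 3 (exponents 0,1,2).  From x ≡ b y: y·b + ... : x·(−1) ≡ ...: b y - x ≡ 0 and -1 ≡ b + b²: b y + x b + x b² ≡ 0: exponent 1: x+y copies, exponent 2: x copies:
   card 2x + y. ✓.  Multiply the negative relation x - b y ≡ 0 : x + y(1 + b²) = x + y + y b²: exponent 0: x+y copies, exponent 2: y copies: card x + 2y ✓.
 u > g: if 3 ∣ u: Rep by 3's. Otherwise u ≡ m1 or m2 mod 3 (they are ≡ ±(x-y), nonzero and opposite) and u > max(m1,m2) - 3, so u ≥ m_i: add 3's.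
 not Rep g: g = max(m1,m2) - 3. Let s be a multiset, card g, m ∣ ∑ b^e; A_i = #{e ≡ i mod 3}; subtract the minimum of the A_i: get (A_0,A_1,A_2) ≥ 0 with one zero, card g - 3k; cyclic symmetry (multiply by b):
   wlog A_2 = 0 : m ∣ p + b q, p,q ≥ 0, p + q = g - 3k, p+q ≢ 0 mod 3. Q'(p,q) = p² - pq + q² ≡ 0 mod m (p ≡ -bq), > 0.  (p,q)→ (−p, q) ∈ L? -p ≡ bq ✓. so (-p,q) ∈ L, Q(-p,q) = p²-pq+q² =: N, N = m l.
   l ≥ 1. If l = 1: by the list of six images & uniqueness (-p,q) = ±ρ^i(x,y): the elements of L with Q = m are exactly the six images of (x,y); with p,q ≥ 0 : (-p,q) ∈ {(-y,x+y)=ρ(x,y), (-x-y,x)=ρ²(x,y)} so (p,q) = (y,x+y) [p+q = x+2y = m1]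
   or (x+y,x) [2x + y = m2], and also (x,... ) none else. Both p+q = m1 or m2; but p + q = g - 3k = max - 3 - 3k; the other one min ≡ -max mod 3 ≢ max (as max ≢ 0): contradiction in both cases.
   l = 2: N even → p,q even → 4 ∣ N = 2m no. l = 3: 3 ∣ p²-pq+q² = (p+q)² - 3pq → 3 ∣ p+q, no. l ≥ 4: N ≤ max(p,q)² ≤ (p+q)² and p + q ≤ g < max(m1,m2) ≤ 2 sqrt m (x+2y)² = x²+4xy+4y² ≤ 4(x²+xy+y²) ✓. so N < 4m, no.
-/

namespace Pool.Agent.MPd7e141

lemma ord3_sq_contra {m : ℕ} (hm : 1 < m) {W : ℤ} (hW : W ^ 2 = m) (hd : (m : ℤ) ∣ W) : False := by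
  have hW0 : W ≠ 0 := by
    rintro rfl
    simp at hW
    omega
  have h1 : (m : ℤ) ≤ |W| := by
    apply Int.le_of_dvd (abs_pos.mpr hW0)
    exact (dvd_abs _ _).mpr hd
  have h2 : |W| ^ 2 = m := by rw [sq_abs]; exact hW
  have h3 : (1 : ℤ) < m := by exact_mod_cast hm
  nlinarith [abs_nonneg W]

/-- the positive representative of an element of norm `m` of the lattice -/
lemma ord3_pos {b m : ℕ} (hm : 1 < m) (h : m ∣ b ^ 2 + b + 1) {U V : ℤ}
    (hL : (m : ℤ) ∣ U - b * V) (hQ : U ^ 2 + U * V + V ^ 2 = m) :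
    ∃ x y : ℕ, 0 < x ∧ 0 < y ∧ x ^ 2 + x * y + y ^ 2 = m ∧ (m : ℤ) ∣ (x : ℤ) - b * y ∧
      ((U = x ∧ V = y) ∨ (U = -x ∧ V = -y) ∨ (U = -y ∧ V = x + y) ∨ (U = y ∧ V = -x - y) ∨
        (U = -x - y ∧ V = x) ∨ (U = x + y ∧ V = -x)) := by
  have hb : (m : ℤ) ∣ (b : ℤ) ^ 2 + b + 1 := by exact_mod_cast h
  obtain ⟨c, hc⟩ := hb
  obtain ⟨d, hd⟩ := hL
  -- general constructor
  have key : ∀ X Y : ℤ, 0 < X → 0 < Y → X ^ 2 + X * Y + Y ^ 2 = m → (m : ℤ) ∣ X - b * Y →
      ((U = X ∧ V = Y) ∨ (U = -X ∧ V = -Y) ∨ (U = -Y ∧ V = X + Y) ∨ (U = Y ∧ V = -X - Y) ∨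
        (U = -X - Y ∧ V = X) ∨ (U = X + Y ∧ V = -X)) →
      ∃ x y : ℕ, 0 < x ∧ 0 < y ∧ x ^ 2 + x * y + y ^ 2 = m ∧ (m : ℤ) ∣ (x : ℤ) - b * y ∧
      ((U = x ∧ V = y) ∨ (U = -x ∧ V = -y) ∨ (U = -y ∧ V = x + y) ∨ (U = y ∧ V = -x - y) ∨
        (U = -x - y ∧ V = x) ∨ (U = x + y ∧ V = -x)) := by
    intro X Y hX hY h1 h2 h3
    lift X to ℕ using hX.le
    lift Y to ℕ using hY.le
    refine ⟨X, Y, by exact_mod_cast hX, by exact_mod_cast hY, by exact_mod_cast h1, h2, h3⟩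
  rcases lt_trichotomy U 0 with hU | hU | hU
  · rcases lt_trichotomy V 0 with hV | hV | hV
    · refine key (-U) (-V) (by omega) (by omega) (by linear_combination hQ) ⟨-d, ?_⟩ ?_
      · linear_combination -hd
      · right; left; constructor <;> ring
    · exfalso
      subst hV
      exact ord3_sq_contra hm (W := U) (by linear_combination hQ) ⟨d, by linear_combination hd⟩
    · rcases lt_trichotomy (U + V) 0 with hS | hS | hS
      · refine key V (-U - V) (by omega) (by omega) (by linear_combination hQ) ?_ ?_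
        · -- V + b (U + V) = V (b^2+b+1) + b (U - b V)
          refine ⟨V * c + b * d, ?_⟩
          linear_combination V * hc + (b : ℤ) * hd
        · right; right; right; right; left
          constructor <;> ring
      · exfalso
        have hV' : V = -U := by omega
        subst hV'
        apply ord3_sq_contra hm (W := U) (by linear_combination hQ)
        -- U (1 + b) = m d ; -b (1+b) = 1 - m c
        refine ⟨U * c - b * d, ?_⟩
        linear_combination U * hc - (b : ℤ) * hd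
      · refine key (U + V) (-U) (by omega) (by omega) (by linear_combination hQ) ?_ ?_
        · -- (U+V) + b U = ... = (1+b)(U - bV) + V (b²+b+1)
          refine ⟨V * c + (b + 1) * d, ?_⟩
          linear_combination V * hc + ((b : ℤ) + 1) * hd
        · right; right; left
          constructor <;> ring
  · exfalso
    subst hU
    apply ord3_sq_contra hm (W := V) (by linear_combination hQ)
    -- -bV = m d;  V (b²+b+1) = V m c ; V = V m c - b(b+1) V = V m c + (b+1) m d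
    refine ⟨V * c + (b + 1) * d, ?_⟩
    linear_combination V * hc + ((b : ℤ) + 1) * hd
  · rcases lt_trichotomy V 0 with hV | hV | hV
    · rcases lt_trichotomy (U + V) 0 with hS | hS | hS
      · refine key (-U - V) U (by omega) (by omega) (by linear_combination hQ) ?_ ?_
        · refine ⟨-(V * c + (b + 1) * d), ?_⟩
          linear_combination -V * hc - ((b : ℤ) + 1) * hd
        · right; right; right; left
          constructor <;> ring
      · exfalso
        have hV' : V = -U := by omega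
        subst hV'
        apply ord3_sq_contra hm (W := U) (by linear_combination hQ)
        refine ⟨U * c - b * d, ?_⟩
        linear_combination U * hc - (b : ℤ) * hd
      · refine key (-V) (U + V) (by omega) (by omega) (by linear_combination hQ) ?_ ?_
        · refine ⟨-(V * c + b * d), ?_⟩
          linear_combination -V * hc - (b : ℤ) * hd
        · right; right; right; right; right
          constructor <;> ring
    · exfalso
      subst hV
      exact ord3_sq_contra hm (W := U) (by linear_combination hQ) ⟨d, by linear_combination hd⟩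
    · exact key U V hU hV hQ ⟨d, hd⟩ (Or.inl ⟨rfl, rfl⟩)

/-- uniqueness of the positive representative -/
lemma ord3_unique {b m : ℕ} {x y x' y' : ℕ} (hx : 0 < x) (hy : 0 < y)
    (hx' : 0 < x') (hy' : 0 < y') (hQ : x ^ 2 + x * y + y ^ 2 = m)
    (hQ' : x' ^ 2 + x' * y' + y' ^ 2 = m) (hL : (m : ℤ) ∣ (x : ℤ) - b * y)
    (hL' : (m : ℤ) ∣ (x' : ℤ) - b * y') : x' = x ∧ y' = y := by
  have hD : (m : ℤ) ∣ (x : ℤ) * y' - x' * y := by
    obtain ⟨c, hc⟩ := hL
    obtain ⟨d, hd⟩ := hL'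
    exact ⟨c * y' - d * y, by linear_combination (y' : ℤ) * hc - (y : ℤ) * hd⟩
  have hlt : ∀ p q p' q' : ℕ, 0 < p → 0 < q → 0 < p' → 0 < q' → p ^ 2 + p * q + q ^ 2 = m →
      p' ^ 2 + p' * q' + q' ^ 2 = m → p * q' < m := by
    intro p q p' q' h1 h2 h3 h4 h5 h6
    have h7 : p ^ 2 < m := by nlinarith [Nat.mul_pos h1 h2]
    have h8 : q' ^ 2 < m := by nlinarith [Nat.mul_pos h3 h4]
    by_contra h9
    push Not at h9
    have h10 : (p * q') ^ 2 < m * m := by
      rw [mul_pow]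
      exact Nat.mul_lt_mul'' h7 h8
    nlinarith
  have h1 := hlt x y x' y' hx hy hx' hy' hQ hQ'
  have h2 := hlt x' y' x y hx' hy' hx hy hQ' hQ
  have h0 : (x : ℤ) * y' - x' * y = 0 := by
    apply Int.eq_zero_of_abs_lt_dvd hD
    rw [abs_lt]
    have h1' : ((x * y' : ℕ) : ℤ) < m := by exact_mod_cast h1
    have h2' : ((x' * y : ℕ) : ℤ) < m := by exact_mod_cast h2
    push_cast at h1' h2'
    have p1 : (0 : ℤ) ≤ (x : ℤ) * y' := by positivity
    have p2 : (0 : ℤ) ≤ (x' : ℤ) * y := by positivity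
    constructor <;> linarith
  have h3 : x * y' = x' * y := by
    have : (x : ℤ) * y' = x' * y := by linarith
    exact_mod_cast this
  have hm0 : 0 < m := by rw [← hQ]; positivity
  have h4 : m * y' ^ 2 = m * y ^ 2 := by
    calc m * y' ^ 2 = (x ^ 2 + x * y + y ^ 2) * y' ^ 2 := by rw [hQ]
      _ = (x * y') ^ 2 + (x * y') * y * y' + y ^ 2 * y' ^ 2 := by ring
      _ = (x' * y) ^ 2 + (x' * y) * y * y' + y ^ 2 * y' ^ 2 := by rw [h3]
      _ = (x' ^ 2 + x' * y' + y' ^ 2) * y ^ 2 := by ring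
      _ = m * y ^ 2 := by rw [hQ']
  have h5 : y' ^ 2 = y ^ 2 := Nat.eq_of_mul_eq_mul_left hm0 h4
  have h6 : y' = y := by
    exact Nat.pow_left_injective (n := 2) (by norm_num) h5
  subst h6
  exact ⟨(Nat.eq_of_mul_eq_mul_right hy h3).symm, rfl⟩

lemma ord3_odd {b m : ℕ} (h : m ∣ b ^ 2 + b + 1) : Odd m := by
  have h1 : Odd (b ^ 2 + b + 1) := by
    have : Even (b ^ 2 + b) := by
      have := Nat.even_mul_succ_self b
      rw [show b ^ 2 + b = b * (b + 1) by ring]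
      exact this
    exact this.add_one
  exact Odd.of_dvd_nat h1 h

/-- the norm is not `2 m` -/
lemma ord3_ne_two {m : ℕ} (ho : Odd m) {U V : ℤ} : U ^ 2 + U * V + V ^ 2 ≠ 2 * m := by
  intro hQ
  have h1 : ∀ z : ZMod 4, ∀ w : ZMod 4, z ^ 2 + z * w + w ^ 2 ≠ 2 := by decide
  obtain ⟨k, hk⟩ := ho
  have h2 := congrArg (Int.cast : ℤ → ZMod 4) hQ
  rw [hk] at h2
  push_cast at h2
  apply h1 (U : ZMod 4) (V : ZMod 4)
  rw [h2]
  have h4 : (4 : ZMod 4) = 0 := by decide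
  linear_combination (k : ZMod 4) * h4

lemma ord3_thue {b m : ℕ} (hm : 1 < m) (h3 : ¬ 3 ∣ m) (h : m ∣ b ^ 2 + b + 1) :
    ∃ U V : ℤ, (m : ℤ) ∣ U - b * V ∧ U ^ 2 + U * V + V ^ 2 = m := by
  have : NeZero m := ⟨by omega⟩
  set k := Nat.sqrt m with hk
  have hk1 : m < (k + 1) * (k + 1) := Nat.lt_succ_sqrt m
  have hk2 : k * k ≤ m := Nat.sqrt_le m
  obtain ⟨p, q, hpq, hf⟩ := Fintype.exists_ne_map_eq_of_card_lt
    (fun p : Fin (k + 1) × Fin (k + 1) => ((p.1 : ℕ) : ZMod m) - (b : ZMod m) * ((p.2 : ℕ) : ZMod m))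
    (by simp [ZMod.card]; exact hk1)
  set U : ℤ := (p.1 : ℕ) - (q.1 : ℕ) with hU
  set V : ℤ := (p.2 : ℕ) - (q.2 : ℕ) with hV
  have hL : (m : ℤ) ∣ U - b * V := by
    rw [← ZMod.intCast_zmod_eq_zero_iff_dvd]
    simp only [hU, hV]
    push_cast
    linear_combination hf
  have hne : U ≠ 0 ∨ V ≠ 0 := by
    by_contra hc
    push Not at hc
    apply hpq
    apply Prod.ext
    · apply Fin.ext; have := hc.1; omega
    · apply Fin.ext; have := hc.2; omega
  have hUk : |U| ≤ k := by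
    rw [abs_le]; have := p.1.isLt; have := q.1.isLt; constructor <;> omega
  have hVk : |V| ≤ k := by
    rw [abs_le]; have := p.2.isLt; have := q.2.isLt; constructor <;> omega
  have hU2 : U ^ 2 ≤ m := by
    have : U ^ 2 ≤ (k : ℤ) ^ 2 := sq_le_sq.mpr (by rw [Nat.abs_cast]; exact hUk)
    have h4 : ((k * k : ℕ) : ℤ) ≤ m := by exact_mod_cast hk2
    push_cast at h4
    nlinarith
  have hV2 : V ^ 2 ≤ m := by
    have : V ^ 2 ≤ (k : ℤ) ^ 2 := sq_le_sq.mpr (by rw [Nat.abs_cast]; exact hVk)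
    have h4 : ((k * k : ℕ) : ℤ) ≤ m := by exact_mod_cast hk2
    push_cast at h4
    nlinarith
  have hb : (m : ℤ) ∣ (b : ℤ) ^ 2 + b + 1 := by exact_mod_cast h
  have hQd : (m : ℤ) ∣ U ^ 2 + U * V + V ^ 2 := by
    obtain ⟨c, hc⟩ := hb
    obtain ⟨d, hd⟩ := hL
    refine ⟨d * (U + b * V + V) + V ^ 2 * c, ?_⟩
    linear_combination (U + b * V + V) * hd + V ^ 2 * hc
  have hpos : 0 < U ^ 2 + U * V + V ^ 2 := by
    rcases hne with h0 | h0
    · have := sq_nonneg (U + 2 * V)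
      have := sq_pos_of_ne_zero h0 
      nlinarith
    · have := sq_nonneg (2 * U + V)
      have := sq_pos_of_ne_zero h0
      nlinarith
  obtain ⟨l, hl⟩ := hQd
  have hm' : (0 : ℤ) < m := by exact_mod_cast (by omega : 0 < m)
  have hl1 : 0 < l := by
    by_contra hc
    push Not at hc
    nlinarith
  have hle : U ^ 2 + U * V + V ^ 2 ≤ 3 * m := by nlinarith [sq_nonneg (U - V)]
  have hl2 : l ≤ 3 := by
    by_contra hc
    push Not at hc
    nlinarith
  have hodd := ord3_odd h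
  have hl3 : l = 1 ∨ l = 2 ∨ l = 3 := by omega
  rcases hl3 with rfl | rfl | rfl
  · exact ⟨U, V, hL, by linear_combination hl⟩
  · exact absurd (by linear_combination hl) (ord3_ne_two hodd (U := U) (V := V))
  · exfalso
    have h5 : (U - V) ^ 2 ≤ 0 := by nlinarith
    have h6 : U - V = 0 := by
      have := sq_nonneg (U - V)
      exact pow_eq_zero_iff (two_ne_zero) |>.mp (le_antisymm h5 this)
    have h7 : V = U := by omega
    have h8 : U ^ 2 = m := by
      rw [h7] at hl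
      linarith
    rw [h7] at hL
    apply ord3_sq_contra hm h8
    -- m | U (1 - b), m | (b-1)(b+2) + 3
    have h9 : (m : ℤ) ∣ 3 * U := by
      obtain ⟨c, hc⟩ := hb
      obtain ⟨d, hd⟩ := hL
      refine ⟨U * c + (b + 2) * d, ?_⟩
      linear_combination U * hc + ((b : ℤ) + 2) * hd
    have h10 : IsCoprime (m : ℤ) 3 := by
      rw [Int.isCoprime_iff_gcd_eq_one]
      have : Nat.Coprime 3 m := (Nat.Prime.coprime_iff_not_dvd Nat.prime_three).mpr h3
      exact_mod_cast this.symm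
    exact h10.dvd_of_dvd_mul_left h9

lemma ord3_sum {b m : ℕ} (h : m ∣ b ^ 2 + b + 1) (s : Multiset ℕ) :
    ∃ A B C : ℕ, A + B + C = s.card ∧
      (((s.map (fun e => b ^ e)).sum : ℕ) : ZMod m) = A + B * b + C * b ^ 2 := by
  have hb : (b : ZMod m) ^ 2 + b + 1 = 0 := by
    have : ((b ^ 2 + b + 1 : ℕ) : ZMod m) = 0 := (ZMod.natCast_eq_zero_iff _ _).mpr h
    push_cast at this
    exact this
  have hb3 : (b : ZMod m) ^ 3 = 1 := by linear_combination ((b : ZMod m) - 1) * hb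
  induction s using Multiset.induction_on with
  | empty => exact ⟨0, 0, 0, by simp, by simp⟩
  | cons e s ih =>
    obtain ⟨A, B, C, h1, h2⟩ := ih
    rw [Multiset.map_cons, Multiset.sum_cons, Multiset.card_cons]
    have he : (b : ZMod m) ^ e = (b : ZMod m) ^ (e % 3) := by
      conv_lhs => rw [← Nat.div_add_mod e 3]
      rw [pow_add, pow_mul, hb3, one_pow, one_mul]
    have hlt : e % 3 < 3 := Nat.mod_lt _ (by norm_num)
    push_cast
    push_cast at h2
    rw [he, h2]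
    have h3 : e % 3 = 0 ∨ e % 3 = 1 ∨ e % 3 = 2 := by omega
    rcases h3 with h3 | h3 | h3
    · exact ⟨A + 1, B, C, by omega, by rw [h3]; push_cast; ring⟩
    · exact ⟨A, B + 1, C, by omega, by rw [h3]; push_cast; ring⟩
    · exact ⟨A, B, C + 1, by omega, by rw [h3]; push_cast; ring⟩

lemma ord3_rep_three {b m : ℕ} (h : m ∣ b ^ 2 + b + 1) : Rep b m 3 := by
  refine ⟨0 ::ₘ 1 ::ₘ 2 ::ₘ 0, by simp, ?_⟩
  simp only [Multiset.map_cons, Multiset.sum_cons, Multiset.map_zero, Multiset.sum_zero]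
  rw [show b ^ 0 + (b ^ 1 + (b ^ 2 + 0)) = b ^ 2 + b + 1 by ring]
  exact h

lemma ord3_rep_mul {b m : ℕ} (h : m ∣ b ^ 2 + b + 1) (k : ℕ) : Rep b m (3 * k) := by
  induction k with
  | zero => exact Rep.zero b m
  | succ k ih =>
    have := ih.add (ord3_rep_three h)
    rw [mul_add, mul_one]
    exact this

lemma ord3_rep1 {b m x y : ℕ} (h : m ∣ b ^ 2 + b + 1) (hL : (m : ℤ) ∣ (x : ℤ) - b * y) :
    Rep b m (x + 2 * y) := by
  refine ⟨Multiset.replicate (x + y) 0 + Multiset.replicate y 2, by simp; ring, ?_⟩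
  rw [Multiset.map_add, Multiset.sum_add, Multiset.map_replicate, Multiset.map_replicate,
    Multiset.sum_replicate, Multiset.sum_replicate]
  simp only [pow_zero, smul_eq_mul, mul_one]
  have hb : (m : ℤ) ∣ (b : ℤ) ^ 2 + b + 1 := by exact_mod_cast h
  have : (m : ℤ) ∣ ((x + y + y * b ^ 2 : ℕ) : ℤ) := by
    push_cast
    obtain ⟨c, hc⟩ := hb
    obtain ⟨d, hd⟩ := hL
    exact ⟨d + y * c, by linear_combination hd + (y : ℤ) * hc⟩
  exact_mod_cast this

lemma ord3_rep2 {b m x y : ℕ} (h : m ∣ b ^ 2 + b + 1) (hL : (m : ℤ) ∣ (x : ℤ) - b * y) :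
    Rep b m (2 * x + y) := by
  refine ⟨Multiset.replicate (x + y) 1 + Multiset.replicate x 2, by simp; ring, ?_⟩
  rw [Multiset.map_add, Multiset.sum_add, Multiset.map_replicate, Multiset.map_replicate,
    Multiset.sum_replicate, Multiset.sum_replicate]
  simp only [pow_one, smul_eq_mul]
  have hb : (m : ℤ) ∣ (b : ℤ) ^ 2 + b + 1 := by exact_mod_cast h
  have : (m : ℤ) ∣ (((x + y) * b + x * b ^ 2 : ℕ) : ℤ) := by
    push_cast
    obtain ⟨c, hc⟩ := hb
    obtain ⟨d, hd⟩ := hL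
    exact ⟨x * c - d, by linear_combination (x : ℤ) * hc - hd⟩
  exact_mod_cast this

lemma ord3_mod {m x y : ℕ} (h3 : ¬ 3 ∣ m) (hQ : x ^ 2 + x * y + y ^ 2 = m) : x % 3 ≠ y % 3 := by
  intro hxy
  apply h3
  rw [← hQ, Nat.dvd_iff_mod_eq_zero]
  have h1 : y % 3 < 3 := Nat.mod_lt _ (by norm_num)
  have h2 : (x ^ 2 + x * y + y ^ 2) % 3 = ((x % 3) ^ 2 + (x % 3) * (y % 3) + (y % 3) ^ 2) % 3 := by
    simp [Nat.add_mod, Nat.mul_mod, Nat.pow_mod]
  rw [h2, hxy]
  interval_cases (y % 3) <;> rfl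

lemma ord3_classes {x y u : ℕ} (h : x % 3 ≠ y % 3) :
    u % 3 = 0 ∨ u % 3 = (x + 2 * y) % 3 ∨ u % 3 = (2 * x + y) % 3 := by
  have h1 : x % 3 = 0 ∨ x % 3 = 1 ∨ x % 3 = 2 := by omega
  have h2 : y % 3 = 0 ∨ y % 3 = 1 ∨ y % 3 = 2 := by omega
  rcases h1 with h1 | h1 | h1 <;> rcases h2 with h2 | h2 | h2 <;> omega

theorem ord3 {b m : ℕ} (hm : 1 < m) (h3 : ¬ 3 ∣ m) (h : m ∣ b ^ 2 + b + 1) :
    ∃ x y : ℕ, 0 < x ∧ 0 < y ∧ x ^ 2 + x * y + y ^ 2 = m ∧ x ≡ b * y [MOD m] ∧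
      (∀ x' y' : ℕ, 0 < x' → 0 < y' → x' ^ 2 + x' * y' + y' ^ 2 = m → x' ≡ b * y' [MOD m] →
        x' = x ∧ y' = y) ∧
      ¬ Rep b m (x + y + max x y - 3) ∧ ∀ u, x + y + max x y - 3 < u → Rep b m u := by
  obtain ⟨U, V, hUV, hQ⟩ := ord3_thue hm h3 h
  obtain ⟨x, y, hx, hy, hxy, hL, -⟩ := ord3_pos hm h hUV hQ
  have hmod : x % 3 ≠ y % 3 := ord3_mod h3 hxy
  refine ⟨x, y, hx, hy, hxy, ?_, ?_, ?_, ?_⟩
  · apply Nat.ModEq.symm
    rw [Nat.modEq_iff_dvd]
    push_cast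
    exact hL
  · intro x' y' hx' hy' hQ' hL'
    apply ord3_unique hx hy hx' hy' hxy hQ' hL
    have := (Nat.modEq_iff_dvd.mp hL'.symm)
    push_cast at this
    exact this
  · rintro ⟨s, hs, hs'⟩
    obtain ⟨A, B, C, h1, h2⟩ := ord3_sum h s
    rw [(ZMod.natCast_eq_zero_iff _ _).mpr hs'] at h2
    rw [hs] at h1
    have hb : (m : ℤ) ∣ (b : ℤ) ^ 2 + b + 1 := by exact_mod_cast h
    have h4 : (m : ℤ) ∣ (A : ℤ) + B * b + C * b ^ 2 := by
      rw [← ZMod.intCast_zmod_eq_zero_iff_dvd]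
      push_cast
      exact h2.symm
    have hL2 : (m : ℤ) ∣ ((C : ℤ) - A) - b * ((B : ℤ) - C) := by
      obtain ⟨c, hc⟩ := hb
      obtain ⟨d, hd⟩ := h4
      exact ⟨C * c - d, by linear_combination (C : ℤ) * hc - hd⟩
    have hN : (m : ℤ) ∣ ((C : ℤ) - A) ^ 2 + ((C : ℤ) - A) * ((B : ℤ) - C) + ((B : ℤ) - C) ^ 2 := by
      obtain ⟨c, hc⟩ := hb
      obtain ⟨d, hd⟩ := hL2
      refine ⟨d * (((C : ℤ) - A) + b * ((B : ℤ) - C) + ((B : ℤ) - C)) + ((B : ℤ) - C) ^ 2 * c, ?_⟩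
      linear_combination (((C : ℤ) - A) + b * ((B : ℤ) - C) + ((B : ℤ) - C)) * hd +
        ((B : ℤ) - C) ^ 2 * hc
    set g : ℕ := x + y + max x y - 3 with hg
    have hg3 : g + 3 = x + y + max x y := by
      rcases le_total x y with hh | hh
      · rw [max_eq_right hh] at hg ⊢; omega
      · rw [max_eq_left hh] at hg ⊢; omega
    have hgm : g % 3 ≠ 0 := by
      rcases le_total x y with hh | hh
      · rw [max_eq_right hh] at hg3; omega
      · rw [max_eq_left hh] at hg3; omega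
    obtain ⟨l, hl⟩ := hN
    -- N = g^2 - 3 (AB+BC+CA)
    have hNg : ((C : ℤ) - A) ^ 2 + ((C : ℤ) - A) * ((B : ℤ) - C) + ((B : ℤ) - C) ^ 2 =
        (g : ℤ) ^ 2 - 3 * (A * B + B * C + C * A) := by
      rw [← h1]; push_cast; ring
    have hg3' : ¬ (3 : ℤ) ∣ (g : ℤ) ^ 2 - 3 * (A * B + B * C + C * A) := by
      intro hc
      have h5 : (3 : ℤ) ∣ (g : ℤ) ^ 2 := by
        have := dvd_add hc (Dvd.intro (A * B + B * C + C * A : ℤ) rfl : (3 : ℤ) ∣ 3 * (A * B + B * C + C * A))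
        simpa using this
      have h6 : (3 : ℤ) ∣ g := Int.prime_three.dvd_of_dvd_pow h5
      omega
    have hm' : (0 : ℤ) < m := by exact_mod_cast (by omega : 0 < m)
    have hlt : (g : ℤ) ^ 2 < 4 * m := by
      have h7 : ((x + y + max x y : ℕ) : ℤ) ^ 2 ≤ 4 * m := by
        rw [← hxy]
        rcases le_total x y with hh | hh
        · rw [max_eq_right hh]; push_cast; nlinarith
        · rw [max_eq_left hh]; push_cast; nlinarith
      rw [← hg3] at h7
      push_cast at h7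
      nlinarith
    have hl0 : 0 < l := by
      by_contra hc
      push Not at hc
      have h8 : 0 ≤ ((C : ℤ) - A) ^ 2 + ((C : ℤ) - A) * ((B : ℤ) - C) + ((B : ℤ) - C) ^ 2 := by
        nlinarith [sq_nonneg (2 * ((C : ℤ) - A) + ((B : ℤ) - C)), sq_nonneg ((B : ℤ) - C)]
      have h9 : (m : ℤ) * l ≤ 0 := by nlinarith
      have h10 : (m : ℤ) * l = 0 := by rw [← hl] at h9 ⊢; exact le_antisymm h9 h8
      apply hg3'
      rw [← hNg, hl, h10]
      exact dvd_zero 3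
    have hl4 : l < 4 := by
      by_contra hc
      push Not at hc
      have h11 : (m : ℤ) * l ≤ (g : ℤ) ^ 2 := by
        rw [← hl, hNg]
        have : (0 : ℤ) ≤ A * B + B * C + C * A := by positivity
        linarith
      nlinarith
    have hl3 : l = 1 ∨ l = 2 ∨ l = 3 := by omega
    have hl1 : l = 1 := by
      rcases hl3 with rfl | rfl | rfl
      · rfl
      · exact absurd (by linear_combination hl)
          (ord3_ne_two (ord3_odd h) (U := (C : ℤ) - A) (V := (B : ℤ) - C))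
      · exfalso
        apply hg3'
        rw [← hNg, hl]
        exact Dvd.intro_left _ rfl
    subst hl1
    obtain ⟨x', y', hx', hy', hQ', hL', hcase⟩ := ord3_pos hm h hL2 (by linear_combination hl)
    obtain ⟨rfl, rfl⟩ := ord3_unique hx hy hx' hy' hxy hQ' hL hL'
    rcases le_total x' y' with hh | hh
    · rw [max_eq_right hh] at hg3
      omega
    · rw [max_eq_left hh] at hg3
      omega
  · intro u hu
    have h5 : x + y + max x y < u + 3 := by omega
    have h1 := ord3_rep1 h hL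
    have h2 := ord3_rep2 h hL
    have h6 : x + 2 * y < u + 3 ∧ 2 * x + y < u + 3 := by
      rcases le_total x y with hh | hh
      · rw [max_eq_right hh] at h5; omega
      · rw [max_eq_left hh] at h5; omega
    have h7 : u % 3 = 0 ∨ u % 3 = (x + 2 * y) % 3 ∨ u % 3 = (2 * x + y) % 3 :=
      ord3_classes hmod
    rcases h7 with h7 | h7 | h7
    · obtain ⟨k, rfl⟩ : ∃ k, u = 3 * k := ⟨u / 3, by omega⟩
      exact ord3_rep_mul h k
    · obtain ⟨k, rfl⟩ : ∃ k, u = x + 2 * y + 3 * k := ⟨(u - (x + 2 * y)) / 3, by omega⟩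
      exact h1.add (ord3_rep_mul h k)
    · obtain ⟨k, rfl⟩ : ∃ k, u = 2 * x + y + 3 * k := ⟨(u - (2 * x + y)) / 3, by omega⟩
      exact h2.add (ord3_rep_mul h k)

end Pool.Agent.MPd7e141
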