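import Pool.Agent.Lib.MP_d7e141_nt.Core

/-!
FD-Ord4 (MP_d7e141_nt). b² ≡ -1 mod m, m > 1 odd.
PROOF of existence: Thue: among the pairs (u,v), 0 ≤ u,v ≤ floor(sqrt m) ((⌊√m⌋+1)² > m pairs) two have the same u - b v mod m; the difference (x,y) ≠ (0,0),
x ≡ b y mod m, |x|,|y| ≤ √m, x² + y² ≡ 0 mod m, 0 < x²+y² ≤ 2m (and = 2m only if x² = y² = m, then m ∣ x - by.. m = x², m ∣ x → m=1), so x²+y² = m.
x, y ≠ 0 (y = 0: m = x², m ∣ x, m = 1).  If x,y have the same sign take absolute values. If x = -s, y = t (s,t > 0): -s ≡ b t, multiply by -b: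
b s ≡ -b² t ≡ t: so (t, s) works: t ≡ b s, t² + s² = m.
PROOF of uniqueness: (x,y), (x',y') both solutions: x y' - x' y ≡ b y y' - b y' y = 0 mod m, |x y' - x' y| < m (both terms in (0,m)), so x y' = x' y; coprime? from
x²+y² = x'²+y'² and proportionality x = x', y = y'.  (m² = (xx'+yy')² + (xy'-x'y)².)
PROOF of not Rep (u0 = x+y-2 when u0 odd: x² + y² = m odd so x + y is odd, u0 is odd): let s be a multiset, card u0, m ∣ ∑ b^e. With A_i = #{e ≡ i mod 4}, p = A_0 - A_2,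
q = A_1 - A_3: m ∣ p + b q, |p| + |q| ≤ u0, p + q ≡ u0 mod 2 odd. So m ∣ p² + q² (p ≡ -bq), p²+q² > 0 and p² + q² ≤ (|p|+|q|)² ≤ (x+y-2)² < 2 (x²+y²) = 2m, so p²+q² = m.
Now (p,q) → the pair (|.|,|.|) or rotated is a solution of the same congruence, by uniqueness {|p|,|q|} = {x,y}, so |p|+|q| = x+y > u0. Contradiction.
   (Shorter: (x,y),(p,q) satisfy x ≡ by, p ≡ -bq: x p + y q·... compute x q + y p ≡ b y q - b q y = 0 mod m, |xq + yp| ≤ sqrt(m·m) = m, so xq+yp ∈ {0, ±m}; and (xp - yq)² + (xq+yp)² = m²;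
   if xq + yp = 0 then |xp - yq| = m and (|p|,|q|) = (x,y) by Cauchy equality; if ±m then xp = yq and (|p|,|q|) = (y,x).)
PROOF of Rep for u > u0: u even: u/2 copies of exponents {0,2} (1 + b² ≡ 0). u odd: u ≥ x + y (same parity): exponent multiset: x ≡ by → b y + b² x ≡ b y - x ≡ 0: y copies of
exponent 1, x copies of exponent 2; add (u-x-y)/2 pairs {0,2}.
-/

namespace Pool.Agent.MPd7e141

private lemma ord4_dc {a b c : ℤ} (h : a ∣ b) (e : c = b) : a ∣ c := e ▸ h

private lemma ord4_pow {B M : ℤ} (h : M ∣ B ^ 2 + 1) (e : ℕ) :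
    ∃ c d : ℤ, |c| + |d| = 1 ∧ M ∣ B ^ e - (c + B * d) := by
  induction e with
  | zero => exact ⟨1, 0, by simp, by simp⟩
  | succ e ih =>
    obtain ⟨c, d, h1, h2⟩ := ih
    refine ⟨-d, c, by rw [abs_neg]; omega, ?_⟩
    have e1 : B ^ (e + 1) - (-d + B * c) = B * (B ^ e - (c + B * d)) + (B ^ 2 + 1) * d := by ring
    rw [e1]
    exact dvd_add (Dvd.dvd.mul_left h2 B) (Dvd.dvd.mul_right h d)

private lemma ord4_sum {b m : ℕ} (h : (m : ℤ) ∣ (b : ℤ) ^ 2 + 1) (s : Multiset ℕ) :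
    ∃ p q : ℤ, (m : ℤ) ∣ (((s.map (fun e => b ^ e)).sum : ℕ) : ℤ) - (p + b * q) ∧
      |p| + |q| ≤ s.card ∧ (2 : ℤ) ∣ p + q - s.card := by
  induction s using Multiset.induction_on with
  | empty => exact ⟨0, 0, by simp, by simp, by simp⟩
  | cons e s ih =>
    obtain ⟨p, q, h1, h2, h3⟩ := ih
    obtain ⟨c, d, h4, h5⟩ := ord4_pow h e
    refine ⟨p + c, q + d, ?_, ?_, ?_⟩
    · rw [Multiset.map_cons, Multiset.sum_cons]
      push_cast
      push_cast at h1
      exact ord4_dc (dvd_add h1 h5) (by ring)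
    · rw [Multiset.card_cons]
      push_cast
      have := abs_add_le p c
      have := abs_add_le q d
      omega
    · rw [Multiset.card_cons]
      push_cast
      have hcd : (2 : ℤ) ∣ c + d - 1 := by
        rcases abs_cases c with ⟨hc, _⟩ | ⟨hc, _⟩ <;> rcases abs_cases d with ⟨hd, _⟩ | ⟨hd, _⟩ <;>
          rw [hc, hd] at h4 <;> omega
      omega

private lemma ord4_thue {b m : ℕ} (hm : 1 < m) :
    ∃ u v : ℤ, (u ≠ 0 ∨ v ≠ 0) ∧ (m : ℤ) ∣ u - b * v ∧
      |u| ≤ Nat.sqrt m ∧ |v| ≤ Nat.sqrt m := by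
  classical
  have : NeZero m := ⟨by omega⟩
  set k := Nat.sqrt m with hk
  let f : Fin (k + 1) × Fin (k + 1) → ZMod m := fun z => (z.1 : ℕ) - (b : ZMod m) * (z.2 : ℕ)
  have hcard : Fintype.card (ZMod m) < Fintype.card (Fin (k + 1) × Fin (k + 1)) := by
    rw [ZMod.card, Fintype.card_prod, Fintype.card_fin]
    exact Nat.lt_succ_sqrt m
  obtain ⟨z, w, hzw, hf⟩ := Fintype.exists_ne_map_eq_of_card_lt f hcard
  refine ⟨((z.1 : ℕ) : ℤ) - ((w.1 : ℕ) : ℤ), ((z.2 : ℕ) : ℤ) - ((w.2 : ℕ) : ℤ), ?_, ?_, ?_, ?_⟩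
  · by_contra hc
    push Not at hc
    apply hzw
    have h1 : (z.1 : ℕ) = (w.1 : ℕ) := by omega
    have h2 : (z.2 : ℕ) = (w.2 : ℕ) := by omega
    exact Prod.ext (Fin.ext h1) (Fin.ext h2)
  · rw [← ZMod.intCast_zmod_eq_zero_iff_dvd]
    simp only [f] at hf
    push_cast
    linear_combination hf
  · have h1 := z.1.isLt
    have h2 := w.1.isLt
    rw [abs_le]
    constructor <;> omega
  · have h1 := z.2.isLt
    have h2 := w.2.isLt
    rw [abs_le]
    constructor <;> omega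

private lemma ord4_exists_int {b m : ℕ} (hm : 1 < m) (hodd : Odd m)
    (h : (m : ℤ) ∣ (b : ℤ) ^ 2 + 1) :
    ∃ u v : ℤ, (m : ℤ) ∣ u - b * v ∧ u ^ 2 + v ^ 2 = m := by
  obtain ⟨u, v, hne, hd, hu, hv⟩ := ord4_thue (b := b) hm
  refine ⟨u, v, hd, ?_⟩
  set k := Nat.sqrt m with hk
  have hkm : (k : ℤ) * k ≤ m := by exact_mod_cast Nat.sqrt_le m
  have hu2 : u ^ 2 ≤ (k : ℤ) * k := by
    rw [← sq_abs, sq]
    exact mul_le_mul hu hu (abs_nonneg u) (by positivity)
  have hv2 : v ^ 2 ≤ (k : ℤ) * k := by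
    rw [← sq_abs, sq]
    exact mul_le_mul hv hv (abs_nonneg v) (by positivity)
  have hdv : (m : ℤ) ∣ u ^ 2 + v ^ 2 := by
    have e1 : u ^ 2 + v ^ 2 = (u - b * v) * (u + b * v) + (b ^ 2 + 1) * v ^ 2 := by ring
    rw [e1]
    exact dvd_add (Dvd.dvd.mul_right hd _) (Dvd.dvd.mul_right h _)
  have hpos : 0 < u ^ 2 + v ^ 2 := by
    rcases hne with h1 | h1
    · have := pow_pos (abs_pos.mpr h1) 2
      rw [sq_abs] at this
      nlinarith [sq_nonneg v]
    · have := pow_pos (abs_pos.mpr h1) 2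
      rw [sq_abs] at this
      nlinarith [sq_nonneg u]
  obtain ⟨l, hl⟩ := hdv
  have hmpos : (0 : ℤ) < m := by exact_mod_cast (by omega : 0 < m)
  have hl1 : 0 < l := by
    rw [hl] at hpos
    exact (pos_iff_pos_of_mul_pos hpos).mp hmpos
  have hl2 : l ≤ 2 := by
    by_contra hc
    push Not at hc
    nlinarith
  have hl3 : l = 1 ∨ l = 2 := by omega
  rcases hl3 with rfl | rfl
  · rw [hl, mul_one]
  · exfalso
    have h1 : u ^ 2 = (k : ℤ) * k := by nlinarith
    have h2 : v ^ 2 = (k : ℤ) * k := by nlinarith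
    have h3 : (m : ℤ) = (k : ℤ) * k := by nlinarith
    have hkpos : (0 : ℤ) < k := by
      rcases (Nat.zero_le k).lt_or_eq with h4 | h4
      · exact_mod_cast h4
      · rw [← h4] at h3; simp at h3; omega
    -- k divides b^2 - 1
    have h5 : (k : ℤ) ∣ (b : ℤ) ^ 2 - 1 := by
      have h6 : (k : ℤ) * k ∣ u - b * v := by rw [← h3]; exact hd
      have h7 : u = v ∨ u = -v := by
        apply sq_eq_sq_iff_eq_or_eq_neg.mp; rw [h1, h2]
      have h8 : v = k ∨ v = -k := by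
        apply sq_eq_sq_iff_eq_or_eq_neg.mp; rw [h2]; ring
      have h9 : (k : ℤ) ∣ 1 - b ∨ (k : ℤ) ∣ 1 + b := by
        rcases h7 with rfl | rfl
        · left
          have : (k : ℤ) * k ∣ k * (1 - b) := by
            rcases h8 with h8 | h8
            · rw [h8] at h6; exact ord4_dc h6 (by ring)
            · rw [h8] at h6
              rw [← dvd_neg]; exact ord4_dc h6 (by ring)
          exact (mul_dvd_mul_iff_left hkpos.ne').mp this
        · right
          have : (k : ℤ) * k ∣ k * (1 + b) := by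
            rcases h8 with h8 | h8
            · rw [h8] at h6
              rw [← dvd_neg]; exact ord4_dc h6 (by ring)
            · rw [h8] at h6
              exact ord4_dc h6 (by ring)
          exact (mul_dvd_mul_iff_left hkpos.ne').mp this
      have e2 : (b : ℤ) ^ 2 - 1 = (1 - b) * (-(1 + b)) := by ring
      rcases h9 with h9 | h9
      · rw [e2]; exact Dvd.dvd.mul_right h9 _
      · have e3 : (b : ℤ) ^ 2 - 1 = (1 + b) * (b - 1) := by ring
        rw [e3]; exact Dvd.dvd.mul_right h9 _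
    have h6 : (k : ℤ) ∣ (b : ℤ) ^ 2 + 1 := (Dvd.intro _ rfl : (k : ℤ) ∣ k * k).trans (h3 ▸ h)
    have h7 : (k : ℤ) ∣ 2 := by
      exact ord4_dc (dvd_sub h6 h5) (by ring)
    have h8 : k ∣ 2 := by exact_mod_cast h7
    have h9 : m = k * k := by exact_mod_cast h3
    have h10 := Nat.le_of_dvd (by norm_num) h8
    have h11 : k = 1 ∨ k = 2 := by
      have : 0 < k := by exact_mod_cast hkpos
      omega
    rcases h11 with h11 | h11
    · rw [h11] at h9; omega
    · rw [h11] at h9; rw [h9] at hodd; revert hodd; decide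

private lemma ord4_exists {b m : ℕ} (hm : 1 < m) (hodd : Odd m)
    (h : (m : ℤ) ∣ (b : ℤ) ^ 2 + 1) :
    ∃ x y : ℤ, 0 < x ∧ 0 < y ∧ x ^ 2 + y ^ 2 = m ∧ (m : ℤ) ∣ x - b * y := by
  obtain ⟨u, v, hd, he⟩ := ord4_exists_int hm hodd h
  have hm1 : (1 : ℤ) < m := by exact_mod_cast hm
  have hsq : ∀ z : ℤ, (m : ℤ) ∣ z → z ^ 2 ≠ m := by
    intro z hz hz2
    obtain ⟨c, rfl⟩ := hz
    have h1 : (m : ℤ) * (m * c ^ 2) = m * 1 := by linear_combination hz2
    have h2 := mul_left_cancel₀ (by omega : (m : ℤ) ≠ 0) h1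
    have h3 := Int.eq_one_or_neg_one_of_mul_eq_one h2
    omega
  have hd2 : (m : ℤ) ∣ -v - b * u := by
    have e1 : -v - b * u = -b * (u - b * v) - (b ^ 2 + 1) * v := by ring
    rw [e1]
    exact dvd_sub (Dvd.dvd.mul_left hd _) (Dvd.dvd.mul_right h _)
  have hv : v ≠ 0 := by
    rintro rfl
    apply hsq u
    · simpa using hd
    · simpa using he
  have hu : u ≠ 0 := by
    rintro rfl
    apply hsq v
    · have := hd2
      simpa using this
    · simpa using he
  rcases lt_or_gt_of_ne hu with hu' | hu' <;> rcases lt_or_gt_of_ne hv with hv' | hv'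
  · refine ⟨-u, -v, by omega, by omega, by rw [← he]; ring, ?_⟩
    rw [← dvd_neg]; exact ord4_dc hd (by ring)
  · refine ⟨v, -u, by omega, by omega, by rw [← he]; ring, ?_⟩
    rw [← dvd_neg]; exact ord4_dc hd2 (by ring)
  · refine ⟨-v, u, by omega, by omega, by rw [← he]; ring, ?_⟩
    exact hd2
  · exact ⟨u, v, hu', hv', he, hd⟩

private lemma ord4_uniq {B M x y x' y' : ℤ} (hx : 0 < x) (hy : 0 < y) (hx' : 0 < x')
    (hy' : 0 < y') (h1 : x ^ 2 + y ^ 2 = M) (h2 : x' ^ 2 + y' ^ 2 = M) (h3 : M ∣ x - B * y)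
    (h4 : M ∣ x' - B * y') : x' = x ∧ y' = y := by
  have hM : 0 < M := by rw [← h1]; positivity
  have hD : M ∣ x * y' - x' * y := by
    have e : x * y' - x' * y = (x - B * y) * y' - (x' - B * y') * y := by ring
    rw [e]
    exact dvd_sub (Dvd.dvd.mul_right h3 _) (Dvd.dvd.mul_right h4 _)
  have hid : (x * x' + y * y') ^ 2 + (x * y' - x' * y) ^ 2 = M ^ 2 := by
    have : (x * x' + y * y') ^ 2 + (x * y' - x' * y) ^ 2 = (x ^ 2 + y ^ 2) * (x' ^ 2 + y' ^ 2) := by
      ring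
    rw [this, h1, h2]; ring
  have hS : 0 < x * x' + y * y' := by positivity
  have hD0 : x * y' - x' * y = 0 := by
    apply Int.eq_zero_of_abs_lt_dvd hD
    apply abs_lt_of_sq_lt_sq _ hM.le
    have : 0 < (x * x' + y * y') ^ 2 := by positivity
    omega
  rw [hD0] at hid
  have hS2 : x * x' + y * y' = M := by
    have : (x * x' + y * y') ^ 2 = M ^ 2 := by linear_combination hid
    exact (pow_left_inj₀ hS.le hM.le (by norm_num)).mp this
  have hz : (x' - x) ^ 2 + (y' - y) ^ 2 = 0 := by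
    linear_combination h1 + h2 - 2 * hS2
  have ha : (x' - x) ^ 2 = 0 := by nlinarith [sq_nonneg (x' - x), sq_nonneg (y' - y)]
  have hb : (y' - y) ^ 2 = 0 := by nlinarith [sq_nonneg (x' - x), sq_nonneg (y' - y)]
  have ha' := pow_eq_zero_iff (n := 2) (by norm_num) |>.mp ha
  have hb' := pow_eq_zero_iff (n := 2) (by norm_num) |>.mp hb
  constructor <;> omega

private lemma ord4_low {B M x y p q : ℤ} (hx : 0 < x) (hy : 0 < y)
    (h1 : x ^ 2 + y ^ 2 = M) (h3 : M ∣ x - B * y) (h2 : p ^ 2 + q ^ 2 = M)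
    (h4 : M ∣ p + B * q) : x + y ≤ |p| + |q| := by
  have hM : 0 < M := by rw [← h1]; positivity
  have hD : M ∣ x * q + y * p := by
    have e : x * q + y * p = (x - B * y) * q + (p + B * q) * y := by ring
    rw [e]
    exact dvd_add (Dvd.dvd.mul_right h3 _) (Dvd.dvd.mul_right h4 _)
  have hid : (x * p - y * q) ^ 2 + (x * q + y * p) ^ 2 = M ^ 2 := by
    have : (x * p - y * q) ^ 2 + (x * q + y * p) ^ 2 = (x ^ 2 + y ^ 2) * (p ^ 2 + q ^ 2) := by
      ring
    rw [this, h1, h2]; ring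
  have key : ∀ P Q : ℤ, 0 ≤ P → 0 ≤ Q → P ^ 2 + Q ^ 2 = M → M ≤ x * P + y * Q → x + y ≤ P + Q := by
    intro P Q _ _ hPQ hle
    have hz : (P - x) ^ 2 + (Q - y) ^ 2 ≤ 0 := by nlinarith
    have ha : (P - x) ^ 2 = 0 := by nlinarith [sq_nonneg (P - x), sq_nonneg (Q - y)]
    have hb : (Q - y) ^ 2 = 0 := by nlinarith [sq_nonneg (P - x), sq_nonneg (Q - y)]
    have ha' := pow_eq_zero_iff (n := 2) (by norm_num) |>.mp ha
    have hb' := pow_eq_zero_iff (n := 2) (by norm_num) |>.mp hb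
    omega
  by_cases hc : x * q + y * p = 0
  · rw [hc] at hid
    have h5 : |x * p - y * q| = M := by
      have : |x * p - y * q| ^ 2 = M ^ 2 := by rw [sq_abs]; linear_combination hid
      exact (pow_left_inj₀ (abs_nonneg _) hM.le (by norm_num)).mp this
    apply key _ _ (abs_nonneg p) (abs_nonneg q)
    · rw [sq_abs, sq_abs]; exact h2
    · rw [← h5]
      have h6 := abs_sub (x * p) (y * q)
      rw [abs_mul, abs_mul, abs_of_pos hx, abs_of_pos hy] at h6
      exact h6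
  · have h5 : M ≤ |x * q + y * p| := by
      have := Int.le_of_dvd (abs_pos.mpr hc) ((dvd_abs _ _).mpr hD)
      exact this
    have h6 := abs_add_le (x * q) (y * p)
    rw [abs_mul, abs_mul, abs_of_pos hx, abs_of_pos hy] at h6
    have := key |q| |p| (abs_nonneg q) (abs_nonneg p) (by rw [sq_abs, sq_abs]; linarith)
      (by linarith)
    linarith

theorem ord4 {b m : ℕ} (hm : 1 < m) (hodd : Odd m) (h : m ∣ b ^ 2 + 1) :
    ∃ x y : ℕ, 0 < x ∧ 0 < y ∧ x ^ 2 + y ^ 2 = m ∧ x ≡ b * y [MOD m] ∧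
      (∀ x' y' : ℕ, 0 < x' → 0 < y' → x' ^ 2 + y' ^ 2 = m → x' ≡ b * y' [MOD m] → x' = x ∧ y' = y) ∧
      ¬ Rep b m (x + y - 2) ∧ ∀ u, x + y - 2 < u → Rep b m u := by
  have hz : (m : ℤ) ∣ (b : ℤ) ^ 2 + 1 := by exact_mod_cast h
  obtain ⟨X, Y, hX, hY, he, hd⟩ := ord4_exists hm hodd hz
  obtain ⟨x, rfl⟩ := Int.eq_ofNat_of_zero_le hX.le
  obtain ⟨y, rfl⟩ := Int.eq_ofNat_of_zero_le hY.le
  have hx : 0 < x := by exact_mod_cast hX
  have hy : 0 < y := by exact_mod_cast hY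
  have he' : x ^ 2 + y ^ 2 = m := by exact_mod_cast he
  have hxy : Odd (x + y) := by
    have h1 : Odd (x ^ 2 + y ^ 2) := by rw [he']; exact hodd
    rw [Nat.odd_add] at h1 ⊢
    rw [Nat.odd_pow_iff (by norm_num), Nat.even_pow' (by norm_num)] at h1
    exact h1
  refine ⟨x, y, hx, hy, he', ?_, ?_, ?_, ?_⟩
  · apply Nat.ModEq.symm
    rw [Nat.modEq_iff_dvd]
    push_cast
    exact hd
  · intro x' y' hx' hy' he2 hd2
    have hd3 : (m : ℤ) ∣ (x' : ℤ) - b * y' := by
      have := (Nat.modEq_iff_dvd.mp hd2.symm)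
      push_cast at this
      exact this
    have := ord4_uniq (B := b) (M := m) hX hY (by exact_mod_cast hx' : (0 : ℤ) < (x' : ℤ))
      (by exact_mod_cast hy' : (0 : ℤ) < (y' : ℤ)) he (by exact_mod_cast he2) hd hd3
    constructor
    · exact_mod_cast this.1
    · exact_mod_cast this.2
  · rintro ⟨s, hs, hs'⟩
    obtain ⟨p, q, h1, h2, h3⟩ := ord4_sum hz s
    rw [hs] at h2 h3
    have hs2 : (m : ℤ) ∣ (((s.map (fun e => b ^ e)).sum : ℕ) : ℤ) := by exact_mod_cast hs'
    have h4 : (m : ℤ) ∣ p + b * q := (dvd_sub_right hs2).mp h1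
    have hcast : ((x + y - 2 : ℕ) : ℤ) = x + y - 2 := by
      rw [Nat.cast_sub (by omega)]; push_cast; ring
    rw [hcast] at h2 h3
    have hxy2 : ¬ (2 : ℤ) ∣ (x : ℤ) + y := by
      obtain ⟨c, hc⟩ := hxy
      omega
    have hpq : p ≠ 0 ∨ q ≠ 0 := by
      by_contra hc
      push Not at hc
      rw [hc.1, hc.2] at h3
      omega
    have h5 : (m : ℤ) ∣ p ^ 2 + q ^ 2 := by
      have e : p ^ 2 + q ^ 2 = (p + b * q) * (p - b * q) + (b ^ 2 + 1) * q ^ 2 := by ring
      rw [e]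
      exact dvd_add (Dvd.dvd.mul_right h4 _) (Dvd.dvd.mul_right hz _)
    have hpos : 0 < p ^ 2 + q ^ 2 := by
      rcases hpq with h6 | h6
      · have := pow_pos (abs_pos.mpr h6) 2
        rw [sq_abs] at this
        nlinarith [sq_nonneg q]
      · have := pow_pos (abs_pos.mpr h6) 2
        rw [sq_abs] at this
        nlinarith [sq_nonneg p]
    have hlt : p ^ 2 + q ^ 2 < 2 * m := by
      have h6 : p ^ 2 + q ^ 2 ≤ (|p| + |q|) ^ 2 := by
        rw [← sq_abs p, ← sq_abs q]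
        nlinarith [abs_nonneg p, abs_nonneg q, mul_nonneg (abs_nonneg p) (abs_nonneg q)]
      have h7 : (|p| + |q|) ^ 2 ≤ ((x : ℤ) + y - 2) ^ 2 :=
        pow_le_pow_left₀ (by positivity) h2 2
      have h8 : ((x : ℤ) + y - 2) ^ 2 < ((x : ℤ) + y) ^ 2 := by
        apply pow_lt_pow_left₀ (by omega) (by omega) (by norm_num)
      have h9 : ((x : ℤ) + y) ^ 2 ≤ 2 * m := by
        rw [← he]; nlinarith [sq_nonneg ((x : ℤ) - y)]
      linarith
    obtain ⟨l, hl⟩ := h5
    have hmpos : (0 : ℤ) < m := by exact_mod_cast (by omega : 0 < m)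
    have hl1 : l = 1 := by
      have h6 : 0 < l := by
        rw [hl] at hpos
        exact (pos_iff_pos_of_mul_pos hpos).mp hmpos
      have h7 : l < 2 := by
        by_contra hc
        push Not at hc
        nlinarith
      omega
    rw [hl1, mul_one] at hl
    have := ord4_low hX hY he hd hl h4
    omega
  · intro u hu
    rcases Nat.even_or_odd u with hev | hod
    · obtain ⟨k, rfl⟩ := hev
      refine ⟨Multiset.replicate k 0 + Multiset.replicate k 2, by simp, ?_⟩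
      simp only [Multiset.map_add, Multiset.sum_add, Multiset.map_replicate,
        Multiset.sum_replicate, smul_eq_mul, pow_zero, mul_one]
      have e : k + k * b ^ 2 = (b ^ 2 + 1) * k := by ring
      rw [e]
      exact Dvd.dvd.mul_right h _
    · obtain ⟨k, hk⟩ : ∃ k, u = x + y + (k + k) := by
        obtain ⟨c, hc⟩ := hxy
        obtain ⟨d, hd'⟩ := hod
        exact ⟨d - c, by omega⟩
      subst hk
      refine ⟨(Multiset.replicate y 1 + Multiset.replicate x 2) +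
        (Multiset.replicate k 0 + Multiset.replicate k 2), by simp; omega, ?_⟩
      simp only [Multiset.map_add, Multiset.sum_add, Multiset.map_replicate,
        Multiset.sum_replicate, smul_eq_mul, pow_zero, mul_one, pow_one]
      have e : (((y * b + x * b ^ 2 + (k + k * b ^ 2) : ℕ)) : ℤ) =
          b ^ 2 * ((x : ℤ) - b * y) + (b ^ 2 + 1) * (b * y + k) := by
        push_cast; ring
      have h2 : (m : ℤ) ∣ (((y * b + x * b ^ 2 + (k + k * b ^ 2) : ℕ)) : ℤ) := by
        rw [e]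
        exact dvd_add (Dvd.dvd.mul_left hd _) (Dvd.dvd.mul_right hz _)
      exact_mod_cast h2

end Pool.Agent.MPd7e141
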