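import Pool.Agent.Lib.MP_d7e141_nt.Ord3
import Pool.Agent.Lib.MP_d7e141_nt.Ord4

/-!
# MP_d7e141_nt : orders two, three, four, six
-/

namespace Pool.Agent.MPd7e141

lemma not_three_dvd_core {b n : ℕ} (h : Admissible b n) (hd : core b n ∣ b ^ 2 + b + 1) :
    ¬ 3 ∣ core b n := by
  intro h3
  have h4 := h3.trans hd
  have h5 : 3 ∣ b - 1 := by
    have hb := h.two_le
    have h6 : b % 3 = 0 ∨ b % 3 = 1 ∨ b % 3 = 2 := by omega
    have h7 : (b ^ 2 + b + 1) % 3 = 0 := Nat.mod_eq_zero_of_dvd h4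
    rcases h6 with h6 | h6 | h6
    · exfalso; simp [Nat.pow_mod, Nat.add_mod, h6] at h7
    · omega
    · exfalso; simp [Nat.pow_mod, Nat.add_mod, h6] at h7
  have := Nat.dvd_gcd h5 h3
  rw [h.coprime_pred] at this
  omega

theorem F_order_three {b n : ℕ} (h : Admissible b n) (hd : core b n ∣ b ^ 2 + b + 1) :
    (∃! p : ℕ × ℕ, 0 < p.1 ∧ 0 < p.2 ∧ p.1 ^ 2 + p.1 * p.2 + p.2 ^ 2 = core b n ∧
        p.1 ≡ b * p.2 [MOD core b n]) ∧
      ∀ x y : ℕ, 0 < x → 0 < y → x ^ 2 + x * y + y ^ 2 = core b n →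
        x ≡ b * y [MOD core b n] → F b n = x + y + max x y - 3 := by
  obtain ⟨x, y, hx, hy, hq, hc, hu, hn, hr⟩ := ord3 h.core_gt_one (not_three_dvd_core h hd) hd
  refine ⟨⟨(x, y), ⟨hx, hy, hq, hc⟩, ?_⟩, ?_⟩
  · rintro ⟨x', y'⟩ ⟨hx', hy', hq', hc'⟩
    obtain ⟨e1, e2⟩ := hu x' y' hx' hy' hq' hc'
    simp [e1, e2]
  · intro x' y' hx' hy' hq' hc'
    obtain ⟨e1, e2⟩ := hu x' y' hx' hy' hq' hc'
    rw [e1, e2]
    exact F_eq h hn hr

theorem F_order_four {b n : ℕ} (h : Admissible b n) (hd : core b n ∣ b ^ 2 + 1) :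
    (∃! p : ℕ × ℕ, 0 < p.1 ∧ 0 < p.2 ∧ p.1 ^ 2 + p.2 ^ 2 = core b n ∧
        p.1 ≡ b * p.2 [MOD core b n]) ∧
      ∀ x y : ℕ, 0 < x → 0 < y → x ^ 2 + y ^ 2 = core b n →
        x ≡ b * y [MOD core b n] → F b n = x + y - 2 := by
  have hodd := odd_of_coprime h.two_le (coprime_core h.pos) h.coprime_pred
  obtain ⟨x, y, hx, hy, hq, hc, hu, hn, hr⟩ := ord4 h.core_gt_one hodd hd
  refine ⟨⟨(x, y), ⟨hx, hy, hq, hc⟩, ?_⟩, ?_⟩
  · rintro ⟨x', y'⟩ ⟨hx', hy', hq', hc'⟩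
    obtain ⟨e1, e2⟩ := hu x' y' hx' hy' hq' hc'
    simp [e1, e2]
  · intro x' y' hx' hy' hq' hc'
    obtain ⟨e1, e2⟩ := hu x' y' hx' hy' hq' hc'
    rw [e1, e2]
    exact F_eq h hn hr

theorem F_order_six {b n : ℕ} (h : Admissible b n) (hd : core b n ∣ b ^ 2 - b + 1) :
    F b n = 1 := by
  have hc := coprime_core (b := b) h.pos
  have hb := h.two_le
  obtain ⟨c, hbc⟩ : ∃ c, b ^ 2 - b + 1 = c ∧ c + b = b ^ 2 + 1 := by
    refine ⟨_, rfl, ?_⟩
    have : b ≤ b ^ 2 := by nlinarith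
    omega
  have h2 : Rep b (core b n) 2 := by
    refine ⟨{3, 0}, by simp, ?_⟩
    have e : b ^ 3 + 1 = c * (b + 1) := by
      have : c + b = b ^ 2 + 1 := hbc.2
      zify at this ⊢
      linear_combination (-(b : ℤ) - 1) * this
    have : core b n ∣ b ^ 3 + 1 := by
      rw [e]
      exact Dvd.dvd.mul_right (by rw [← hbc.1]; exact hd) _
    simpa using this
  have h3 : Rep b (core b n) 3 := by
    refine ⟨{4, 2, 0}, by simp, ?_⟩
    have e : b ^ 4 + (b ^ 2 + 1) = c * (b ^ 2 + b + 1) := by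
      have : c + b = b ^ 2 + 1 := hbc.2
      zify at this ⊢
      linear_combination (-((b : ℤ) ^ 2 + b + 1)) * this
    have : core b n ∣ b ^ 4 + (b ^ 2 + 1) := by
      rw [e]
      exact Dvd.dvd.mul_right (by rw [← hbc.1]; exact hd) _
    simpa using this
  apply F_eq h (not_rep_one h.core_gt_one hc)
  intro u hu
  induction u using Nat.strong_induction_on with
  | _ u ih =>
    rcases Nat.lt_or_ge u 4 with h4 | h4
    · have : u = 2 ∨ u = 3 := by omega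
      rcases this with rfl | rfl
      · exact h2
      · exact h3
    · have := (ih (u - 2) (by omega) (by omega)).add h2
      rwa [Nat.sub_add_cancel (by omega)] at this

end Pool.Agent.MPd7e141
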