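import Pool.Agent.Lib.MP_d7e141_nt.Family

/-!
# MP_d7e141_nt : the upper bound `(d - 1)(b - 1)`, `d` the order of `b` modulo the core
-/

namespace Pool.Agent.MPd7e141

lemma digitSum_le_of_lt {b : ℕ} (hb : 2 ≤ b) : ∀ k N : ℕ, N < b ^ k →
    digitSum b N ≤ k * (b - 1) ∧ (digitSum b N = k * (b - 1) → N + 1 = b ^ k) := by
  intro k
  induction k with
  | zero =>
    intro N hN
    have : N = 0 := by simpa using hN
    subst this
    simp [digitSum_zero]
  | succ k ih =>
    intro N hN
    have hr := Nat.mod_lt N (by omega : 0 < b)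
    have e0 := Nat.mod_add_div N b
    have e1 := digitSum_add_mul hb (r := N % b) hr (N / b)
    rw [e0] at e1
    have h2 : N / b < b ^ k := by
      rw [Nat.div_lt_iff_lt_mul (by omega)]; rw [pow_succ] at hN; exact hN
    obtain ⟨h3, h4⟩ := ih (N / b) h2
    have h5 : (k + 1) * (b - 1) = (b - 1) + k * (b - 1) := by ring
    rw [h5, e1]
    refine ⟨by omega, fun h => ?_⟩
    have h6 : N % b = b - 1 := by omega
    have h7 : digitSum b (N / b) = k * (b - 1) := by omega
    have h8 := h4 h7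
    rw [pow_succ, ← h8]
    have h9 : (N / b + 1) * b = b * (N / b) + b := by ring
    rw [h9]
    omega

lemma rep_of_number {b m N u : ℕ} (hb : 2 ≤ b) (hm : 0 < m) (hc : Nat.Coprime b m) (hN : 0 < N)
    (hmN : m ∣ N) (hle : digitSum b N ≤ u) (hmod : N ≡ u [MOD (b - 1)]) : Rep b m u := by
  obtain ⟨s, hs, hs'⟩ := exists_multiset_digits hb N
  have h1 : Rep b m (digitSum b N) := ⟨s, hs, by rw [hs']; exact hmN⟩
  have h2 : digitSum b N ≡ u [MOD (b - 1)] := (digitSum_modEq hb N).symm.trans hmod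
  obtain ⟨k, hk⟩ := (Nat.modEq_iff_dvd' hle).1 h2
  have h3 : u = digitSum b N + (b - 1) * k := by omega
  rw [h3]
  exact h1.split_many hb hm hc (digitSum_pos hb hN) k

lemma exists_number_mod {b m : ℕ} (hb : 2 ≤ b) (hm : 0 < m) (hcp : Nat.Coprime (b - 1) m) (u : ℕ) :
    ∃ N : ℕ, 0 < N ∧ N ≤ m * (b - 1) ∧ m ∣ N ∧ N ≡ u [MOD (b - 1)] := by
  obtain ⟨k, hk1, hk2⟩ := Nat.chineseRemainder hcp.symm 0 u
  have hlt : k % (m * (b - 1)) < m * (b - 1) := Nat.mod_lt _ (Nat.mul_pos hm (by omega))
  have hmk : m ∣ k := (Nat.modEq_zero_iff_dvd).1 hk1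
  have h1 : m ∣ k % (m * (b - 1)) := (Nat.dvd_mod_iff (Dvd.intro _ rfl)).2 hmk
  have h2 : k % (m * (b - 1)) ≡ u [MOD (b - 1)] :=
    ((Nat.mod_modEq k (m * (b - 1))).of_mul_left m).trans hk2
  rcases Nat.eq_zero_or_pos (k % (m * (b - 1))) with h0 | h0
  · refine ⟨m * (b - 1), Nat.mul_pos hm (by omega), le_rfl, Dvd.intro _ rfl, ?_⟩
    rw [h0] at h2
    exact (((Nat.modEq_zero_iff_dvd).2 (Dvd.intro_left _ rfl))).trans h2
  · exact ⟨_, h0, hlt.le, h1, h2⟩

theorem F_le_ord {b n : ℕ} (h : Admissible b n) :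
    F b n ≤ (orderOf (b : ZMod (core b n)) - 1) * (b - 1) ∧
      (F b n = (orderOf (b : ZMod (core b n)) - 1) * (b - 1) ↔
        core b n = (b ^ orderOf (b : ZMod (core b n)) - 1) / (b - 1)) := by
  have hb := h.two_le
  have hm := core_pos (b := b) h.pos
  have hm1 := h.core_gt_one
  have hc := coprime_core (b := b) h.pos
  have hcp := h.coprime_pred
  set m := core b n with hmdef
  set d := orderOf (b : ZMod m) with hd
  have hpow : (b : ZMod m) ^ d = 1 := pow_orderOf_eq_one _
  have hdvd : m ∣ b ^ d - 1 := by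
    have h1 : ((b ^ d : ℕ) : ZMod m) = ((1 : ℕ) : ZMod m) := by push_cast; exact hpow
    have h2 := (ZMod.natCast_eq_natCast_iff _ _ _).1 h1
    exact (Nat.modEq_iff_dvd' (Nat.one_le_pow _ _ (by omega))).1 h2.symm
  have hdpos : 0 < d := by
    have : NeZero m := ⟨by omega⟩
    have h1 : ((ZMod.unitOfCoprime b hc : (ZMod m)ˣ) : ZMod m) = (b : ZMod m) :=
      ZMod.coe_unitOfCoprime b hc
    rw [hd, ← h1, orderOf_units]
    exact orderOf_pos _
  have hbd : b - 1 ∣ b ^ d - 1 := by
    have := Nat.sub_dvd_pow_sub_pow b 1 d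
    simpa using this
  have hb1 : 0 < b - 1 := by omega
  set R := (b ^ d - 1) / (b - 1) with hR
  have hRmul : R * (b - 1) = b ^ d - 1 := Nat.div_mul_cancel hbd
  have hmR : m ∣ R := by
    apply Nat.Coprime.dvd_of_dvd_mul_right hcp.symm
    rw [hRmul]
    exact hdvd
  have hbd2 : b ≤ b ^ d := by
    calc b = b ^ 1 := (pow_one b).symm
      _ ≤ b ^ d := Nat.pow_le_pow_right (by omega) hdpos
  have hRpos : 0 < R := by
    rcases Nat.eq_zero_or_pos R with h0 | h0
    · rw [h0] at hRmul; omega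
    · exact h0
  have hmle : m ≤ R := Nat.le_of_dvd hRpos hmR
  have hle : F b n ≤ (d - 1) * (b - 1) := by
    apply F_le h
    intro u hu
    obtain ⟨N, hN0, hN, hmN, hNu⟩ := exists_number_mod hb hm hcp u
    have hNlt : N < b ^ d := by
      have : m * (b - 1) ≤ R * (b - 1) := Nat.mul_le_mul_right _ hmle
      omega
    have hs := (digitSum_le_of_lt hb d N hNlt).1
    apply rep_of_number hb hm hc hN0 hmN _ hNu
    by_contra hcon
    have h2 : u ≡ digitSum b N [MOD (b - 1)] := hNu.symm.trans (digitSum_modEq hb N)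
    have h3 : b - 1 ∣ digitSum b N - u := (Nat.modEq_iff_dvd' (by omega)).1 h2
    have h4 : b - 1 ≤ digitSum b N - u := Nat.le_of_dvd (by omega) h3
    have h5 : d * (b - 1) = (d - 1) * (b - 1) + (b - 1) := by
      obtain ⟨e, he⟩ : ∃ e, d = e + 1 := ⟨d - 1, by omega⟩
      rw [he]
      simp only [Nat.add_sub_cancel]
      ring
    omega
  refine ⟨hle, ?_, ?_⟩
  · intro hF
    by_contra hne
    have hlt : m < R := lt_of_le_of_ne hmle hne
    apply not_rep_F h
    rw [hF, ← hmdef]
    have hNlt : m * (b - 1) + 1 < b ^ d := by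
      have : m * (b - 1) < R * (b - 1) := Nat.mul_lt_mul_of_pos_right hlt hb1
      omega
    obtain ⟨hs, hs'⟩ := digitSum_le_of_lt hb d (m * (b - 1)) (by omega)
    apply rep_of_number hb hm hc (Nat.mul_pos hm hb1) (Dvd.intro _ rfl)
    · have h1 : b - 1 ∣ digitSum b (m * (b - 1)) := by
        rw [← Nat.modEq_zero_iff_dvd]
        exact (digitSum_modEq hb _).symm.trans
          ((Nat.modEq_zero_iff_dvd).2 (Dvd.intro_left _ rfl))
      obtain ⟨c, hc'⟩ := h1
      rw [hc'] at hs hs' ⊢
      have hcd : c ≤ d := by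
        rw [mul_comm] at hs
        exact Nat.le_of_mul_le_mul_right hs hb1
      have hcd' : c ≠ d := by
        intro hcd0
        have := hs' (by rw [hcd0, mul_comm])
        omega
      rw [mul_comm]
      exact Nat.mul_le_mul_right _ (by omega)
    · exact ((Nat.modEq_zero_iff_dvd).2 (Dvd.intro_left _ rfl)).trans
        ((Nat.modEq_zero_iff_dvd).2 (Dvd.intro_left _ rfl)).symm
  · intro hmeq
    -- gcd(d, b-1) = 1
    have hgeom : R = ∑ i ∈ Finset.range d, b ^ i := by rw [hR, ← Nat.geomSum_eq hb]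
    have hRd : R ≡ d [MOD (b - 1)] := by
      rw [hgeom]
      have h1 : ∀ i ∈ Finset.range d, b ^ i ≡ 1 [MOD (b - 1)] := by
        intro i _
        have h2 : b ≡ 1 [MOD (b - 1)] :=
          ((Nat.modEq_iff_dvd' (by omega : 1 ≤ b)).2 dvd_rfl).symm
        simpa using h2.pow i
      have h3 : ∑ i ∈ Finset.range d, b ^ i ≡ ∑ i ∈ Finset.range d, 1 [MOD (b - 1)] := by
        have : ∀ s : Finset ℕ, (∀ i ∈ s, b ^ i ≡ 1 [MOD (b - 1)]) →
            ∑ i ∈ s, b ^ i ≡ ∑ i ∈ s, 1 [MOD (b - 1)] := by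
          intro s
          induction s using Finset.induction_on with
          | empty => intro _; simp; rfl
          | insert a s ha ih =>
            intro hs
            rw [Finset.sum_insert ha, Finset.sum_insert ha]
            exact (hs a (Finset.mem_insert_self _ _)).add
              (ih fun i hi => hs i (Finset.mem_insert_of_mem hi))
        exact this _ h1
      simpa using h3
    have hcd : Nat.Coprime d (b - 1) := by
      have h1 : Nat.gcd R (b - 1) = Nat.gcd d (b - 1) := hRd.gcd_eq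
      rw [Nat.Coprime, ← h1, ← hmeq]
      exact hcp.symm
    have hd2 : 2 ≤ d := by
      by_contra hcon
      have h1 : d = 1 := by omega
      rw [hgeom, h1] at hmeq
      simp at hmeq
      omega
    have hf := family (b := b) (c := 1) (m := d) hb le_rfl hd2 hcd
    rw [one_mul, pow_one, ← hR] at hf
    have hcR : core b R = R := by
      apply core_eq_self
      rw [← hmeq]
      exact hc
    apply F_eq h
    · rw [← hmdef, hmeq]
      have := not_rep_F hf.1
      rw [hcR, hf.2] at this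
      exact this
    · intro u hu
      rw [← hmdef, hmeq]
      have := rep_of_F_lt hf.1 (u := u) (by rw [hf.2]; exact hu)
      rw [hcR] at this
      exact this

end Pool.Agent.MPd7e141
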